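import Pool.Agent.BdReg.Metric1

/-! Compactness in `U(N,1)`. -/

set_option autoImplicit false

open Metric Set Filter Topology ComplexConjugate

namespace Pool.Agent.BdReg

open Pool.Agent.BallCurve

variable {W : Type*} [NormedAddCommGroup W] [InnerProductSpace ℂ W]

/-! MODULE cp1 -/

/-- Bound for the operator norm.  For `x = (1, 0)`: `L (1,0) = c (1, act L 0)`, `|c|² (1-|act L 0|²) = 1`.
For `(0, w)`: `qf (L (0,w)) = -|w|²`, and `hf (L (1,0)) (L (0,w)) = 0` gives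
`|(L(0,w)).1| ≤ |act L 0| |(L (0,w)).2|`, so `|(L(0,w)).2|² (1-|act L 0|²) ≤ |w|²`. -/
theorem norm_bound {L : (ℂ × W) ≃L[ℂ] (ℂ × W)} (hL : L ∈ UG W) {ρ : ℝ} (hρ : ρ < 1)
    (h : ‖act L 0‖ ≤ ρ) (x : ℂ × W) : ‖L x‖ ≤ 4 / Real.sqrt (1 - ρ ^ 2) * ‖x‖ := by
  have h0 : (0 : W) ∈ ball (0 : W) 1 := by simp
  have hρ0 : 0 ≤ ρ := le_trans (norm_nonneg _) h
  have hs2 : 0 < 1 - ρ ^ 2 := by nlinarith
  have hs : 0 < Real.sqrt (1 - ρ ^ 2) := Real.sqrt_pos.2 hs2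
  have hsq : Real.sqrt (1 - ρ ^ 2) ^ 2 = 1 - ρ ^ 2 := Real.sq_sqrt hs2.le
  have ha : ‖act L 0‖ ^ 2 ≤ ρ ^ 2 := pow_le_pow_left₀ (norm_nonneg _) h 2
  -- a bound for vectors with a given square
  have key : ∀ (t u : ℝ), 0 ≤ t → 0 ≤ u → t ^ 2 * (1 - ρ ^ 2) ≤ u ^ 2 →
      t ≤ u / Real.sqrt (1 - ρ ^ 2) := by
    intro t u ht hu htu
    rw [le_div_iff₀ hs]
    rw [← hsq] at htu
    have h1 : (t * Real.sqrt (1 - ρ ^ 2)) ^ 2 ≤ u ^ 2 := by rw [mul_pow]; exact htu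
    exact (pow_le_pow_iff_left₀ (mul_nonneg ht hs.le) hu two_ne_zero).1 h1
  -- `L (1, 0)`
  have e1 := hL ((1 : ℂ), (0 : W))
  rw [map_one_eq hL h0, qf_smul, qf_one, qf_one, norm_zero] at e1
  have c0 : (L ((1 : ℂ), (0 : W))).1 ≠ 0 := fst_ne_zero hL h0
  have b1 : ‖(L ((1 : ℂ), (0 : W))).1‖ ≤ 1 / Real.sqrt (1 - ρ ^ 2) := by
    refine key _ 1 (norm_nonneg _) zero_le_one ?_
    nlinarith [sq_nonneg ‖(L ((1 : ℂ), (0 : W))).1‖]
  have b2 : ‖L ((1 : ℂ), (0 : W))‖ ≤ 1 / Real.sqrt (1 - ρ ^ 2) := by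
    rw [map_one_eq hL h0, norm_smul]
    have h1 : ‖((1 : ℂ), act L (0 : W))‖ ≤ 1 := by
      rw [Prod.norm_def]
      refine max_le ?_ (le_trans h hρ.le)
      show ‖(1 : ℂ)‖ ≤ 1
      rw [norm_one]
    calc _ ≤ ‖(L ((1 : ℂ), (0 : W))).1‖ * 1 :=
          mul_le_mul_of_nonneg_left h1 (norm_nonneg _)
      _ ≤ _ := by rw [mul_one]; exact b1
  -- `L (0, w)`
  have b3 : ∀ w : W, ‖L ((0 : ℂ), w)‖ ≤ ‖w‖ / Real.sqrt (1 - ρ ^ 2) := by
    intro w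
    have e2 := hL ((0 : ℂ), w)
    have e3 := hf_map L hL ((1 : ℂ), (0 : W)) ((0 : ℂ), w)
    rw [map_one_eq hL h0, hf_smul_left] at e3
    have e4 : hf ((1 : ℂ), (0 : W)) ((0 : ℂ), w) = 0 := by simp [hf]
    rw [e4] at e3
    have e5 : hf ((1 : ℂ), act L (0 : W)) (L ((0 : ℂ), w)) = 0 := by
      rcases mul_eq_zero.1 e3 with h1 | h1
      · exact absurd (by simpa using h1) c0
      · exact h1
    have e6 : (L ((0 : ℂ), w)).1 = inner ℂ (act L (0 : W)) (L ((0 : ℂ), w)).2 := by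
      unfold hf at e5
      rw [map_one, one_mul, sub_eq_zero] at e5
      exact e5
    have e7 : ‖(L ((0 : ℂ), w)).1‖ ≤ ρ * ‖(L ((0 : ℂ), w)).2‖ := by
      rw [e6]
      exact le_trans (norm_inner_le_norm _ _) (mul_le_mul_of_nonneg_right h (norm_nonneg _))
    have e8 : ‖(L ((0 : ℂ), w)).1‖ ^ 2 - ‖(L ((0 : ℂ), w)).2‖ ^ 2 = -‖w‖ ^ 2 := by
      unfold qf at e2
      simpa using e2
    have e9 : ‖(L ((0 : ℂ), w)).1‖ ^ 2 ≤ (ρ * ‖(L ((0 : ℂ), w)).2‖) ^ 2 :=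
      pow_le_pow_left₀ (norm_nonneg _) e7 2
    have e10 : ‖(L ((0 : ℂ), w)).2‖ ≤ ‖w‖ / Real.sqrt (1 - ρ ^ 2) := by
      refine key _ _ (norm_nonneg _) (norm_nonneg _) ?_
      nlinarith
    rw [Prod.norm_def]
    refine max_le (le_trans e7 (le_trans ?_ e10)) e10
    exact mul_le_of_le_one_left (norm_nonneg _) hρ.le
  have e11 : L x = x.1 • L ((1 : ℂ), (0 : W)) + L ((0 : ℂ), x.2) := by
    rw [← map_smul, ← map_add]
    congr 1
    ext <;> simp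
  have n1 : ‖x.1‖ ≤ ‖x‖ := norm_fst_le x
  have n2 : ‖x.2‖ ≤ ‖x‖ := norm_snd_le x
  have i0 : 0 ≤ 1 / Real.sqrt (1 - ρ ^ 2) := by positivity
  calc ‖L x‖ ≤ ‖x.1 • L ((1 : ℂ), (0 : W))‖ + ‖L ((0 : ℂ), x.2)‖ := by
        rw [e11]
        exact norm_add_le _ _
    _ ≤ ‖x‖ * (1 / Real.sqrt (1 - ρ ^ 2)) + ‖x‖ / Real.sqrt (1 - ρ ^ 2) := by
        refine add_le_add ?_ (le_trans (b3 x.2) (div_le_div_of_nonneg_right n2 hs.le))
        rw [norm_smul]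
        exact mul_le_mul n1 b2 (norm_nonneg _) (norm_nonneg _)
    _ = 2 * (‖x‖ / Real.sqrt (1 - ρ ^ 2)) := by ring
    _ ≤ 4 / Real.sqrt (1 - ρ ^ 2) * ‖x‖ := by
        have h1 : 0 ≤ ‖x‖ / Real.sqrt (1 - ρ ^ 2) := by positivity
        have h2 : 4 / Real.sqrt (1 - ρ ^ 2) * ‖x‖ = 4 * (‖x‖ / Real.sqrt (1 - ρ ^ 2)) := by ring
        rw [h2]
        linarith

/-- If `act L x` stays in a compact set for `x` in a compact set, `act L 0` stays in a smaller ball: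
`bd 0 (act L 0) ≤ bd 0 (act L x) + bd (act L x) (act L 0) = bd 0 (act L x) + bd x 0`. -/
theorem act_zero_bound {K K' : Set W} (hK : IsCompact K) (hKb : K ⊆ ball 0 1)
    (hK' : IsCompact K') (hKb' : K' ⊆ ball 0 1) :
    ∃ ρ < (1 : ℝ), ∀ L ∈ UG W, ∀ x ∈ K, act L x ∈ K' → ‖act L 0‖ ≤ ρ := by
  have h0 : (0 : W) ∈ ball (0 : W) 1 := by simp
  have hb : ∀ Q : Set W, IsCompact Q → Q ⊆ ball 0 1 → ∃ C : ℝ, ∀ x ∈ Q, bd 0 x ≤ C := by
    intro Q hQ hQb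
    have h1 : ContinuousOn (fun x : W => bd 0 x) Q := by
      have h2 := bd_continuousOn (V := W)
      exact h2.comp (f := fun x : W => ((0 : W), x)) (by fun_prop)
        fun x hx => ⟨h0, hQb hx⟩
    obtain ⟨C, hC⟩ := hQ.exists_bound_of_continuousOn h1
    exact ⟨C, fun x hx => le_trans (le_abs_self _) (hC x hx)⟩
  obtain ⟨C, hC⟩ := hb K hK hKb
  obtain ⟨C', hC'⟩ := hb K' hK' hKb'
  refine ⟨1 - Real.exp (-2 * (C' + C)), by linarith [Real.exp_pos (-2 * (C' + C))],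
    fun L hL x hx hx' => ?_⟩
  have h1 := bd_tri h0 (act_mem hL (hKb hx)) (act_mem hL h0)
  rw [bd_act hL (hKb hx) h0] at h1
  have h2 := hC x hx
  have h3 := hC' _ hx'
  rw [bd_symm x 0] at h1
  have h4 := (exp_le_one_sub_norm (act_mem hL h0)).1
  have h5 : Real.exp (-2 * (C' + C)) ≤ Real.exp (-2 * bd 0 (act L 0)) :=
    Real.exp_le_exp.2 (by linarith)
  linarith

/-! MODULE cp2 -/

/-- Compactness: a subsequence converges in operator norm to an element of `UG W` (closed bounded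
sets of the finite dimensional space of endomorphisms are compact; the limit preserves `qf`,
so it is injective, hence an equivalence). -/
theorem UG_compact [FiniteDimensional ℂ W] {L : ℕ → (ℂ × W) ≃L[ℂ] (ℂ × W)}
    (hL : ∀ j, L j ∈ UG W) {ρ : ℝ} (hρ : ρ < 1) (h : ∀ j, ‖act (L j) 0‖ ≤ ρ) :
    ∃ L0 ∈ UG W, ∃ φ : ℕ → ℕ, StrictMono φ ∧
      Tendsto (fun j => ((L (φ j)) : (ℂ × W) →L[ℂ] (ℂ × W))) atTop
        (𝓝 (L0 : (ℂ × W) →L[ℂ] (ℂ × W))) := by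
  have : ProperSpace ((ℂ × W) →L[ℂ] (ℂ × W)) :=
    FiniteDimensional.proper ℂ ((ℂ × W) →L[ℂ] (ℂ × W))
  obtain ⟨Q, hQ⟩ : ∃ Q : Set ((ℂ × W) →L[ℂ] (ℂ × W)),
      Q = {M | ‖M‖ ≤ 4 / Real.sqrt (1 - ρ ^ 2)} := ⟨_, rfl⟩
  have hbd : ∀ j, ((L j : (ℂ × W) →L[ℂ] (ℂ × W))) ∈ Q := by
    intro j
    rw [hQ]
    refine ContinuousLinearMap.opNorm_le_bound _ (by positivity) fun x => ?_
    exact norm_bound (hL j) hρ (h j) x
  have hQb : Bornology.IsBounded Q :=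
    isBounded_iff_forall_norm_le.2 ⟨4 / Real.sqrt (1 - ρ ^ 2), fun M hM => by
      rw [hQ] at hM
      exact hM⟩
  obtain ⟨M, -, φ, hφ, hM⟩ := tendsto_subseq_of_bounded hQb hbd
  have hev : ∀ x, Tendsto (fun j => L (φ j) x) atTop (𝓝 (M x)) := by
    intro x
    exact ((isBoundedBilinearMap_apply (𝕜 := ℂ) (E := ℂ × W) (F := ℂ × W)).continuous.tendsto
      (M, x)).comp (hM.prodMk_nhds tendsto_const_nhds)
  have hqc : Continuous (qf : ℂ × W → ℝ) := by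
    unfold qf
    fun_prop
  have hq : ∀ x, qf (M x) = qf x := by
    intro x
    have h1 : Tendsto (fun j => qf (L (φ j) x)) atTop (𝓝 (qf (M x))) :=
      (hqc.tendsto _).comp (hev x)
    have h2 : (fun j => qf (L (φ j) x)) = fun _ => qf x := funext fun j => hL (φ j) x
    rw [h2] at h1
    exact (tendsto_nhds_unique h1 tendsto_const_nhds)
  have hinj : Function.Injective (M : (ℂ × W) →ₗ[ℂ] (ℂ × W)) := by
    rw [← LinearMap.ker_eq_bot, LinearMap.ker_eq_bot']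
    intro x hx
    have hx' : M x = 0 := hx
    have h1 := hq (x + (x.1, -x.2))
    have h2 := hq (x.1, -x.2)
    have h3 := hq x
    rw [map_add, hx', zero_add, h2, qf_add] at h1
    rw [hx'] at h3
    have h4 : qf (0 : ℂ × W) = 0 := by simp [qf]
    rw [h4] at h3
    have h5 : (hf x (x.1, -x.2)).re = ‖x.1‖ ^ 2 + ‖x.2‖ ^ 2 := by
      unfold hf
      simp only [inner_neg_right, sub_neg_eq_add, Complex.add_re]
      congr 1
      · rw [← Complex.normSq_eq_conj_mul_self, Complex.normSq_eq_norm_sq]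
        exact Complex.ofReal_re _
      · rw [inner_self_eq_norm_sq_to_K]
        norm_cast
    have h6 : ‖x.1‖ ^ 2 + ‖x.2‖ ^ 2 = 0 := by rw [← h5]; linarith
    have h7 : ‖x.1‖ = 0 := by nlinarith [sq_nonneg ‖x.1‖, sq_nonneg ‖x.2‖]
    have h8 : ‖x.2‖ = 0 := by nlinarith [sq_nonneg ‖x.1‖, sq_nonneg ‖x.2‖]
    exact Prod.ext (norm_eq_zero.1 h7) (norm_eq_zero.1 h8)
  obtain ⟨L0, hL0⟩ : ∃ L0 : (ℂ × W) ≃L[ℂ] (ℂ × W), (L0 : (ℂ × W) →L[ℂ] (ℂ × W)) = M := by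
    refine ⟨(LinearEquiv.ofInjectiveEndo (M : (ℂ × W) →ₗ[ℂ] (ℂ × W)) hinj).toContinuousLinearEquiv,
      ?_⟩
    exact ContinuousLinearMap.ext fun x => rfl
  refine ⟨L0, fun x => ?_, φ, hφ, ?_⟩
  · have h1 : L0 x = M x := by rw [← hL0]; rfl
    rw [h1, hq]
  · rw [hL0]
    exact hM

/-- Continuity of the action. -/
theorem act_tendsto {L : ℕ → (ℂ × W) ≃L[ℂ] (ℂ × W)} {L0 : (ℂ × W) ≃L[ℂ] (ℂ × W)}
    (hL0 : L0 ∈ UG W)
    (h : Tendsto (fun j => ((L j) : (ℂ × W) →L[ℂ] (ℂ × W))) atTop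
        (𝓝 (L0 : (ℂ × W) →L[ℂ] (ℂ × W)))) {y : ℕ → W} {y0 : W} (hy0 : y0 ∈ ball (0 : W) 1)
    (hy : Tendsto y atTop (𝓝 y0)) : Tendsto (fun j => act (L j) (y j)) atTop (𝓝 (act L0 y0)) := by
  have h1 : Tendsto (fun j => ((1 : ℂ), y j)) atTop (𝓝 ((1 : ℂ), y0)) :=
    tendsto_const_nhds.prodMk_nhds hy
  have h2 : Tendsto (fun j => L j ((1 : ℂ), y j)) atTop (𝓝 (L0 ((1 : ℂ), y0))) :=
    ((isBoundedBilinearMap_apply (𝕜 := ℂ) (E := ℂ × W) (F := ℂ × W)).continuous.tendsto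
      ((L0 : (ℂ × W) →L[ℂ] (ℂ × W)), ((1 : ℂ), y0))).comp (h.prodMk_nhds h1)
  have h3 : Tendsto (fun j => (L j ((1 : ℂ), y j)).1) atTop (𝓝 (L0 ((1 : ℂ), y0)).1) :=
    (continuous_fst.tendsto _).comp h2
  have h4 : Tendsto (fun j => (L j ((1 : ℂ), y j)).2) atTop (𝓝 (L0 ((1 : ℂ), y0)).2) :=
    (continuous_snd.tendsto _).comp h2
  exact (h3.inv₀ (fst_ne_zero hL0 hy0)).smul h4

end Pool.Agent.BdReg
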