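import Pool.Agent.MP_071e05_an.Ball

/-!
Bergman distance of the unit ball of a complex inner product space, equivariant holomorphic maps
between balls, the deficit along rays.  (`Yf a b = |1-<a,b>|^2/((1-|a|^2)(1-|b|^2)) = cosh^2 d(a,b)`.)
-/

set_option autoImplicit false

open Metric Set Filter Topology ComplexConjugate

namespace Pool.Agent.BdReg

open Pool.Agent.BallCurve

variable {V W : Type*} [NormedAddCommGroup V] [InnerProductSpace ℂ V]
  [NormedAddCommGroup W] [InnerProductSpace ℂ W]

/-- `qd a b = cosh (d (a, b))`. -/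
noncomputable def qd (a b : V) : ℝ := Real.sqrt (Yf a b)

/-- `ex a b = exp (d (a, b))`. -/
noncomputable def ex (a b : V) : ℝ := qd a b + Real.sqrt (qd a b ^ 2 - 1)

/-- The Bergman distance `d (a, b)`. -/
noncomputable def bd (a b : V) : ℝ := Real.log (ex a b)

/-- The complex line through `a` and `b` (for `a ≠ b`). -/
def cline (a b : V) : Set V := {x | ∃ c : ℂ, x = a + c • (b - a)}

/-- Holomorphic maps between balls which are equivariant with respect to a cocompact family of
pairs of automorphisms. -/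
structure Eqv (f : V → W) : Prop where
  maps : MapsTo f (ball 0 1) (ball 0 1)
  hol : DifferentiableOn ℂ f (ball 0 1)
  coc : ∃ K : Set V, IsCompact K ∧ K ⊆ ball 0 1 ∧ ∀ x ∈ ball (0 : V) 1, ∃ ψ ∈ UG V, ∃ L ∈ UG W,
    ∃ k ∈ K, act ψ k = x ∧ ∀ z ∈ ball (0 : V) 1, f (act ψ z) = act L (f z)

/-- The image of `f` lies in a complex affine subspace of dimension at most `dim V`. -/
def Lin (f : V → W) : Prop :=
  ∃ S : Submodule ℂ (ℂ × W), Module.finrank ℂ S ≤ Module.finrank ℂ V + 1 ∧
    ∀ z ∈ ball (0 : V) 1, ((1 : ℂ), f z) ∈ S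

/-- The point at distance `s` from `0` on the ray with direction `ζ`. -/
noncomputable def ray (ζ : V) (s : ℝ) : V := ((Real.tanh s : ℝ) : ℂ) • ζ

/-- The deficit of `f` on the segment `[s, s+1]` of the ray with direction `ζ`. -/
noncomputable def Df (f : V → W) (ζ : V) (s : ℝ) : ℝ := 1 - bd (f (ray ζ s)) (f (ray ζ (s + 1)))

end Pool.Agent.BdReg
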