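import Pool.Agent.BdReg.SP
import Pool.Agent.BdReg.Cpt

/-! A boundary point of differentiability. -/

set_option autoImplicit false

open Metric Set Filter Topology ComplexConjugate

namespace Pool.Agent.BdReg

open Pool.Agent.BallCurve

variable {V W : Type*} [NormedAddCommGroup V] [InnerProductSpace ℂ V]
  [NormedAddCommGroup W] [InnerProductSpace ℂ W]

/-! MODULE df1 -/

/-- Points at bounded distance from `r ζ`.  Put `A = ‖1 - r <ζ,z>‖`.  Then `A² ≤ C (1-|z|²)(1-r²) ≤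
4 C (1-|z|)(1-r)` and `1-|z| ≤ ‖1-<ζ,z>‖ ≤ A + (1-r)`; hence `A ≤ (4C+1)(1-r)`; and
`‖z-ζ‖² = 2 Re (1-<ζ,z>) - (1-|z|²)`. -/
theorem near_of_Yf {ζ z : V} (hζ : ‖ζ‖ = 1) (hz : z ∈ ball (0 : V) 1) {r C : ℝ} (hr : 0 ≤ r)
    (hr1 : r < 1) (hC : 1 ≤ C) (h : Yf z ((r : ℂ) • ζ) ≤ C) :
    ‖1 - inner ℂ ζ z‖ ≤ (4 * C + 2) * (1 - r) ∧ ‖z - ζ‖ ^ 2 ≤ 2 * (4 * C + 2) * (1 - r) := by
  have hzn : ‖z‖ < 1 := by simpa using hz
  have hz0 := norm_nonneg z
  obtain ⟨A, hA⟩ : ∃ A : ℝ, A = ‖1 - (r : ℂ) * inner ℂ ζ z‖ := ⟨_, rfl⟩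
  have hA0 : 0 ≤ A := by rw [hA]; exact norm_nonneg _
  have e1 : ‖1 - inner ℂ z ((r : ℂ) • ζ)‖ = A := by
    rw [inner_smul_right, hA, ← RCLike.norm_conj]
    congr 1
    rw [map_sub, map_one, map_mul, Complex.conj_ofReal, inner_conj_symm]
  have e2 : ‖((r : ℂ) • ζ)‖ = r := by
    rw [norm_smul, hζ, mul_one, Complex.norm_real, Real.norm_of_nonneg hr]
  have e3 : A ^ 2 ≤ C * ((1 - ‖z‖ ^ 2) * (1 - r ^ 2)) := by
    unfold Yf at h
    rw [e1, e2, div_le_iff₀ (by nlinarith [mul_pos (sub_pos.2 hzn) (sub_pos.2 hr1)])] at h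
    · exact h
  have e4 : ‖(inner ℂ ζ z : ℂ)‖ ≤ ‖z‖ := by
    have := norm_inner_le_norm (𝕜 := ℂ) ζ z
    rwa [hζ, one_mul] at this
  have e5 : ‖1 - inner ℂ ζ z‖ ≤ A + (1 - r) := by
    have h1 : (1 : ℂ) - inner ℂ ζ z = (1 - (r : ℂ) * inner ℂ ζ z) -
        ((1 - r : ℝ) : ℂ) * inner ℂ ζ z := by
      push_cast
      ring
    rw [h1]
    refine le_trans (norm_sub_le _ _) ?_
    rw [← hA, norm_mul, Complex.norm_real, Real.norm_of_nonneg (by linarith)]
    have h2 : (1 - r) * ‖(inner ℂ ζ z : ℂ)‖ ≤ (1 - r) * 1 :=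
      mul_le_mul_of_nonneg_left (e4.trans hzn.le) (by linarith)
    linarith
  have e6 : 1 - ‖z‖ ≤ ‖1 - inner ℂ ζ z‖ := by
    have h1 := norm_sub_norm_le (1 : ℂ) (inner ℂ ζ z)
    rw [norm_one] at h1
    linarith
  have e7 : A ≤ (4 * C + 1) * (1 - r) := by
    by_contra hc
    push Not at hc
    have t0 : 0 < 1 - r := by linarith
    have i1 : (1 - ‖z‖ ^ 2) * (1 - r ^ 2) ≤ 4 * ((1 - ‖z‖) * (1 - r)) := by
      have j1 : 1 - ‖z‖ ^ 2 ≤ 2 * (1 - ‖z‖) := by nlinarith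
      have j2 : 1 - r ^ 2 ≤ 2 * (1 - r) := by nlinarith
      calc _ ≤ (2 * (1 - ‖z‖)) * (2 * (1 - r)) :=
            mul_le_mul j1 j2 (by nlinarith) (by linarith)
        _ = _ := by ring
    have i2 : A ^ 2 ≤ C * (4 * ((A + (1 - r)) * (1 - r))) := by
      refine le_trans e3 (mul_le_mul_of_nonneg_left (le_trans i1 ?_) (by linarith))
      have : (1 - ‖z‖) * (1 - r) ≤ (A + (1 - r)) * (1 - r) :=
        mul_le_mul_of_nonneg_right (by linarith) t0.le
      linarith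
    have i3 : (4 * C + 1) * (1 - r) * A < A * A :=
      mul_lt_mul_of_pos_right hc (lt_of_le_of_lt (by positivity) hc)
    have i4 : (4 * C + 1) * (1 - r) * (1 - r) < A * (1 - r) := mul_lt_mul_of_pos_right hc t0
    nlinarith
  have e8 : ‖1 - inner ℂ ζ z‖ ≤ (4 * C + 2) * (1 - r) := by
    refine le_trans e5 ?_
    linarith
  refine ⟨e8, ?_⟩
  have e9 : ‖z - ζ‖ ^ 2 = 2 * (1 - inner ℂ ζ z : ℂ).re - (1 - ‖z‖ ^ 2) := by
    have h1 := @norm_sub_sq ℂ V _ _ _ ζ z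
    rw [norm_sub_rev, h1, hζ]
    simp only [Complex.sub_re, Complex.one_re, RCLike.re_to_complex]
    ring
  have e10 : (1 - inner ℂ ζ z : ℂ).re ≤ ‖1 - inner ℂ ζ z‖ := Complex.re_le_norm _
  nlinarith

/-- Lower Schwarz bound: `1-‖f z‖ ≥ e^(-2 d(0, f z))`, `d(0, f z) ≤ d(0, f 0) + d(0, z)`,
`1-‖z‖ ≤ 2 e^(-2 d(0,z))` (`exp_le_one_sub_norm`, `bd_tri`, `sp`). -/
theorem one_sub_norm_ge {f : V → W} (hm : MapsTo f (ball 0 1) (ball 0 1))
    (hd : DifferentiableOn ℂ f (ball 0 1)) :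
    ∃ c > (0 : ℝ), ∀ z ∈ ball (0 : V) 1, c * (1 - ‖z‖) ≤ 1 - ‖f z‖ := by
  have h0 : (0 : V) ∈ ball (0 : V) 1 := by simp
  have h0' : (0 : W) ∈ ball (0 : W) 1 := by simp
  refine ⟨Real.exp (-2 * bd 0 (f 0)) / 2, by positivity, fun z hz => ?_⟩
  have h1 := (exp_le_one_sub_norm (hm hz)).1
  have h2 := (exp_le_one_sub_norm hz).2
  have h3 := bd_tri h0' (hm h0) (hm hz)
  have h4 := sp hm hd h0 hz
  calc Real.exp (-2 * bd 0 (f 0)) / 2 * (1 - ‖z‖)
      ≤ Real.exp (-2 * bd 0 (f 0)) / 2 * (2 * Real.exp (-2 * bd 0 z)) :=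
        mul_le_mul_of_nonneg_left h2 (by positivity)
    _ = Real.exp (-2 * bd 0 (f 0) + -2 * bd 0 z) := by
        rw [Real.exp_add]
        ring
    _ ≤ Real.exp (-2 * bd 0 (f z)) := Real.exp_le_exp.2 (by linarith)
    _ ≤ 1 - ‖f z‖ := h1

/-! MODULE df2 -/

theorem smul_mem_ball' {η : W} (hη : ‖η‖ = 1) {r : ℝ} (hr : 0 ≤ r) (hr1 : r < 1) :
    (r : ℂ) • η ∈ ball (0 : W) 1 := by
  rw [mem_ball_zero_iff, norm_smul, hη, mul_one, Complex.norm_real, Real.norm_of_nonneg hr]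
  exact hr1

/-- Explicit form of the translation `boost (r η)` in the basis `(1,η), (1,-η), (0,h)`:
for `v : W` (`s = √(1-r²)`, `a = <η,v>`):
`(1, v) = (1+a)/2 • (1,η) + (1-a)/2 • (1,-η) + (0, v - a η)` and `boost` multiplies the three vectors by
`(1-r)/s`, `(1+r)/s`, `1`.  Stated for the coefficient of `(1,η)`, i.e. `(x.1 + <η,x.2>)/2`, and for
the component orthogonal to `η`. -/
theorem boost_coeff {η : W} (hη : ‖η‖ = 1) {r : ℝ} (hr : 0 ≤ r) (hr1 : r < 1) (x : ℂ × W) :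
    (boost ((r : ℂ) • η) (smul_mem_ball' hη hr hr1) x).1 +
      inner ℂ η (boost ((r : ℂ) • η) (smul_mem_ball' hη hr hr1) x).2 =
      (((1 - r) / Real.sqrt (1 - r ^ 2) : ℝ) : ℂ) * (x.1 + inner ℂ η x.2) := by
  have h1 : boost ((r : ℂ) • η) (smul_mem_ball' hη hr hr1) x = boostL ((r : ℂ) • η) x := rfl
  have h2 : ‖((r : ℂ) • η)‖ = r := by
    rw [norm_smul, hη, mul_one, Complex.norm_real, Real.norm_of_nonneg hr]
  have hs2 : 0 < 1 - r ^ 2 := by nlinarith
  obtain ⟨s, hs⟩ : ∃ s : ℝ, s = Real.sqrt (1 - r ^ 2) := ⟨_, rfl⟩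
  have hs0 : 0 < s := by rw [hs]; exact Real.sqrt_pos.2 hs2
  have hsq : s ^ 2 = 1 - r ^ 2 := by rw [hs]; exact Real.sq_sqrt hs2.le
  have hsc : (s : ℂ) ≠ 0 := by exact_mod_cast hs0.ne'
  have hs1 : (1 + (s : ℂ)) ≠ 0 := by
    have : (1 + s : ℝ) ≠ 0 := by positivity
    exact_mod_cast this
  have hsqc : (s : ℂ) ^ 2 = 1 - (r : ℂ) ^ 2 := by exact_mod_cast hsq
  have hηη : (inner ℂ η η : ℂ) = 1 := by
    rw [inner_self_eq_norm_sq_to_K, hη]
    norm_num
  rw [h1]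
  unfold boostL
  simp only [LinearMap.coe_mk, AddHom.coe_mk, h2, ← hs, inner_sub_right, inner_add_right,
    inner_smul_right, inner_smul_left, Complex.conj_ofReal, hηη]
  push_cast
  field_simp
  linear_combination (inner ℂ η x.2 : ℂ) * hsqc

theorem boost_perp {η : W} (hη : ‖η‖ = 1) {r : ℝ} (hr : 0 ≤ r) (hr1 : r < 1) (x : ℂ × W) :
    (boost ((r : ℂ) • η) (smul_mem_ball' hη hr hr1) x).2 -
      inner ℂ η (boost ((r : ℂ) • η) (smul_mem_ball' hη hr hr1) x).2 • η =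
      x.2 - inner ℂ η x.2 • η := by
  have h1 : boost ((r : ℂ) • η) (smul_mem_ball' hη hr hr1) x = boostL ((r : ℂ) • η) x := rfl
  have hηη : (inner ℂ η η : ℂ) = 1 := by
    rw [inner_self_eq_norm_sq_to_K, hη]
    norm_num
  rw [h1]
  unfold boostL
  simp only [LinearMap.coe_mk, AddHom.coe_mk, inner_sub_right, inner_add_right,
    inner_smul_right, hηη]
  module

/-- The projection of `ℂ × W` to the orthogonal complement of `η` in `W`. -/
noncomputable def prj (η : W) : (ℂ × W) →L[ℂ] W :=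
  ContinuousLinearMap.snd ℂ ℂ W -
    ((innerSL ℂ η).comp (ContinuousLinearMap.snd ℂ ℂ W)).smulRight η

theorem prj_apply (η : W) (x : ℂ × W) : prj η x = x.2 - inner ℂ η x.2 • η := by
  rfl

/-- The kernel of `prj η` is spanned by `(1,0), (0,η)`; `finrank (comap) ≤ finrank ker + finrank F`. -/
theorem finrank_comap_prj [FiniteDimensional ℂ W] (η : W) (F : Submodule ℂ W) :
    Module.finrank ℂ (F.comap (prj η : (ℂ × W) →ₗ[ℂ] W)) ≤ 2 + Module.finrank ℂ F := by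
  obtain ⟨g, hg⟩ : ∃ g : (ℂ × W) →ₗ[ℂ] W, g = (prj η : (ℂ × W) →ₗ[ℂ] W) := ⟨_, rfl⟩
  rw [← hg]
  have hga : ∀ x, g x = x.2 - inner ℂ η x.2 • η := fun x => by
    rw [hg]
    exact prj_apply η x
  -- the kernel
  have hk : Module.finrank ℂ (LinearMap.ker g) ≤ 2 := by
    have h1 : LinearMap.ker g ≤ Submodule.span ℂ (Set.range
        (![((1 : ℂ), (0 : W)), ((0 : ℂ), η)] : Fin 2 → ℂ × W)) := by
      intro x hx
      have h2 : g x = 0 := hx
      rw [hga, sub_eq_zero] at h2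
      have h3 : x = x.1 • ((1 : ℂ), (0 : W)) + (inner ℂ η x.2 : ℂ) • ((0 : ℂ), η) := by
        refine Prod.ext ?_ ?_
        · simp
        · simpa using h2
      rw [h3]
      refine Submodule.add_mem _ (Submodule.smul_mem _ _ (Submodule.subset_span ?_))
        (Submodule.smul_mem _ _ (Submodule.subset_span ?_))
      · exact ⟨0, rfl⟩
      · exact ⟨1, rfl⟩
    refine le_trans (Submodule.finrank_mono h1) (le_trans (finrank_range_le_card _) ?_)
    simp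
  have h1 := LinearMap.finrank_range_add_finrank_ker (g.domRestrict (F.comap g))
  have h2 : Module.finrank ℂ (LinearMap.range (g.domRestrict (F.comap g))) ≤
      Module.finrank ℂ F := by
    refine Submodule.finrank_mono ?_
    rintro _ ⟨x, rfl⟩
    exact x.2
  have h3 : Module.finrank ℂ (LinearMap.ker (g.domRestrict (F.comap g))) ≤
      Module.finrank ℂ (LinearMap.ker g) := by
    have h4 : Submodule.map (F.comap g).subtype (LinearMap.ker (g.domRestrict (F.comap g))) ≤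
        LinearMap.ker g := by
      rintro _ ⟨x, hx, rfl⟩
      exact hx
    have h5 := Submodule.finrank_mono h4
    rwa [Submodule.finrank_map_subtype_eq] at h5
  omega

/-- `ζ^⊥` has dimension `n - 1`; the image under a linear map has at most this dimension. -/
theorem finrank_map_perp [FiniteDimensional ℂ V] {ζ : V} (hζ : ζ ≠ 0) (B : V →ₗ[ℂ] W) :
    Module.finrank ℂ (Submodule.map B (ℂ ∙ ζ)ᗮ) + 1 ≤ Module.finrank ℂ V := by
  have h1 := Submodule.finrank_add_finrank_orthogonal (ℂ ∙ ζ)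
  rw [finrank_span_singleton hζ] at h1
  have h2 := Submodule.finrank_map_le B (ℂ ∙ ζ)ᗮ
  omega

/-! MODULE df3 -/

/-- The maps `c_j = boost (r_j η) * L_j` stay in a compact set.  `x_j = r_j ζ`, `x_j = act ψ_j k_j`,
`act (boost (r_j η) * L_j) (f k_j) = act (boost (r_j η)) (f (r_j ζ))`, and
`Yf 0 (act (boost (rη)) p) = Yf (rη) p ≤ const` for `p = f (r ζ)`, because
`|1 - r<η,p>| ≤ (1-r) + ‖η - p‖ ≤ C (1-r)` and `1-|p| ≥ c (1-r)` (`one_sub_norm_ge`). -/
theorem cj_bounded [FiniteDimensional ℂ V] [FiniteDimensional ℂ W] {f : V → W} (hf : Eqv f)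
    {ζ : V} (hζ : ‖ζ‖ = 1) {η : W} (hη : ‖η‖ = 1) {C0 : ℝ}
    (h : ∀ᶠ r : ℝ in 𝓝[<] (1 : ℝ), ‖f ((r : ℂ) • ζ) - η‖ ≤ C0 * (1 - r))
    {K : Set V} (hK : IsCompact K) (hKb : K ⊆ ball 0 1) :
    ∃ ρ < (1 : ℝ), ∃ r0 < (1 : ℝ), 0 ≤ r0 ∧ ∀ r : ℝ, r0 ≤ r → ∀ (hr : 0 ≤ r) (hr1 : r < 1),
      ∀ ψ ∈ UG V, ∀ L ∈ UG W, ∀ k ∈ K, act ψ k = (r : ℂ) • ζ →
      (∀ z ∈ ball (0 : V) 1, f (act ψ z) = act L (f z)) →
      ‖act (boost ((r : ℂ) • η) (smul_mem_ball' hη hr hr1) * L) 0‖ ≤ ρ := by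
  obtain ⟨c, hc, hcb⟩ := one_sub_norm_ge hf.maps hf.hol
  -- the interval
  obtain ⟨r1, hr1', hI⟩ : ∃ r1 < (1 : ℝ), ∀ r : ℝ, r1 < r → r < 1 →
      ‖f ((r : ℂ) • ζ) - η‖ ≤ C0 * (1 - r) := by
    obtain ⟨l, hl, hl2⟩ := (mem_nhdsLT_iff_exists_Ioo_subset (a := (1 : ℝ))).1 h
    exact ⟨l, hl, fun r h1 h2 => hl2 ⟨h1, h2⟩⟩
  obtain ⟨M, hM⟩ : ∃ M : ℝ, M = (1 + C0) ^ 2 / c := ⟨_, rfl⟩
  obtain ⟨R, hR⟩ : ∃ R : ℝ, R = Real.sqrt (1 - 1 / (M + 1)) := ⟨_, rfl⟩
  have hM0 : 0 ≤ M := by rw [hM]; positivity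
  have hR1 : R < 1 := by
    rw [hR, Real.sqrt_lt' one_pos]
    have : 0 < 1 / (M + 1) := by positivity
    linarith
  have hR0 : 0 ≤ R := by rw [hR]; exact Real.sqrt_nonneg _
  have hR2 : R ^ 2 = 1 - 1 / (M + 1) := by
    rw [hR, Real.sq_sqrt]
    have : 1 / (M + 1) ≤ 1 := by rw [div_le_one (by linarith)]; linarith
    linarith
  have : ProperSpace W := FiniteDimensional.proper ℂ W
  have hfK : IsCompact (f '' K) := hK.image_of_continuousOn (hf.hol.continuousOn.mono hKb)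
  have hfKb : f '' K ⊆ ball 0 1 := by
    rintro _ ⟨k, hk, rfl⟩
    exact hf.maps (hKb hk)
  have hB : closedBall (0 : W) R ⊆ ball 0 1 := closedBall_subset_ball hR1
  obtain ⟨ρ, hρ, hρb⟩ := act_zero_bound hfK hfKb (isCompact_closedBall (0 : W) R) hB
  refine ⟨ρ, hρ, max ((1 + r1) / 2) 0, max_lt (by linarith) one_pos, le_max_right _ _, ?_⟩
  intro r hrr hr hr1 ψ hψ L hL k hk hk1 he
  have hrr1 : r1 < r := by
    have := (le_max_left ((1 + r1) / 2) 0).trans hrr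
    linarith
  have hbm := boost_mem (smul_mem_ball' hη hr hr1)
  have hz : ((r : ℂ) • ζ) ∈ ball (0 : V) 1 := smul_mem_ball' hζ hr hr1
  refine hρb _ ((UG W).mul_mem hbm hL) (f k) ⟨k, hk, rfl⟩ ?_
  rw [act_mul hbm hL (hf.maps (hKb hk)), ← he k (hKb hk), hk1]
  have hp : f ((r : ℂ) • ζ) ∈ ball (0 : W) 1 := hf.maps hz
  have h1 := Yf_act hbm (smul_mem_ball' hη hr hr1) hp
  rw [act_boost] at h1
  have hq : act (boost ((r : ℂ) • η) (smul_mem_ball' hη hr hr1)) (f ((r : ℂ) • ζ)) ∈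
      ball (0 : W) 1 := act_mem hbm hp
  obtain ⟨q, hqe⟩ : ∃ q, q = act (boost ((r : ℂ) • η) (smul_mem_ball' hη hr hr1))
    (f ((r : ℂ) • ζ)) := ⟨_, rfl⟩
  obtain ⟨w, hwe⟩ : ∃ w, w = f ((r : ℂ) • ζ) := ⟨_, rfl⟩
  rw [← hqe] at hq ⊢
  rw [← hqe, ← hwe] at h1
  have hqn : ‖q‖ < 1 := by simpa using hq
  have hwn : ‖w‖ < 1 := by rw [hwe]; simpa using hp
  have e2 : ‖((r : ℂ) • η)‖ = r := by
    rw [norm_smul, hη, mul_one, Complex.norm_real, Real.norm_of_nonneg hr]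
  have hηη : (inner ℂ η η : ℂ) = 1 := by
    rw [inner_self_eq_norm_sq_to_K, hη]
    norm_num
  have t0 : 0 < 1 - r := by linarith
  have e3 : ‖1 - inner ℂ ((r : ℂ) • η) w‖ ≤ (1 + C0) * (1 - r) := by
    have g1 : (1 : ℂ) - inner ℂ ((r : ℂ) • η) w = ((1 - r : ℝ) : ℂ) -
        (r : ℂ) * inner ℂ η (w - η) := by
      rw [inner_smul_left, Complex.conj_ofReal, inner_sub_right, hηη]
      push_cast
      ring
    rw [g1]
    refine le_trans (norm_sub_le _ _) ?_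
    rw [norm_mul, Complex.norm_real, Complex.norm_real, Real.norm_of_nonneg t0.le,
      Real.norm_of_nonneg hr]
    have g2 : ‖(inner ℂ η (w - η) : ℂ)‖ ≤ C0 * (1 - r) := by
      refine le_trans (norm_inner_le_norm _ _) ?_
      rw [hη, one_mul, hwe]
      exact hI r hrr1 hr1
    have g3 : r * ‖(inner ℂ η (w - η) : ℂ)‖ ≤ 1 * ‖(inner ℂ η (w - η) : ℂ)‖ :=
      mul_le_mul_of_nonneg_right hr1.le (norm_nonneg _)
    linarith
  have e4 : c * (1 - r) ≤ 1 - ‖w‖ := by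
    have g1 := hcb _ hz
    have g2 : ‖((r : ℂ) • ζ)‖ = r := by
      rw [norm_smul, hζ, mul_one, Complex.norm_real, Real.norm_of_nonneg hr]
    rw [g2, ← hwe] at g1
    exact g1
  have e5 : Yf ((r : ℂ) • η) w ≤ M := by
    unfold Yf
    rw [e2, hM]
    have g1 : (1 - r) * (c * (1 - r)) ≤ (1 - r ^ 2) * (1 - ‖w‖ ^ 2) := by
      refine mul_le_mul (by nlinarith) ?_ (by positivity) (by nlinarith)
      nlinarith [norm_nonneg w]
    have g2 : 0 < (1 - r) * (c * (1 - r)) := by positivity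
    rw [div_le_div_iff₀ (lt_of_lt_of_le g2 g1) hc]
    have g3 : ‖1 - inner ℂ ((r : ℂ) • η) w‖ ^ 2 ≤ ((1 + C0) * (1 - r)) ^ 2 :=
      pow_le_pow_left₀ (norm_nonneg _) e3 2
    calc ‖1 - inner ℂ ((r : ℂ) • η) w‖ ^ 2 * c ≤ ((1 + C0) * (1 - r)) ^ 2 * c :=
          mul_le_mul_of_nonneg_right g3 hc.le
      _ = (1 + C0) ^ 2 * ((1 - r) * (c * (1 - r))) := by ring
      _ ≤ _ := mul_le_mul_of_nonneg_left g1 (sq_nonneg _)
  rw [← h1] at e5
  rw [mem_closedBall_zero_iff]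
  unfold Yf at e5
  rw [inner_zero_left, norm_zero, sub_zero, norm_one] at e5
  have e6 : 0 < 1 - ‖q‖ ^ 2 := by nlinarith [norm_nonneg q]
  rw [one_pow, show (1 - (0 : ℝ) ^ 2) * (1 - ‖q‖ ^ 2) = 1 - ‖q‖ ^ 2 by ring,
    div_le_iff₀ e6] at e5
  have e7 : 1 / (M + 1) ≤ 1 - ‖q‖ ^ 2 := by
    rw [div_le_iff₀ (by linarith)]
    nlinarith
  have e8 : ‖q‖ ^ 2 ≤ R ^ 2 := by rw [hR2]; linarith
  exact (pow_le_pow_iff_left₀ (norm_nonneg _) hR0 two_ne_zero).1 e8

/-! MODULE df4 -/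

/-- Theorem (1).  Take `r_j → 1`, `K` from `hf.coc`, `ψ_j, L_j, k_j` for `x = r_j ζ`;
`c_j = boost (r_j η) * L_j`; `cj_bounded` and `UG_compact`: `c_j → c` on a subsequence.
Let `x ∈ ball`, `z_j = act ψ_j x`, `f z_j = act L_j (f x)`, `c_j (1, f x) = μ_j • boost (r_j η) (1, f z_j)`,
`μ_j = (L_j (1, f x)).1` (`map_one_eq`).  `Yf z_j (r_j ζ) = Yf x k_j ≤ C`: `near_of_Yf` gives, with
`t_j = √(1-r_j)`: `‖1-<ζ,z_j>‖ = O(t_j²)`, `‖z_j-ζ‖ = O(t_j)`.  By `boost_coeff` the sum of the first coordinate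
and `<η, second>` of `c_j (1, f x)` is `μ_j (1-r_j)/√(1-r_j²) (1 + <η,f z_j>)`; it is bounded and
`1 + <η,f z_j> → 2`, so `|μ_j| t_j` is bounded.  By `boost_perp`
`prj η (c_j (1, f x)) = μ_j prj η (1, f z_j)`, and `prj η (1, f z_j) = pr (f z_j - η) =
pr A (z_j-ζ) + o(t_j) = pr A y_j + o(t_j)`, `y_j = z_j - <ζ,z_j> ζ ∈ ζ^⊥`.  So the distance of
`prj η (c_j (1, f x))` to the subspace `F = pr A (ζ^⊥)` tends to `0`, and `prj η (c (1, f x)) ∈ F`.
So `(1, f x) ∈ c⁻¹ (comap (prj η) F)`, of dimension `≤ 2 + (n-1)`. -/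

theorem lin_of_diff [FiniteDimensional ℂ V] [FiniteDimensional ℂ W] {f : V → W} (hf : Eqv f)
    {ζ : V} (hζ : ‖ζ‖ = 1) {η : W} (hη : ‖η‖ = 1) {A : V →L[ℂ] W}
    (h : (fun z => f z - η - A (z - ζ)) =o[𝓝[ball 0 1] ζ] (fun z => z - ζ)) : Lin f := by
  obtain ⟨K, hK, hKb, hcoc⟩ := hf.coc
  -- radial Lipschitz bound
  have hrad : ∀ᶠ r : ℝ in 𝓝[<] (1 : ℝ), ‖f ((r : ℂ) • ζ) - η‖ ≤ (‖A‖ + 1) * (1 - r) := by
    have h1 : Tendsto (fun r : ℝ => (r : ℂ) • ζ) (𝓝[<] (1 : ℝ)) (𝓝[ball 0 1] ζ) := by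
      apply tendsto_nhdsWithin_iff.mpr
      refine ⟨?_, ?_⟩
      · have : Tendsto (fun r : ℝ => (r : ℂ) • ζ) (𝓝 (1 : ℝ)) (𝓝 (((1 : ℝ) : ℂ) • ζ)) :=
          (Complex.continuous_ofReal.tendsto 1).smul_const ζ
        rw [Complex.ofReal_one, one_smul] at this
        exact this.mono_left nhdsWithin_le_nhds
      · filter_upwards [Ioo_mem_nhdsLT (zero_lt_one (α := ℝ))] with r hr
        rw [mem_ball_zero_iff, norm_smul, hζ, mul_one, Complex.norm_real, Real.norm_eq_abs,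
          abs_of_pos hr.1]
        exact hr.2
    have h2 := (h.comp_tendsto h1).bound (zero_lt_one (α := ℝ))
    filter_upwards [h2, Ioo_mem_nhdsLT (zero_lt_one (α := ℝ))] with r hr1 hr2
    have hn : ‖(r : ℂ) • ζ - ζ‖ = 1 - r := by
      have : (r : ℂ) • ζ - ζ = ((r - 1 : ℝ) : ℂ) • ζ := by push_cast; module
      rw [this, norm_smul, hζ, mul_one, Complex.norm_real, Real.norm_eq_abs,
        abs_of_neg (by linarith [hr2.2])]
      ring
    simp only [Function.comp] at hr1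
    rw [hn, one_mul] at hr1
    have h3 : ‖A ((r : ℂ) • ζ - ζ)‖ ≤ ‖A‖ * (1 - r) := by
      rw [← hn]; exact A.le_opNorm _
    calc ‖f ((r : ℂ) • ζ) - η‖ = ‖(f ((r : ℂ) • ζ) - η - A ((r : ℂ) • ζ - ζ)) + A ((r : ℂ) • ζ - ζ)‖ := by
          congr 1; abel
      _ ≤ (1 - r) + ‖A‖ * (1 - r) := (norm_add_le _ _).trans (add_le_add hr1 h3)
      _ = (‖A‖ + 1) * (1 - r) := by ring
  obtain ⟨ρ, hρ, r0, hr01, hr00, hbd⟩ := cj_bounded hf hζ hη hrad hK hKb
  -- the sequence of radii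
  set r : ℕ → ℝ := fun j => max r0 (1 - 1 / ((j : ℝ) + 2)) with hrdef
  have hr0 : ∀ j, 0 ≤ r j := fun j => hr00.trans (le_max_left _ _)
  have hr1 : ∀ j, r j < 1 := fun j => max_lt hr01 (by
    have : (0 : ℝ) < 1 / ((j : ℝ) + 2) := by positivity
    linarith)
  have hrt : Tendsto r atTop (𝓝 1) := by
    have h1 : Tendsto (fun j : ℕ => 1 - 1 / ((j : ℝ) + 2)) atTop (𝓝 (1 - 0)) := by
      apply Tendsto.const_sub
      have := tendsto_one_div_add_atTop_nhds_zero_nat (𝕜 := ℝ)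
      have h2 := (tendsto_add_atTop_iff_nat 1).mpr this
      refine h2.congr fun j => ?_
      push_cast; ring_nf
    rw [sub_zero] at h1
    have h2 : Tendsto r atTop (𝓝 (max r0 1)) := tendsto_const_nhds.max h1
    rwa [max_eq_right hr01.le] at h2
  have hx : ∀ j, ((r j : ℝ) : ℂ) • ζ ∈ ball (0 : V) 1 := fun j =>
    smul_mem_ball' hζ (hr0 j) (hr1 j)
  choose ψ hψ L hL k hk hψk hfe using fun j => hcoc _ (hx j)
  set c : ℕ → (ℂ × W) ≃L[ℂ] (ℂ × W) := fun j =>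
    boost (((r j : ℝ) : ℂ) • η) (smul_mem_ball' hη (hr0 j) (hr1 j)) * L j with hcdef
  have hcU : ∀ j, c j ∈ UG W := fun j => (UG W).mul_mem (boost_mem _) (hL j)
  have hc0 : ∀ j, ‖act (c j) 0‖ ≤ ρ := fun j =>
    hbd (r j) (le_max_left _ _) (hr0 j) (hr1 j) (ψ j) (hψ j) (L j) (hL j) (k j) (hk j)
      (hψk j) (hfe j)
  obtain ⟨c0, hc0U, φ, hφ, hlim⟩ := UG_compact hcU hρ hc0
  -- the subspace
  set B : V →ₗ[ℂ] W := ((prj η : (ℂ × W) →ₗ[ℂ] W).comp (LinearMap.inr ℂ ℂ W)).comp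
    (A : V →ₗ[ℂ] W) with hB
  set F : Submodule ℂ W := Submodule.map B (ℂ ∙ ζ)ᗮ with hF
  have hζ0 : ζ ≠ 0 := by
    intro h0; rw [h0, norm_zero] at hζ; exact zero_ne_one hζ
  refine ⟨(F.comap (prj η : (ℂ × W) →ₗ[ℂ] W)).comap (c0 : (ℂ × W) →ₗ[ℂ] (ℂ × W)), ?_, ?_⟩
  · have h1 := finrank_comap_prj η F
    have h2 := finrank_map_perp hζ0 B
    have h3 : Module.finrank ℂ ((F.comap (prj η : (ℂ × W) →ₗ[ℂ] W)).comap
        (c0 : (ℂ × W) →ₗ[ℂ] (ℂ × W))) = Module.finrank ℂ (F.comap (prj η : (ℂ × W) →ₗ[ℂ] W)) := by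
      have h4 : (F.comap (prj η : (ℂ × W) →ₗ[ℂ] W)).comap (c0 : (ℂ × W) →ₗ[ℂ] (ℂ × W)) =
          (F.comap (prj η : (ℂ × W) →ₗ[ℂ] W)).map
            (c0.toLinearEquiv.symm : (ℂ × W) →ₗ[ℂ] (ℂ × W)) :=
        Submodule.comap_equiv_eq_map_symm c0.toLinearEquiv _
      rw [h4]
      exact LinearEquiv.finrank_map_eq c0.toLinearEquiv.symm _
    rw [h3]
    have h4 : Module.finrank ℂ F + 1 ≤ Module.finrank ℂ V := h2
    omega
  · intro x hx1
    rw [Submodule.mem_comap, Submodule.mem_comap]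
    -- notation
    set z : ℕ → V := fun j => act (ψ j) x with hz
    have hzb : ∀ j, z j ∈ ball (0 : V) 1 := fun j => act_mem (hψ j) hx1
    have hfz : ∀ j, f (z j) = act (L j) (f x) := fun j => hfe j x hx1
    have hfx : f x ∈ ball (0 : W) 1 := hf.maps hx1
    set μ : ℕ → ℂ := fun j => (L j ((1 : ℂ), f x)).1 with hμ
    have hLj : ∀ j, L j ((1 : ℂ), f x) = μ j • ((1 : ℂ), f (z j)) := fun j => by
      rw [hfz]; exact map_one_eq (hL j) hfx
    set X : ℕ → ℂ × W := fun j => c j ((1 : ℂ), f x) with hX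
    have hXj : ∀ j, X j = μ j • boost (((r j : ℝ) : ℂ) • η) (smul_mem_ball' hη (hr0 j) (hr1 j))
        ((1 : ℂ), f (z j)) := fun j => by
      have : X j = boost (((r j : ℝ) : ℂ) • η) (smul_mem_ball' hη (hr0 j) (hr1 j))
        (L j ((1 : ℂ), f x)) := rfl
      rw [this, hLj, map_smul]
    -- bounds for z j
    obtain ⟨C1, hC1⟩ : ∃ C1 : ℝ, ∀ y ∈ K, Yf x y ≤ C1 := by
      have hcont : ContinuousOn (fun y : V => Yf x y) K := by
        unfold Yf
        apply ContinuousOn.div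
        · fun_prop
        · fun_prop
        · intro y hy
          have h1 : ‖y‖ < 1 := by simpa using hKb hy
          have h2 : ‖x‖ < 1 := by simpa using hx1
          have h3 : 0 < 1 - ‖x‖ ^ 2 := by nlinarith [norm_nonneg x]
          have h4 : 0 < 1 - ‖y‖ ^ 2 := by nlinarith [norm_nonneg y]
          positivity
      obtain ⟨C, hC⟩ := hK.exists_bound_of_continuousOn hcont
      exact ⟨C, fun y hy => (le_abs_self _).trans (hC y hy)⟩
    set C : ℝ := max C1 1 with hCdef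
    have hYf : ∀ j, Yf (z j) (((r j : ℝ) : ℂ) • ζ) ≤ C := fun j => by
      rw [← hψk j, hz]
      rw [Yf_act (hψ j) hx1 (hKb (hk j))]
      exact (hC1 _ (hk j)).trans (le_max_left _ _)
    have hnear := fun j => near_of_Yf hζ (hzb j) (hr0 j) (hr1 j) (le_max_right C1 1) (hYf j)
    set t : ℕ → ℝ := fun j => Real.sqrt (1 - r j) with ht
    have ht2 : ∀ j, t j ^ 2 = 1 - r j := fun j => Real.sq_sqrt (by linarith [hr1 j])
    have htpos : ∀ j, 0 < t j := fun j => Real.sqrt_pos.mpr (by linarith [hr1 j])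
    have htt : Tendsto t atTop (𝓝 0) := by
      have h1 : Tendsto (fun j => 1 - r j) atTop (𝓝 (1 - 1)) := hrt.const_sub 1
      rw [sub_self] at h1
      have h2 := h1.sqrt
      rwa [Real.sqrt_zero] at h2
    set C2 : ℝ := Real.sqrt (2 * (4 * C + 2)) with hC2
    have hC0 : 1 ≤ C := le_max_right _ _
    have hzt : ∀ j, ‖z j - ζ‖ ≤ C2 * t j := fun j => by
      apply le_of_sq_le_sq _ (mul_nonneg (Real.sqrt_nonneg _) (htpos j).le)
      rw [mul_pow, ht2, Real.sq_sqrt (by linarith)]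
      exact (hnear j).2
    have hzζ : Tendsto z atTop (𝓝[ball 0 1] ζ) := by
      apply tendsto_nhdsWithin_iff.mpr
      refine ⟨?_, Eventually.of_forall hzb⟩
      rw [tendsto_iff_norm_sub_tendsto_zero]
      apply squeeze_zero (fun j => norm_nonneg _) hzt
      simpa using htt.const_mul C2
    have hoz := h.comp_tendsto hzζ
    -- `f (z j) → η`
    have hfzη : Tendsto (fun j => f (z j)) atTop (𝓝 η) := by
      have h1 : Tendsto (fun j => z j - ζ) atTop (𝓝 0) := by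
        have := (tendsto_nhdsWithin_iff.mp hzζ).1
        have h2 := this.sub_const ζ
        rwa [sub_self] at h2
      have h2 : Tendsto (fun j => f (z j) - η - A (z j - ζ)) atTop (𝓝 0) := hoz.trans_tendsto h1
      have h3 : Tendsto (fun j => A (z j - ζ)) atTop (𝓝 0) := by
        have h4 := (A.continuous.tendsto 0).comp h1
        rw [map_zero] at h4
        exact h4
      have h4 := (h2.add h3).add_const η
      simpa using h4
    -- the scalars
    have hμt : ∃ C3 : ℝ, ∀ᶠ j in atTop, ‖μ j‖ * t j ≤ C3 := by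
      refine ⟨2 * (2 * (4 / Real.sqrt (1 - ρ ^ 2) * ‖((1 : ℂ), f x)‖)), ?_⟩
      have h1 : ∀ᶠ j in atTop, 1 ≤ ‖1 + inner ℂ η (f (z j))‖ := by
        have h2 : Tendsto (fun j => ‖1 + inner ℂ η (f (z j))‖) atTop (𝓝 ‖1 + inner ℂ η η‖) := by
          apply Tendsto.norm
          apply Tendsto.const_add
          exact (tendsto_const_nhds.inner hfzη)
        have h3 : ‖1 + inner ℂ η η‖ = 2 := by
          rw [inner_self_eq_norm_sq_to_K, hη]; norm_num
        rw [h3] at h2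
        exact (h2.eventually (lt_mem_nhds (by norm_num : (1 : ℝ) < 2))).mono fun j hj => hj.le
      filter_upwards [h1] with j hj
      have h2 := boost_coeff hη (hr0 j) (hr1 j) ((1 : ℂ), f (z j))
      have h3 : (X j).1 + inner ℂ η (X j).2 =
          μ j * ((((1 - r j) / Real.sqrt (1 - r j ^ 2) : ℝ) : ℂ) * (1 + inner ℂ η (f (z j)))) := by
        rw [hXj, ← h2]
        simp only [Prod.smul_fst, Prod.smul_snd, inner_smul_right, smul_eq_mul]
        ring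
      have h4 : ‖(X j).1 + inner ℂ η (X j).2‖ ≤ 2 * ‖X j‖ := by
        calc ‖(X j).1 + inner ℂ η (X j).2‖ ≤ ‖(X j).1‖ + ‖inner ℂ η (X j).2‖ := norm_add_le _ _
          _ ≤ ‖X j‖ + ‖η‖ * ‖(X j).2‖ := add_le_add (norm_fst_le _) (norm_inner_le_norm _ _)
          _ ≤ 2 * ‖X j‖ := by
            rw [hη, one_mul, two_mul]
            exact add_le_add le_rfl (norm_snd_le _)
      have h5 : ‖X j‖ ≤ 4 / Real.sqrt (1 - ρ ^ 2) * ‖((1 : ℂ), f x)‖ :=
        norm_bound (hcU j) hρ (hc0 j) _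
      have h6 : t j / 2 ≤ (1 - r j) / Real.sqrt (1 - r j ^ 2) := by
        have h7 : Real.sqrt (1 - r j ^ 2) ≤ 2 * t j := by
          rw [Real.sqrt_le_left (by linarith [htpos j]), mul_pow, ht2]
          nlinarith [hr0 j, hr1 j]
        have h8 : 0 < Real.sqrt (1 - r j ^ 2) := Real.sqrt_pos.mpr (by nlinarith [hr0 j, hr1 j])
        rw [div_le_div_iff₀ (by norm_num) h8, ← ht2]
        nlinarith [htpos j]
      have h9 : ‖(X j).1 + inner ℂ η (X j).2‖ = ‖μ j‖ * ((1 - r j) / Real.sqrt (1 - r j ^ 2) *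
          ‖1 + inner ℂ η (f (z j))‖) := by
        rw [h3, norm_mul, norm_mul, Complex.norm_real, Real.norm_eq_abs, abs_of_nonneg]
        exact div_nonneg (by linarith [hr1 j]) (Real.sqrt_nonneg _)
      have h10 : ‖μ j‖ * (t j / 2) ≤ ‖(X j).1 + inner ℂ η (X j).2‖ := by
        rw [h9]
        apply mul_le_mul_of_nonneg_left _ (norm_nonneg _)
        calc t j / 2 ≤ (1 - r j) / Real.sqrt (1 - r j ^ 2) := h6
          _ = (1 - r j) / Real.sqrt (1 - r j ^ 2) * 1 := (mul_one _).symm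
          _ ≤ _ := mul_le_mul_of_nonneg_left hj
            (div_nonneg (by linarith [hr1 j]) (Real.sqrt_nonneg _))
      have h11 : 2 * ‖X j‖ ≤ 2 * (4 / Real.sqrt (1 - ρ ^ 2) * ‖((1 : ℂ), f x)‖) := by linarith
      have h12 : ‖μ j‖ * (t j / 2) = ‖μ j‖ * t j / 2 := by ring
      linarith
    obtain ⟨C3, hC3⟩ := hμt
    -- the tangential components
    set y : ℕ → V := fun j => z j - inner ℂ ζ (z j) • ζ with hy
    have hyF : ∀ j, μ j • B (y j) ∈ F := fun j => by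
      apply Submodule.smul_mem
      apply Submodule.mem_map_of_mem
      rw [Submodule.mem_orthogonal_singleton_iff_inner_right, hy]
      simp only [inner_sub_right, inner_smul_right]
      rw [inner_self_eq_norm_sq_to_K, hζ]
      simp
    have hpr : ∀ v : W, prj η ((0 : ℂ), v) = v - inner ℂ η v • η := fun v => by
      rw [prj_apply]
    have hdiff : ∀ j, prj η (X j) - μ j • B (y j) =
        μ j • (prj η ((0 : ℂ), f (z j) - η - A (z j - ζ)) +
          prj η ((0 : ℂ), A ((inner ℂ ζ (z j) - 1 : ℂ) • ζ))) := fun j => by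
      have h1 : prj η (X j) = μ j • prj η ((0 : ℂ), f (z j)) := by
        rw [hXj, map_smul, prj_apply, boost_perp hη (hr0 j) (hr1 j), hpr]
      have h2 : B (y j) = prj η ((0 : ℂ), A (y j)) := rfl
      have h3 : prj η ((0 : ℂ), η) = 0 := by
        rw [hpr, inner_self_eq_norm_sq_to_K, hη]; simp
      have h4 : ((0 : ℂ), f (z j) - η - A (z j - ζ)) + ((0 : ℂ), A ((inner ℂ ζ (z j) - 1 : ℂ) • ζ)) =
          ((0 : ℂ), f (z j)) - ((0 : ℂ), η) - ((0 : ℂ), A (y j)) := by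
        apply Prod.ext
        · simp
        · simp only [Prod.snd_add, Prod.snd_sub]
          have : y j = (z j - ζ) - (inner ℂ ζ (z j) - 1 : ℂ) • ζ := by
            rw [hy]; module
          have h5 : A (y j) = A (z j - ζ) - A ((inner ℂ ζ (z j) - 1 : ℂ) • ζ) := by
            rw [this]; exact map_sub A _ _
          rw [h5]
          abel
      have h5 : prj η ((0 : ℂ), f (z j) - η - A (z j - ζ)) +
          prj η ((0 : ℂ), A ((inner ℂ ζ (z j) - 1 : ℂ) • ζ)) =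
          prj η ((0 : ℂ), f (z j)) - B (y j) := by
        rw [← map_add, h4, map_sub, map_sub, h3, h2, sub_zero]
      rw [h5, h1, smul_sub]
    have hto : Tendsto (fun j => prj η (X j) - μ j • B (y j)) atTop (𝓝 0) := by
      have h1 : (fun j => prj η ((0 : ℂ), f (z j) - η - A (z j - ζ)) +
          prj η ((0 : ℂ), A ((inner ℂ ζ (z j) - 1 : ℂ) • ζ))) =o[atTop] t := by
        apply Asymptotics.IsLittleO.add
        · have h2 : (fun j => f (z j) - η - A (z j - ζ)) =o[atTop] t := by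
            refine hoz.trans_isBigO ?_
            apply Asymptotics.IsBigO.of_bound C2
            apply Eventually.of_forall
            intro j
            rw [Real.norm_eq_abs, abs_of_pos (htpos j)]
            exact hzt j
          have h3 : (fun j => (prj η).comp (ContinuousLinearMap.inr ℂ ℂ W)
              (f (z j) - η - A (z j - ζ))) =o[atTop] t :=
            (ContinuousLinearMap.isBigO_comp _ _ _).trans_isLittleO h2
          exact h3
        · have h2 : (fun j => (inner ℂ ζ (z j) - 1 : ℂ)) =o[atTop] t := by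
            have h3 : (fun j => (inner ℂ ζ (z j) - 1 : ℂ)) =O[atTop] (fun j => t j ^ 2) := by
              apply Asymptotics.IsBigO.of_bound (4 * C + 2)
              apply Eventually.of_forall
              intro j
              rw [ht2, Real.norm_eq_abs, abs_of_pos (by linarith [hr1 j]), norm_sub_rev]
              exact (hnear j).1
            have h4 : (fun j => t j ^ 2) =o[atTop] t := by
              have h5 : (fun j => t j * t j) =o[atTop] (fun j => (1 : ℝ) * t j) := by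
                apply Asymptotics.IsLittleO.mul_isBigO
                · exact (Asymptotics.isLittleO_one_iff ℝ).mpr htt
                · exact Asymptotics.isBigO_refl _ _
              simpa [sq] using h5
            exact h3.trans_isLittleO h4
          have h3 : (fun j => ((prj η).comp ((ContinuousLinearMap.inr ℂ ℂ W).comp (A.comp
              (ContinuousLinearMap.toSpanSingleton ℂ ζ)))) (inner ℂ ζ (z j) - 1 : ℂ)) =o[atTop] t :=
            (ContinuousLinearMap.isBigO_comp _ _ _).trans_isLittleO h2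
          exact h3
      rw [← Asymptotics.isLittleO_one_iff ℝ]
      have h2 : (fun j => μ j • (prj η ((0 : ℂ), f (z j) - η - A (z j - ζ)) +
          prj η ((0 : ℂ), A ((inner ℂ ζ (z j) - 1 : ℂ) • ζ)))) =o[atTop] (fun j => ‖μ j‖ * t j) := by
        have h3 := (Asymptotics.isBigO_refl μ atTop).norm_right.smul_isLittleO h1
        simpa [smul_eq_mul] using h3
      have h3 : (fun j => ‖μ j‖ * t j) =O[atTop] (fun _ => (1 : ℝ)) := by
        apply Asymptotics.IsBigO.of_bound C3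
        filter_upwards [hC3] with j hj
        rw [norm_one, mul_one, Real.norm_eq_abs, abs_of_nonneg
          (mul_nonneg (norm_nonneg _) (htpos j).le)]
        exact hj
      refine (h2.trans_isBigO h3).congr_left fun j => ?_
      exact (hdiff j).symm
    -- conclusion
    have hXlim : Tendsto (fun j => prj η (X (φ j))) atTop (𝓝 (prj η (c0 ((1 : ℂ), f x)))) := by
      have h1 : Tendsto (fun j => ((c (φ j)) : (ℂ × W) →L[ℂ] (ℂ × W)) ((1 : ℂ), f x)) atTop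
          (𝓝 ((c0 : (ℂ × W) →L[ℂ] (ℂ × W)) ((1 : ℂ), f x))) :=
        ((ContinuousLinearMap.apply ℂ (ℂ × W) ((1 : ℂ), f x)).continuous.tendsto _).comp hlim
      exact ((prj η).continuous.tendsto _).comp h1
    have hvlim : Tendsto (fun j => μ (φ j) • B (y (φ j))) atTop
        (𝓝 (prj η (c0 ((1 : ℂ), f x)))) := by
      have h1 := hXlim.sub (hto.comp hφ.tendsto_atTop)
      rw [sub_zero] at h1
      refine h1.congr fun j => ?_
      simp [Function.comp]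
    have hcl : IsClosed (F : Set W) := F.closed_of_finiteDimensional
    exact hcl.mem_of_tendsto hvlim (Eventually.of_forall fun j => hyF (φ j))

/-! MODULE df5 -/

private theorem df5_ball {ζ w : V} (hζ : ‖ζ‖ = 1) {a : ℝ} (ha : (inner ℂ ζ w : ℂ).re = -a)
    (ha0 : 0 < a) (hN : 0 < ‖w‖) {t : ℝ} (ht : 0 < t) (ht2 : t * (4 * ‖w‖ ^ 2) < a) {c : ℂ}
    (hc : c ∈ ball (1 : ℂ) (min 1 (a / (2 * ‖w‖)))) :
    ζ + ((t : ℂ) * c) • w ∈ ball (0 : V) 1 := by
  rw [mem_ball, dist_eq_norm] at hc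
  have hc1 : ‖c - 1‖ < 1 := lt_of_lt_of_le hc (min_le_left _ _)
  have hc2 : ‖c - 1‖ < a / (2 * ‖w‖) := lt_of_lt_of_le hc (min_le_right _ _)
  have hc3 : ‖c‖ < 2 := by
    calc ‖c‖ = ‖(c - 1) + 1‖ := by rw [sub_add_cancel]
      _ ≤ ‖c - 1‖ + ‖(1 : ℂ)‖ := norm_add_le _ _
      _ < 1 + 1 := by rw [norm_one]; linarith
      _ = 2 := by norm_num
  have hre : (c * inner ℂ ζ w).re ≤ -a / 2 := by
    have h1 : c * inner ℂ ζ w = inner ℂ ζ w + (c - 1) * inner ℂ ζ w := by ring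
    have h2 : ((c - 1) * inner ℂ ζ w).re ≤ ‖c - 1‖ * ‖w‖ := by
      refine le_trans (Complex.re_le_norm _) ?_
      rw [norm_mul]
      refine mul_le_mul_of_nonneg_left ?_ (norm_nonneg _)
      have h3 := norm_inner_le_norm (𝕜 := ℂ) ζ w
      rwa [hζ, one_mul] at h3
    have h4 : ‖c - 1‖ * ‖w‖ ≤ a / 2 := by
      have h5 : ‖c - 1‖ * ‖w‖ ≤ a / (2 * ‖w‖) * ‖w‖ :=
        mul_le_mul_of_nonneg_right hc2.le hN.le
      have h6 : a / (2 * ‖w‖) * ‖w‖ = a / 2 := by field_simp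
      linarith
    rw [h1, Complex.add_re, ha]
    linarith
  have hn : ‖ζ + ((t : ℂ) * c) • w‖ ^ 2 < 1 := by
    have h1 := @norm_add_sq ℂ V _ _ _ ζ (((t : ℂ) * c) • w)
    rw [h1, hζ, inner_smul_right, norm_smul, norm_mul, Complex.norm_real,
      Real.norm_of_nonneg ht.le]
    have h2 : RCLike.re ((t : ℂ) * c * inner ℂ ζ w) = t * (c * inner ℂ ζ w).re := by
      rw [mul_assoc]
      exact Complex.re_ofReal_mul _ _
    rw [h2]
    have h3 : t * (c * inner ℂ ζ w).re ≤ t * (-a / 2) := mul_le_mul_of_nonneg_left hre ht.le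
    have h4 : (t * ‖c‖ * ‖w‖) ^ 2 ≤ t * (t * (4 * ‖w‖ ^ 2)) := by
      have h5 : ‖c‖ ^ 2 ≤ 4 := by nlinarith [norm_nonneg c]
      calc (t * ‖c‖ * ‖w‖) ^ 2 = t * t * ‖w‖ ^ 2 * ‖c‖ ^ 2 := by ring
        _ ≤ t * t * ‖w‖ ^ 2 * 4 := mul_le_mul_of_nonneg_left h5 (by positivity)
        _ = _ := by ring
    have h6 : t * (t * (4 * ‖w‖ ^ 2)) < t * a := mul_lt_mul_of_pos_left ht2 ht
    nlinarith
  rw [mem_ball_zero_iff]
  nlinarith [norm_nonneg (ζ + ((t : ℂ) * c) • w)]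

private theorem df5_key [FiniteDimensional ℂ V] [FiniteDimensional ℂ W] {f : V → W}
    (hd : DifferentiableOn ℂ f (ball 0 1)) {ζ : V} (hζ : ‖ζ‖ = 1) {p : W} {A : V →L[ℝ] W}
    (h : (fun z => f z - p - A (z - ζ)) =o[𝓝[ball 0 1] ζ] (fun z => z - ζ)) (w : V)
    (hw : (inner ℂ ζ w : ℂ).re < 0) : A (Complex.I • w) = Complex.I • A w := by
  have : CompleteSpace W := FiniteDimensional.complete ℂ W
  obtain ⟨a, ha⟩ : ∃ a : ℝ, (inner ℂ ζ w : ℂ).re = -a := ⟨-(inner ℂ ζ w : ℂ).re, by ring⟩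
  have ha0 : 0 < a := by linarith
  have hN : 0 < ‖w‖ := by
    refine norm_pos_iff.2 fun h0 => ?_
    rw [h0, inner_zero_right] at hw
    simp at hw
  obtain ⟨δ, hδ⟩ : ∃ δ : ℝ, δ = min 1 (a / (2 * ‖w‖)) := ⟨_, rfl⟩
  have hδ0 : 0 < δ := by rw [hδ]; exact lt_min one_pos (by positivity)
  have hδ1 : δ ≤ 1 := by rw [hδ]; exact min_le_left _ _
  have hball : ∀ t : ℝ, 0 < t → t * (4 * ‖w‖ ^ 2) < a → ∀ c ∈ ball (1 : ℂ) δ,
      ζ + ((t : ℂ) * c) • w ∈ ball (0 : V) 1 := fun t ht ht2 c hc =>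
    df5_ball hζ ha ha0 hN ht ht2 (by rw [← hδ]; exact hc)
  have hev : ∀ᶠ t in 𝓝[>] (0 : ℝ), 0 < t ∧ t * (4 * ‖w‖ ^ 2) < a := by
    have h1 : Ioo (0 : ℝ) (a / (4 * ‖w‖ ^ 2)) ∈ 𝓝[>] (0 : ℝ) :=
      Ioo_mem_nhdsGT (by positivity)
    filter_upwards [h1] with t ht
    refine ⟨ht.1, ?_⟩
    have h2 := ht.2
    rwa [lt_div_iff₀ (by positivity)] at h2
  -- the functions
  have hF : ∀ᶠ t in 𝓝[>] (0 : ℝ), DifferentiableOn ℂ
      (fun c : ℂ => (((t : ℝ) : ℂ))⁻¹ • (f (ζ + (((t : ℝ) : ℂ) * c) • w) - p))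
      (ball (1 : ℂ) δ) := by
    filter_upwards [hev] with t ht
    refine DifferentiableOn.const_smul (DifferentiableOn.sub_const ?_ _) _
    refine hd.comp (f := fun c : ℂ => ζ + ((t : ℂ) * c) • w) ?_ fun c hc => hball t ht.1 ht.2 c hc
    fun_prop
  have hlim : TendstoUniformlyOn (fun (t : ℝ) (c : ℂ) =>
      ((t : ℂ))⁻¹ • (f (ζ + ((t : ℂ) * c) • w) - p)) (fun c : ℂ => A (c • w))
      (𝓝[>] (0 : ℝ)) (ball (1 : ℂ) δ) := by
    rw [Metric.tendstoUniformlyOn_iff]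
    intro ε hε
    have h1 := h.def (c := ε / (4 * ‖w‖)) (by positivity)
    rw [eventually_nhdsWithin_iff, Metric.eventually_nhds_iff] at h1
    obtain ⟨e, he, h2⟩ := h1
    have h3 : Ioo (0 : ℝ) (e / (2 * ‖w‖)) ∈ 𝓝[>] (0 : ℝ) := Ioo_mem_nhdsGT (by positivity)
    filter_upwards [hev, h3] with t ht ht' c hc
    have hc3 : ‖c‖ < 2 := by
      rw [mem_ball, dist_eq_norm] at hc
      calc ‖c‖ = ‖(c - 1) + 1‖ := by rw [sub_add_cancel]
        _ ≤ ‖c - 1‖ + ‖(1 : ℂ)‖ := norm_add_le _ _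
        _ < 1 + 1 := by rw [norm_one]; linarith
        _ = 2 := by norm_num
    have hsub : ζ + ((t : ℂ) * c) • w - ζ = ((t : ℂ) * c) • w := add_sub_cancel_left _ _
    have hnorm : ‖((t : ℂ) * c) • w‖ = t * ‖c‖ * ‖w‖ := by
      rw [norm_smul, norm_mul, Complex.norm_real, Real.norm_of_nonneg ht.1.le]
    have h4 := h2 (y := ζ + ((t : ℂ) * c) • w) (by
      rw [dist_eq_norm, hsub, hnorm]
      have h5 : t * (2 * ‖w‖) < e := by
        have h6 := ht'.2
        rwa [lt_div_iff₀ (by positivity)] at h6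
      have h7 : t * ‖c‖ * ‖w‖ ≤ t * 2 * ‖w‖ := by
        have : t * ‖c‖ ≤ t * 2 := mul_le_mul_of_nonneg_left hc3.le ht.1.le
        exact mul_le_mul_of_nonneg_right this hN.le
      linarith) (hball t ht.1 ht.2 c hc)
    rw [hsub, hnorm] at h4
    have htc : (t : ℂ) ≠ 0 := by exact_mod_cast ht.1.ne'
    have h8 : A (((t : ℂ) * c) • w) = (t : ℂ) • A (c • w) := by
      have h9 : ((t : ℂ) * c) • w = t • (c • w) := by
        rw [mul_smul]
        exact Complex.coe_smul t (c • w)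
      rw [h9, map_smul]
      exact (Complex.coe_smul t (A (c • w))).symm
    have h10 : A (c • w) - ((t : ℂ))⁻¹ • (f (ζ + ((t : ℂ) * c) • w) - p) =
        -(((t : ℂ))⁻¹ • (f (ζ + ((t : ℂ) * c) • w) - p - A (((t : ℂ) * c) • w))) := by
      rw [h8, smul_sub _ (f (ζ + ((t : ℂ) * c) • w) - p), smul_smul, inv_mul_cancel₀ htc,
        one_smul]
      abel
    rw [dist_eq_norm, h10, norm_neg, norm_smul, norm_inv, Complex.norm_real,
      Real.norm_of_nonneg ht.1.le]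
    calc t⁻¹ * ‖f (ζ + ((t : ℂ) * c) • w) - p - A (((t : ℂ) * c) • w)‖
        ≤ t⁻¹ * (ε / (4 * ‖w‖) * (t * ‖c‖ * ‖w‖)) :=
          mul_le_mul_of_nonneg_left h4 (inv_nonneg.2 ht.1.le)
      _ = ε * ‖c‖ / 4 := by
          have := ht.1.ne'
          field_simp
      _ < ε := by nlinarith
  have hdiff : DifferentiableOn ℂ (fun c : ℂ => A (c • w)) (ball (1 : ℂ) δ) :=
    hlim.tendstoLocallyUniformlyOn.differentiableOn hF isOpen_ball
  have hat : DifferentiableAt ℂ (fun c : ℂ => A (c • w)) 1 :=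
    hdiff.differentiableAt (isOpen_ball.mem_nhds (mem_ball_self hδ0))
  -- the derivative
  obtain ⟨T, hT⟩ : ∃ T : ℂ →L[ℝ] W, ∀ c : ℂ, T c = A (c • w) :=
    ⟨A.comp ((ContinuousLinearMap.toSpanSingleton ℂ w).restrictScalars ℝ), fun c => rfl⟩
  have h1 : HasFDerivAt (𝕜 := ℝ) (fun c : ℂ => A (c • w)) T 1 := by
    have h2 : (fun c : ℂ => A (c • w)) = T := funext fun c => (hT c).symm
    rw [h2]
    exact T.hasFDerivAt
  have h2 : HasFDerivAt (𝕜 := ℝ) (fun c : ℂ => A (c • w))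
      ((fderiv ℂ (fun c : ℂ => A (c • w)) 1).restrictScalars ℝ) 1 :=
    hat.hasFDerivAt.restrictScalars ℝ
  have h3 := h1.unique h2
  have h4 : ∀ c : ℂ, A (c • w) = fderiv ℂ (fun c : ℂ => A (c • w)) 1 c := by
    intro c
    rw [← hT c, h3]
    rfl
  have h5 := h4 Complex.I
  have h6 := h4 1
  rw [one_smul] at h6
  rw [h5, h6, ← map_smul, smul_eq_mul, mul_one]

/-- A real derivative at a boundary point is complex linear.  Let `Re <ζ,w> < 0` first.  For small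
`δ` and small `t > 0`, `ζ + t λ w ∈ ball` for all `λ ∈ ball 1 δ`, and the functions
`λ ↦ t⁻¹ (f (ζ + t λ w) - p)`, holomorphic on `ball 1 δ`, converge uniformly to `λ ↦ A (λ w)` as `t → 0+`; so
the latter is complex differentiable (`TendstoLocallyUniformlyOn.differentiableOn`; for values in `W`
compose with continuous linear functionals if necessary), and its derivative
at `1` is its own linear part: `A (i w) = i A w`.  General `w`: `w = (w - s ζ) - s (-ζ)` with `s` large. -/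
theorem complex_of_real [FiniteDimensional ℂ V] [FiniteDimensional ℂ W] {f : V → W}
    (hd : DifferentiableOn ℂ f (ball 0 1)) {ζ : V} (hζ : ‖ζ‖ = 1) {p : W} {A : V →L[ℝ] W}
    (h : (fun z => f z - p - A (z - ζ)) =o[𝓝[ball 0 1] ζ] (fun z => z - ζ)) (w : V) :
    A (Complex.I • w) = Complex.I • A w := by
  have hζζ : (inner ℂ ζ ζ : ℂ) = 1 := by
    rw [inner_self_eq_norm_sq_to_K, hζ]
    norm_num
  obtain ⟨s, hs⟩ : ∃ s : ℝ, s = |(inner ℂ ζ w : ℂ).re| + 1 := ⟨_, rfl⟩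
  have h1 := df5_key hd hζ h (-ζ) (by
    rw [inner_neg_right, hζζ]
    simp)
  have h2 := df5_key hd hζ h (w - (s : ℂ) • ζ) (by
    rw [inner_sub_right, inner_smul_right, hζζ, mul_one, Complex.sub_re, Complex.ofReal_re]
    have := le_abs_self (inner ℂ ζ w : ℂ).re
    linarith)
  have e0 : ∀ x : V, A ((s : ℂ) • x) = (s : ℂ) • A x := by
    intro x
    have h3 : (s : ℂ) • x = s • x := Complex.coe_smul s x
    rw [h3, map_smul]
    exact (Complex.coe_smul s (A x)).symm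
  rw [smul_neg, map_neg, map_neg, smul_neg, neg_inj] at h1
  rw [smul_sub, map_sub, map_sub, smul_comm Complex.I (s : ℂ) ζ, e0, e0, h1, smul_sub,
    smul_comm Complex.I (s : ℂ) (A ζ)] at h2
  exact sub_left_injective h2

/-- `lin_of_diff` for real derivatives: by `complex_of_real` the derivative is complex linear. -/
theorem lin_of_real_diff [FiniteDimensional ℂ V] [FiniteDimensional ℂ W] {f : V → W} (hf : Eqv f)
    {ζ : V} (hζ : ‖ζ‖ = 1) {η : W} (hη : ‖η‖ = 1) {A : V →L[ℝ] W}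
    (h : (fun z => f z - η - A (z - ζ)) =o[𝓝[ball 0 1] ζ] (fun z => z - ζ)) : Lin f := by
  have hI := complex_of_real hf.hol hζ h
  obtain ⟨B, hB⟩ : ∃ B : V →L[ℂ] W, ∀ x, B x = A x := by
    refine ⟨{ toFun := A
              map_add' := fun x y => map_add A x y
              map_smul' := fun c x => ?_
              cont := A.continuous }, fun x => rfl⟩
    rw [RingHom.id_apply]
    have e0 : ∀ (s : ℝ) (x : V), A ((s : ℂ) • x) = (s : ℂ) • A x := by
      intro s x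
      have h3 : (s : ℂ) • x = s • x := Complex.coe_smul s x
      rw [h3, map_smul]
      exact (Complex.coe_smul s (A x)).symm
    have e1 : c • x = (c.re : ℂ) • x + (c.im : ℂ) • (Complex.I • x) := by
      rw [smul_smul, ← add_smul, Complex.re_add_im]
    have e2 : c • A x = (c.re : ℂ) • A x + (c.im : ℂ) • (Complex.I • A x) := by
      rw [smul_smul, ← add_smul, Complex.re_add_im]
    show A (c • x) = c • A x
    rw [e1, map_add, e0, e0, hI x, ← e2]
  refine lin_of_diff hf hζ hη (A := B) ?_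
  have h1 : (fun z => f z - η - B (z - ζ)) = fun z => f z - η - A (z - ζ) :=
    funext fun z => by rw [hB]
  rw [h1]
  exact h

end Pool.Agent.BdReg
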