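import Pool.Agent.BdReg.SP
import Pool.Agent.BdReg.Cpt

/-! Proper holomorphic embeddings of balls. -/

set_option autoImplicit false

open Metric Set Filter Topology ComplexConjugate

namespace Pool.Agent.BdReg

open Pool.Agent.BallCurve

variable {V W : Type*} [NormedAddCommGroup V] [InnerProductSpace ℂ V]
  [NormedAddCommGroup W] [InnerProductSpace ℂ W]

/-- Proper holomorphic embedding of the unit ball of `V` in the unit ball of `W`. -/
structure Emb (f : V → W) : Prop where
  maps : MapsTo f (ball 0 1) (ball 0 1)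
  hol : DifferentiableOn ℂ f (ball 0 1)
  proper : ∀ K : Set W, IsCompact K → K ⊆ ball 0 1 → IsCompact (ball (0 : V) 1 ∩ f ⁻¹' K)
  inj : InjOn f (ball 0 1)
  imm : ∀ z ∈ ball (0 : V) 1, Function.Injective (fderiv ℂ f z)

/-! MODULE em1 -/

/-- The inverse of a proper embedding is continuous: `K = {f z0} ∪ {f (z j)}` is compact, so the
`z j` lie in a compact subset of the ball; every limit point `z'` has `f z' = f z0`. -/
theorem Emb.inv_tendsto {f : V → W} (hf : Emb f) {z : ℕ → V}
    (hz : ∀ j, z j ∈ ball (0 : V) 1) {z0 : V} (hz0 : z0 ∈ ball (0 : V) 1)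
    (h : Tendsto (fun j => f (z j)) atTop (𝓝 (f z0))) : Tendsto z atTop (𝓝 z0) := by
  set K : Set W := insert (f z0) (range fun j => f (z j)) with hK
  have hKc : IsCompact K := h.isCompact_insert_range
  have hKb : K ⊆ ball 0 1 := by
    intro w hw
    rcases hw with rfl | ⟨j, rfl⟩
    · exact hf.maps hz0
    · exact hf.maps (hz j)
  have hC := hf.proper K hKc hKb
  have hzC : ∀ j, z j ∈ ball (0 : V) 1 ∩ f ⁻¹' K := fun j => ⟨hz j, Or.inr ⟨j, rfl⟩⟩
  apply tendsto_of_subseq_tendsto
  intro ns hns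
  obtain ⟨z', hz', φ, hφ, hlim⟩ := hC.tendsto_subseq fun j => hzC (ns j)
  have h1 : Tendsto (fun j => f (z (ns (φ j)))) atTop (𝓝 (f z')) := by
    have hcont : ContinuousAt f z' :=
      (hf.hol.continuousOn).continuousAt (isOpen_ball.mem_nhds hz'.1)
    exact hcont.tendsto.comp hlim
  have h2 : Tendsto (fun j => f (z (ns (φ j)))) atTop (𝓝 (f z0)) :=
    h.comp (hns.comp hφ.tendsto_atTop)
  have h3 : z' = z0 := hf.inj hz'.1 hz0 (tendsto_nhds_unique h1 h2)
  exact ⟨φ, by rw [← h3]; exact hlim⟩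

/-- The image of a proper embedding is relatively closed. -/
theorem Emb.image_closed {f : V → W} (hf : Emb f) {w : ℕ → W}
    (hw : ∀ j, w j ∈ f '' ball (0 : V) 1) {w0 : W} (hw0 : w0 ∈ ball (0 : W) 1)
    (h : Tendsto w atTop (𝓝 w0)) : w0 ∈ f '' ball (0 : V) 1 := by
  set K : Set W := insert w0 (range w) with hK
  have hKc : IsCompact K := h.isCompact_insert_range
  have hKb : K ⊆ ball 0 1 := by
    intro v hv
    rcases hv with rfl | ⟨j, rfl⟩
    · exact hw0
    · obtain ⟨x, hx, hxw⟩ := hw j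
      rw [← hxw]; exact hf.maps hx
  have hC := hf.proper K hKc hKb
  choose z hz hzw using hw
  have hzC : ∀ j, z j ∈ ball (0 : V) 1 ∩ f ⁻¹' K := fun j => ⟨hz j, by
    rw [mem_preimage, hzw j]; exact Or.inr ⟨j, rfl⟩⟩
  obtain ⟨z', hz', φ, hφ, hlim⟩ := hC.tendsto_subseq hzC
  have h1 : Tendsto (fun j => f (z (φ j))) atTop (𝓝 (f z')) := by
    have hcont : ContinuousAt f z' :=
      (hf.hol.continuousOn).continuousAt (isOpen_ball.mem_nhds hz'.1)
    exact hcont.tendsto.comp hlim
  have h2 : Tendsto (fun j => f (z (φ j))) atTop (𝓝 w0) := by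
    simp only [hzw]
    exact h.comp hφ.tendsto_atTop
  exact ⟨z', hz'.1, tendsto_nhds_unique h1 h2⟩

/-- Boundary behaviour: if `z j ∈ ball` and `‖z j‖ → 1` then `‖f (z j)‖ → 1`. -/
theorem Emb.norm_tendsto [FiniteDimensional ℂ W] {f : V → W} (hf : Emb f) {z : ℕ → V}
    (hz : ∀ j, z j ∈ ball (0 : V) 1) (h : Tendsto (fun j => ‖z j‖) atTop (𝓝 1)) :
    Tendsto (fun j => ‖f (z j)‖) atTop (𝓝 1) := by
  have hproper : ProperSpace W := FiniteDimensional.proper ℂ W
  refine tendsto_order.mpr ⟨fun ρ hρ => ?_, fun ρ hρ => ?_⟩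
  · have hKc : IsCompact (closedBall (0 : W) ρ) := isCompact_closedBall 0 ρ
    have hKb : closedBall (0 : W) ρ ⊆ ball 0 1 := closedBall_subset_ball hρ
    have hC := hf.proper _ hKc hKb
    obtain ⟨r, hr, hCr⟩ : ∃ r < (1 : ℝ), ∀ x ∈ ball (0 : V) 1 ∩ f ⁻¹' closedBall (0 : W) ρ,
        ‖x‖ ≤ r := by
      rcases (ball (0 : V) 1 ∩ f ⁻¹' closedBall (0 : W) ρ).eq_empty_or_nonempty with he | hne
      · exact ⟨0, by norm_num, fun x hx => by rw [he] at hx; exact hx.elim⟩
      · obtain ⟨p, hp, hmax⟩ := hC.exists_isMaxOn hne continuous_norm.continuousOn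
        exact ⟨‖p‖, by simpa using hp.1, fun x hx => hmax hx⟩
    filter_upwards [h.eventually (lt_mem_nhds hr)] with j hj
    by_contra hcon
    push Not at hcon
    have := hCr (z j) ⟨hz j, by rw [mem_preimage, mem_closedBall_zero_iff]; exact hcon⟩
    linarith
  · apply Eventually.of_forall
    intro j
    have : ‖f (z j)‖ < 1 := by simpa using hf.maps (hz j)
    linarith

/-! MODULE em2 -/

/-- Continuity of the derivative of a holomorphic map, in the form of strict differentiability. -/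
theorem em2_strict [FiniteDimensional ℂ V] {f : V → W} (hd : DifferentiableOn ℂ f (ball 0 1))
    {z1 : V} (hz1 : z1 ∈ ball (0 : V) 1) : HasStrictFDerivAt f (fderiv ℂ f z1) z1 := by
  have hproper : ProperSpace V := FiniteDimensional.proper ℂ V
  have hda : ∀ x ∈ ball (0 : V) 1, DifferentiableAt ℂ f x := fun x hx =>
    hd.differentiableAt (isOpen_ball.mem_nhds hx)
  apply hasStrictFDerivAt_of_hasFDerivAt_of_continuousAt
  · filter_upwards [isOpen_ball.mem_nhds hz1] with y hy
    exact (hda y hy).hasFDerivAt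
  -- a ball around `z1`
  obtain ⟨r, hr, hrb⟩ : ∃ r > (0 : ℝ), closedBall z1 (2 * r) ⊆ ball (0 : V) 1 := by
    obtain ⟨ε, hε, hεb⟩ := Metric.isOpen_iff.mp isOpen_ball z1 hz1
    refine ⟨ε / 4, by positivity, (closedBall_subset_ball ?_).trans hεb⟩
    linarith
  have huc : UniformContinuousOn f (closedBall z1 (2 * r)) :=
    (isCompact_closedBall z1 (2 * r)).uniformContinuousOn_of_continuous
      (hd.continuousOn.mono hrb)
  rw [Metric.continuousAt_iff]
  intro ε hε
  obtain ⟨δ, hδ, hδf⟩ := Metric.uniformContinuousOn_iff.mp huc (ε * r / 4) (by positivity)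
  refine ⟨min δ r, lt_min hδ hr, fun {x} hx => ?_⟩
  have hxδ : ‖x - z1‖ < δ := by rw [← dist_eq_norm]; exact hx.trans_le (min_le_left _ _)
  have hxr : ‖x - z1‖ < r := by rw [← dist_eq_norm]; exact hx.trans_le (min_le_right _ _)
  set w : V := x - z1 with hw
  have hxw : x = z1 + w := by rw [hw]; abel
  set g : V → W := fun z => f (z + w) - f z with hg
  have hmem : ∀ z ∈ ball z1 r, z + w ∈ closedBall z1 (2 * r) ∧ z ∈ closedBall z1 (2 * r) := by
    intro z hz
    rw [mem_ball, dist_eq_norm] at hz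
    constructor
    · rw [mem_closedBall, dist_eq_norm, show z + w - z1 = (z - z1) + w by abel]
      refine (norm_add_le _ _).trans ?_
      linarith
    · rw [mem_closedBall, dist_eq_norm]; linarith
  have hgd : DifferentiableOn ℂ g (ball z1 r) := by
    intro z hz
    apply DifferentiableAt.differentiableWithinAt
    apply DifferentiableAt.sub
    · have h1 : DifferentiableAt ℂ f (z + w) := hda _ (hrb (hmem z hz).1)
      exact h1.comp z (differentiableAt_id.add_const w)
    · exact hda _ (hrb (hmem z hz).2)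
  have hgn : ∀ z ∈ ball z1 r, ‖g z‖ < ε * r / 4 := by
    intro z hz
    have h1 := hδf (z + w) (hmem z hz).1 z (hmem z hz).2 (by
      rw [dist_eq_norm, add_sub_cancel_left]; exact hxδ)
    rwa [dist_eq_norm] at h1
  have hgm : MapsTo g (ball z1 r) (closedBall (g z1) (ε * r / 2)) := by
    intro z hz
    rw [mem_closedBall, dist_eq_norm]
    have h1 := hgn z hz
    have h2 := hgn z1 (mem_ball_self hr)
    refine (norm_sub_le _ _).trans ?_
    linarith
  have h3 := Complex.norm_fderiv_le_div_of_mapsTo_ball hgd hgm hr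
  have h4 : fderiv ℂ g z1 = fderiv ℂ f x - fderiv ℂ f z1 := by
    rw [hg, fderiv_fun_sub, fderiv_comp_add_right, ← hxw]
    · have h1 : DifferentiableAt ℂ f (z1 + w) := hda _ (hrb (hmem z1 (mem_ball_self hr)).1)
      exact h1.comp z1 (differentiableAt_id.add_const w)
    · exact hda _ hz1
  rw [h4] at h3
  rw [dist_eq_norm]
  calc ‖fderiv ℂ f x - fderiv ℂ f z1‖ ≤ ε * r / 2 / r := h3
    _ = ε / 2 := by field_simp
    _ < ε := by linarith

/-- A left inverse of an injective derivative. -/
theorem em2_left [FiniteDimensional ℂ V] [FiniteDimensional ℂ W] {A : V →L[ℂ] W}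
    (hA : Function.Injective A) : ∃ P : W →L[ℂ] V, P.comp A = ContinuousLinearMap.id ℂ V := by
  obtain ⟨g, hg⟩ := LinearMap.exists_leftInverse_of_injective (A : V →ₗ[ℂ] W)
    (LinearMap.ker_eq_bot.mpr hA)
  refine ⟨LinearMap.toContinuousLinearMap g, ?_⟩
  ext v
  have := LinearMap.congr_fun hg v
  simpa using this

/-- The lift of an element of `UG` as a holomorphic map. -/
theorem em2_lift [FiniteDimensional ℂ V] [FiniteDimensional ℂ W] {f : V → W} (hf : Emb f)
    {L : (ℂ × W) ≃L[ℂ] (ℂ × W)} (hL : L ∈ UG W)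
    (h1 : MapsTo (act L) (f '' ball (0 : V) 1) (f '' ball (0 : V) 1)) :
    ∃ φ : V → V, MapsTo φ (ball 0 1) (ball 0 1) ∧ DifferentiableOn ℂ φ (ball 0 1) ∧
      ∀ z ∈ ball (0 : V) 1, f (φ z) = act L (f z) := by
  have : CompleteSpace V := FiniteDimensional.complete ℂ V
  have hex : ∀ z : V, ∃ y : V, z ∈ ball (0 : V) 1 → (y ∈ ball (0 : V) 1 ∧ f y = act L (f z)) := by
    intro z
    by_cases hz : z ∈ ball (0 : V) 1
    · obtain ⟨y, hy, hyz⟩ := h1 ⟨z, hz, rfl⟩
      exact ⟨y, fun _ => ⟨hy, hyz⟩⟩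
    · exact ⟨0, fun h => absurd h hz⟩
  choose φ hφ using hex
  have hφm : MapsTo φ (ball 0 1) (ball 0 1) := fun z hz => (hφ z hz).1
  have hφf : ∀ z ∈ ball (0 : V) 1, f (φ z) = act L (f z) := fun z hz => (hφ z hz).2
  have hactf : ContinuousOn (fun z => act L (f z)) (ball 0 1) :=
    (act_continuousOn hL).comp hf.hol.continuousOn hf.maps
  refine ⟨φ, hφm, fun z0 hz0 => ?_, hφf⟩
  -- continuity at `z0`
  have hcont : ContinuousAt φ z0 := by
    have h2 : ContinuousWithinAt φ (ball 0 1) z0 := by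
      rw [ContinuousWithinAt, tendsto_iff_seq_tendsto]
      intro u hu
      obtain ⟨hu1, hu2⟩ := tendsto_nhdsWithin_iff.mp hu
      -- replace the finitely many bad terms
      obtain ⟨n0, hn0⟩ := eventually_atTop.mp hu2
      have h3 : Tendsto (fun j => φ (u (j + n0))) atTop (𝓝 (φ z0)) := by
        apply hf.inv_tendsto (fun j => hφm (hn0 _ (Nat.le_add_left _ _))) (hφm hz0)
        have h4 : ∀ j, f (φ (u (j + n0))) = act L (f (u (j + n0))) := fun j =>
          hφf _ (hn0 _ (Nat.le_add_left _ _))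
        simp only [h4, hφf z0 hz0]
        have h5 : ContinuousAt (fun z => act L (f z)) z0 :=
          hactf.continuousAt (isOpen_ball.mem_nhds hz0)
        exact h5.tendsto.comp ((tendsto_add_atTop_iff_nat n0).mpr hu1)
      exact (tendsto_add_atTop_iff_nat n0).mp h3
    exact h2.continuousAt (isOpen_ball.mem_nhds hz0)
  set z1 : V := φ z0 with hz1
  have hz1b : z1 ∈ ball (0 : V) 1 := hφm hz0
  obtain ⟨P, hP⟩ := em2_left (hf.imm z1 hz1b)
  have hst : HasStrictFDerivAt (fun z => P (f z))
      ((ContinuousLinearEquiv.refl ℂ V : V ≃L[ℂ] V) : V →L[ℂ] V) z1 := by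
    have h2 := P.hasStrictFDerivAt.comp z1 (em2_strict hf.hol hz1b)
    rw [hP] at h2
    exact h2
  have hgd := hst.to_localInverse
  have hev : ∀ᶠ z in 𝓝 z0, hst.localInverse _ _ _ (P (act L (f z))) = φ z := by
    have h2 := hcont.tendsto.eventually hst.eventually_left_inverse
    filter_upwards [h2, isOpen_ball.mem_nhds hz0] with z hz hzb
    rw [← hφf z hzb]
    exact hz
  have hcomp : DifferentiableAt ℂ (fun z => hst.localInverse _ _ _ (P (act L (f z)))) z0 := by
    have h2 : DifferentiableAt ℂ (fun z => P (act L (f z))) z0 := by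
      apply P.differentiableAt.comp
      exact (act_differentiableAt hL (hf.maps hz0)).comp z0
        (hf.hol.differentiableAt (isOpen_ball.mem_nhds hz0))
    have h3 : DifferentiableAt ℂ (hst.localInverse _ _ _) (P (act L (f z0))) := by
      rw [← hφf z0 hz0]
      exact hgd.hasFDerivAt.differentiableAt
    exact h3.comp z0 h2
  exact (hcomp.congr_of_eventuallyEq (hev.mono fun z hz => hz.symm)).differentiableWithinAt

/-- Lifting an automorphism.  `φ z` = the unique point of the ball with `f (φ z) = act L (f z)`; `φ` is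
continuous (`Emb.inv_tendsto`), bijective (inverse from `L⁻¹`).  Holomorphic: let `z1 = φ z0` and
`P : W →L[ℂ] V` with `P ∘ fderiv f z1 = id` (an injective linear map has a left inverse); `P ∘ f` has an
invertible strict derivative at `z1`, so it has a local inverse `g` with strict derivative
(`HasStrictFDerivAt.to_localInverse`), and near `z0`: `φ z = g (P (act L (f z)))` by continuity of `φ`.
Then `aut_eq_act`. -/
theorem Emb.lift [FiniteDimensional ℂ V] [FiniteDimensional ℂ W] {f : V → W} (hf : Emb f)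
    {L : (ℂ × W) ≃L[ℂ] (ℂ × W)} (hL : L ∈ UG W)
    (h1 : MapsTo (act L) (f '' ball (0 : V) 1) (f '' ball (0 : V) 1))
    (h2 : MapsTo (act L⁻¹) (f '' ball (0 : V) 1) (f '' ball (0 : V) 1)) :
    ∃ ψ ∈ UG V, ∀ z ∈ ball (0 : V) 1, f (act ψ z) = act L (f z) := by
  obtain ⟨φ, hφm, hφd, hφf⟩ := em2_lift hf hL h1
  obtain ⟨χ, hχm, hχd, hχf⟩ := em2_lift hf ((UG W).inv_mem hL) h2
  obtain ⟨ψ, hψ, hψφ⟩ := aut_eq_act hφm hχm hφd hχd
    (fun z hz => hf.inj (hφm (hχm hz)) hz (by
      rw [hφf _ (hχm hz), hχf z hz, act_act_inv hL (hf.maps hz)]))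
    (fun z hz => hf.inj (hχm (hφm hz)) hz (by
      rw [hχf _ (hφm hz), hφf z hz, act_inv_act hL (hf.maps hz)]))
  exact ⟨ψ, hψ, fun z hz => by rw [← hψφ z hz]; exact hφf z hz⟩

/-! MODULE em3 -/

/-- `A = {v | (1, v) ∈ S}` with direction `D = {v | (0, v) ∈ S}`. -/
theorem exists_affine [FiniteDimensional ℂ W] (S : Submodule ℂ (ℂ × W)) {v0 : W}
    (h0 : ((1 : ℂ), v0) ∈ S) {n : ℕ} (hn : Module.finrank ℂ S ≤ n + 1) :
    ∃ A : AffineSubspace ℂ W, Module.finrank ℂ A.direction ≤ n ∧
      ∀ v : W, v ∈ A ↔ ((1 : ℂ), v) ∈ S := by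
  set D : Submodule ℂ W := S.comap (LinearMap.inr ℂ ℂ W) with hD
  refine ⟨AffineSubspace.mk' v0 D, ?_, fun v => ?_⟩
  · rw [AffineSubspace.direction_mk']
    have hinj : Function.Injective (LinearMap.inr ℂ ℂ W) := LinearMap.inr_injective
    have h1 : D.map (LinearMap.inr ℂ ℂ W) < S := by
      refine lt_of_le_of_ne (Submodule.map_comap_le _ _) ?_
      intro he
      rw [← he] at h0
      obtain ⟨w, _, hw⟩ := h0
      have h2 := congrArg Prod.fst hw
      simp at h2
    have h2 := Submodule.finrank_lt_finrank_of_lt h1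
    have h3 : Module.finrank ℂ (D.map (LinearMap.inr ℂ ℂ W)) = Module.finrank ℂ D :=
      LinearEquiv.finrank_eq (Submodule.equivMapOfInjective _ hinj D).symm
    omega
  · rw [AffineSubspace.mem_mk', hD, Submodule.mem_comap, vsub_eq_sub]
    have h1 : (LinearMap.inr ℂ ℂ W) (v - v0) = ((1 : ℂ), v) - ((1 : ℂ), v0) := by
      simp
    rw [h1]
    constructor
    · intro h2
      have := S.add_mem h2 h0
      simpa using this
    · intro h2
      exact S.sub_mem h2 h0

/-- The image of an embedding in an affine subspace `A` of dimension `≤ dim V` is `ball ∩ A`.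
`fderiv f z` is an injective map `V → A.direction`, so the dimensions are equal; inverse function
theorem: the image is relatively open in `A`; `Emb.image_closed`: relatively closed in `ball ∩ A`, which
is convex, hence preconnected. -/
theorem Emb.image_eq [FiniteDimensional ℂ V] [FiniteDimensional ℂ W] {f : V → W} (hf : Emb f)
    {A : AffineSubspace ℂ W} (hA : Module.finrank ℂ A.direction ≤ Module.finrank ℂ V)
    (h : ∀ z ∈ ball (0 : V) 1, f z ∈ A) :
    Module.finrank ℂ A.direction = Module.finrank ℂ V ∧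
      f '' ball (0 : V) 1 = ball (0 : W) 1 ∩ (A : Set W) := by
  have : CompleteSpace V := FiniteDimensional.complete ℂ V
  have h0 : (0 : V) ∈ ball (0 : V) 1 := by simp
  -- derivatives are tangent to `A`
  have htan : ∀ z ∈ ball (0 : V) 1, ∀ v : V, fderiv ℂ f z v ∈ A.direction := by
    intro z hz v
    have hda : HasFDerivAt f (fderiv ℂ f z) z :=
      (hf.hol.differentiableAt (isOpen_ball.mem_nhds hz)).hasFDerivAt
    have hcl : IsClosed (A.direction : Set W) := A.direction.closed_of_finiteDimensional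
    have hc : Tendsto (fun n : ℕ => ‖((n : ℂ) + 1)‖) atTop atTop := by
      have h2 : ∀ n : ℕ, ‖((n : ℂ) + 1)‖ = (n : ℝ) + 1 := fun n => by
        have : ((n : ℂ) + 1) = (((n : ℝ) + 1 : ℝ) : ℂ) := by push_cast; ring
        rw [this, Complex.norm_real, Real.norm_eq_abs, abs_of_nonneg (by positivity)]
      simp only [h2]
      exact tendsto_atTop_add_const_right _ 1 tendsto_natCast_atTop_atTop
    have hlim := hda.lim v hc
    refine hcl.mem_of_tendsto hlim ?_
    have hto : Tendsto (fun n : ℕ => z + ((n : ℂ) + 1)⁻¹ • v) atTop (𝓝 (z + (0 : ℂ) • v)) := by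
      apply Tendsto.const_add
      apply Tendsto.smul_const
      rw [tendsto_zero_iff_norm_tendsto_zero]
      simp only [norm_inv]
      exact hc.inv_tendsto_atTop
    rw [zero_smul, add_zero] at hto
    filter_upwards [hto.eventually (isOpen_ball.mem_nhds hz)] with n hn
    apply A.direction.smul_mem
    rw [← vsub_eq_sub]
    exact AffineSubspace.vsub_mem_direction (h _ hn) (h z hz)
  have hdim : Module.finrank ℂ A.direction = Module.finrank ℂ V := by
    apply le_antisymm hA
    have hinj : Function.Injective ((fderiv ℂ f 0 : V →ₗ[ℂ] W).codRestrict A.direction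
        (fun v => htan 0 h0 v)) := by
      intro x y hxy
      apply hf.imm 0 h0
      exact congrArg Subtype.val hxy
    exact LinearMap.finrank_le_finrank_of_injective hinj
  refine ⟨hdim, ?_⟩
  apply Subset.antisymm
  · rintro w ⟨z, hz, rfl⟩
    exact ⟨hf.maps hz, h z hz⟩
  -- local openness
  have hopen : ∀ z0 ∈ ball (0 : V) 1, ∀ᶠ w in 𝓝 (f z0), w ∈ A → w ∈ f '' ball (0 : V) 1 := by
    intro z0 hz0
    obtain ⟨P, hP⟩ := em2_left (hf.imm z0 hz0)
    have hst : HasStrictFDerivAt (fun z => P (f z))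
        ((ContinuousLinearEquiv.refl ℂ V : V ≃L[ℂ] V) : V →L[ℂ] V) z0 := by
      have h2 := P.hasStrictFDerivAt.comp z0 (em2_strict hf.hol hz0)
      rw [hP] at h2
      exact h2
    have himg : (fun z => P (f z)) '' ball (0 : V) 1 ∈ 𝓝 (P (f z0)) := by
      rw [← hst.map_nhds_eq_of_equiv]
      exact image_mem_map (isOpen_ball.mem_nhds hz0)
    have hPinj : ∀ d ∈ A.direction, P d = 0 → d = 0 := by
      -- `fderiv f z0 : V → A.direction` is bijective
      have hinj : Function.Injective ((fderiv ℂ f z0 : V →ₗ[ℂ] W).codRestrict A.direction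
          (fun v => htan z0 hz0 v)) := by
        intro x y hxy
        apply hf.imm z0 hz0
        exact congrArg Subtype.val hxy
      have hsurj := (LinearMap.injective_iff_surjective_of_finrank_eq_finrank hdim.symm).mp hinj
      intro d hd hPd
      obtain ⟨v, hv⟩ := hsurj ⟨d, hd⟩
      have hv' : fderiv ℂ f z0 v = d := congrArg Subtype.val hv
      have h2 : P (fderiv ℂ f z0 v) = v := by
        have h3 : (P.comp (fderiv ℂ f z0)) v = (ContinuousLinearMap.id ℂ V) v := by rw [hP]
        simpa using h3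
      rw [hv', hPd] at h2
      rw [← hv', ← h2, map_zero]
    have h3 : ∀ᶠ w in 𝓝 (f z0), P w ∈ (fun z => P (f z)) '' ball (0 : V) 1 :=
      P.continuous.continuousAt.eventually himg
    filter_upwards [h3] with w hw hwA
    obtain ⟨z, hz, hzw⟩ := hw
    refine ⟨z, hz, ?_⟩
    have h4 : f z - w ∈ A.direction := by
      rw [← vsub_eq_sub]
      exact AffineSubspace.vsub_mem_direction (h z hz) hwA
    have h5 : P (f z - w) = 0 := by rw [map_sub, sub_eq_zero]; exact hzw
    exact sub_eq_zero.mp (hPinj _ h4 h5)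
  -- connectedness along segments
  rintro w ⟨hw, hwA⟩
  set γ : ℝ → W := fun t => f 0 + (t : ℂ) • (w - f 0) with hγ
  have hγc : Continuous γ := by
    rw [hγ]; fun_prop
  have hγA : ∀ t, γ t ∈ A := by
    intro t
    have h2 : w - f 0 ∈ A.direction := by
      rw [← vsub_eq_sub]
      exact AffineSubspace.vsub_mem_direction hwA (h 0 h0)
    have h3 : (t : ℂ) • (w - f 0) ∈ A.direction := A.direction.smul_mem _ h2
    have h4 := AffineSubspace.vadd_mem_of_mem_direction h3 (h 0 h0)
    rw [vadd_eq_add, add_comm] at h4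
    exact h4
  have hγb : ∀ t ∈ Icc (0 : ℝ) 1, γ t ∈ ball (0 : W) 1 := by
    intro t ht
    have h2 : ‖f 0‖ < 1 := by simpa using hf.maps h0
    have h3 : ‖w‖ < 1 := by simpa using hw
    rw [mem_ball_zero_iff]
    have h4 : γ t = ((1 - t : ℝ) : ℂ) • f 0 + (t : ℂ) • w := by
      rw [hγ]; push_cast; module
    rw [h4]
    calc ‖((1 - t : ℝ) : ℂ) • f 0 + (t : ℂ) • w‖
        ≤ ‖((1 - t : ℝ) : ℂ) • f 0‖ + ‖(t : ℂ) • w‖ := norm_add_le _ _
      _ = (1 - t) * ‖f 0‖ + t * ‖w‖ := by
        rw [norm_smul, norm_smul, Complex.norm_real, Complex.norm_real, Real.norm_eq_abs,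
          Real.norm_eq_abs, abs_of_nonneg ht.1, abs_of_nonneg (by linarith [ht.2])]
      _ < 1 := by
        rcases eq_or_lt_of_le ht.1 with h5 | h5
        · rw [← h5]; linarith
        · nlinarith [ht.2, norm_nonneg (f 0), norm_nonneg w]
  have hcl : IsClosed ({t : ℝ | γ t ∈ f '' ball (0 : V) 1} ∩ Icc 0 1) := by
    apply IsSeqClosed.isClosed
    intro t t0 ht ht0
    have h2 : t0 ∈ Icc (0 : ℝ) 1 := isClosed_Icc.mem_of_tendsto ht0
      (Eventually.of_forall fun n => (ht n).2)
    refine ⟨?_, h2⟩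
    exact hf.image_closed (fun n => (ht n).1) (hγb t0 h2) ((hγc.tendsto t0).comp ht0)
  have hIcc := hcl.Icc_subset_of_forall_mem_nhdsWithin (a := 0) (b := 1) (by
      refine ⟨0, h0, ?_⟩
      rw [hγ]; simp) (by
      rintro t ⟨⟨z, hz, hzt⟩, _⟩
      have h2 := hopen z hz
      rw [hzt] at h2
      have h3 := (hγc.tendsto t).eventually h2
      apply mem_nhdsWithin_of_mem_nhds
      filter_upwards [h3] with u hu
      exact hu (hγA u))
  have h1 : γ 1 ∈ f '' ball (0 : V) 1 := hIcc (right_mem_Icc.mpr zero_le_one)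
  have h2 : γ 1 = w := by rw [hγ]; simp
  rwa [h2] at h1

end Pool.Agent.BdReg
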