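import Pool.Agent.BdReg.SP
import Pool.Agent.BdReg.Cpt

/-! Maps which are isometric on all complex lines through a boundary point. -/

set_option autoImplicit false

open Metric Set Filter Topology ComplexConjugate

namespace Pool.Agent.BdReg

open Pool.Agent.BallCurve

variable {V W : Type*} [NormedAddCommGroup V] [InnerProductSpace ℂ V]
  [NormedAddCommGroup W] [InnerProductSpace ℂ W]

/-! MODULE is1 -/

/-- The point `b_t = (z + s ξ)/(1 + s)`, `s = t (1 - <ξ,z>)`, of the complex line through `z` and `ξ`. -/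
noncomputable def bt (ξ z : V) (t : ℝ) : V :=
  (1 + (t : ℂ) * (1 - inner ℂ ξ z))⁻¹ • (z + ((t : ℂ) * (1 - inner ℂ ξ z)) • ξ)

private theorem is1_re {ξ z : V} (hξ : ‖ξ‖ = 1) (hz : z ∈ ball (0 : V) 1) :
    0 < (1 - inner ℂ ξ z : ℂ).re := by
  have hn : ‖z‖ < 1 := by simpa using hz
  have h1 : ‖(inner ℂ ξ z : ℂ)‖ ≤ ‖z‖ := by
    have := norm_inner_le_norm (𝕜 := ℂ) ξ z
    rwa [hξ, one_mul] at this
  have h2 : (inner ℂ ξ z : ℂ).re ≤ ‖(inner ℂ ξ z : ℂ)‖ := Complex.re_le_norm _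
  simp only [Complex.sub_re, Complex.one_re]
  linarith

private theorem is1_ne {ξ z : V} (hξ : ‖ξ‖ = 1) (hz : z ∈ ball (0 : V) 1) {t : ℝ} (ht : 0 ≤ t) :
    (1 + (t : ℂ) * (1 - inner ℂ ξ z)) ≠ 0 := by
  intro h
  have h1 := is1_re hξ hz
  have h2 := congrArg Complex.re h
  simp only [Complex.add_re, Complex.one_re, Complex.re_ofReal_mul, Complex.zero_re] at h2
  nlinarith [mul_nonneg ht h1.le]

private theorem is1_split (ξ z : V) (s : ℂ) :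
    (((1 : ℂ) + s), z + s • ξ) = ((1 : ℂ), z) + s • ((1 : ℂ), ξ) := by
  ext <;> simp

private theorem is1_qf {ξ : V} (z : V) (hξ : ‖ξ‖ = 1) (t : ℝ) :
    qf ((1 + (t : ℂ) * (1 - inner ℂ ξ z)), z + ((t : ℂ) * (1 - inner ℂ ξ z)) • ξ) =
      (1 - ‖z‖ ^ 2) + 2 * t * ‖(1 - inner ℂ ξ z : ℂ)‖ ^ 2 := by
  have h2 : hf ((1 : ℂ), z) ((1 : ℂ), ξ) = conj (1 - inner ℂ ξ z) := by
    simp [hf]
  rw [is1_split, qf_add, qf_smul, hf_smul_right, h2, qf_one, qf_one, hξ]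
  have h3 : ((t : ℂ) * (1 - inner ℂ ξ z)) * conj (1 - inner ℂ ξ z) =
      ((t * ‖(1 - inner ℂ ξ z : ℂ)‖ ^ 2 : ℝ) : ℂ) := by
    rw [mul_assoc, Complex.mul_conj, Complex.normSq_eq_norm_sq]; push_cast; ring
  rw [h3, Complex.ofReal_re]; ring

theorem bt_mem {ξ z : V} (hξ : ‖ξ‖ = 1) (hz : z ∈ ball (0 : V) 1) {t : ℝ} (ht : 0 ≤ t) :
    bt ξ z t ∈ ball (0 : V) 1 := by
  have hn : ‖z‖ < 1 := by simpa using hz
  have h1 : 0 < qf ((1 + (t : ℂ) * (1 - inner ℂ ξ z)), z + ((t : ℂ) * (1 - inner ℂ ξ z)) • ξ) := by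
    rw [is1_qf z hξ t]
    have h2 : 0 < 1 - ‖z‖ ^ 2 := by nlinarith [norm_nonneg z]
    have h3 : 0 ≤ 2 * t * ‖(1 - inner ℂ ξ z : ℂ)‖ ^ 2 := by positivity
    linarith
  exact mem_ball_of_qf_pos h1

theorem bt_mem_cline {ξ z : V} (hξ : ‖ξ‖ = 1) (hz : z ∈ ball (0 : V) 1) {t : ℝ} (ht : 0 ≤ t) :
    bt ξ z t ∈ cline z ξ := by
  have h := is1_ne hξ hz ht
  set s : ℂ := (t : ℂ) * (1 - inner ℂ ξ z) with hs
  refine ⟨(1 + s)⁻¹ * s, ?_⟩
  have h1 : z = ((1 + s)⁻¹ * (1 + s)) • z := by rw [inv_mul_cancel₀ h, one_smul]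
  have h2 : bt ξ z t = (1 + s)⁻¹ • (z + s • ξ) := rfl
  rw [h2]
  nth_rw 2 [h1]
  module

private theorem is1_Yf {a b : V} {c d : ℂ} (hc : c ≠ 0) (hd : d ≠ 0) :
    Yf a b = ‖hf (c • ((1 : ℂ), a)) (d • ((1 : ℂ), b))‖ ^ 2 /
      (qf (c • ((1 : ℂ), a)) * qf (d • ((1 : ℂ), b))) := by
  rw [Yf_eq, hf_smul_left, hf_smul_right, qf_smul, qf_smul]
  simp only [norm_mul, RCLike.norm_conj]
  have h1 : 0 < ‖c‖ := norm_pos_iff.mpr hc
  have h2 : 0 < ‖d‖ := norm_pos_iff.mpr hd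
  have h3 : (‖c‖ * (‖d‖ * ‖hf ((1 : ℂ), a) ((1 : ℂ), b)‖)) ^ 2 =
      (‖c‖ ^ 2 * ‖d‖ ^ 2) * ‖hf ((1 : ℂ), a) ((1 : ℂ), b)‖ ^ 2 := by ring
  have h4 : ‖c‖ ^ 2 * qf ((1 : ℂ), a) * (‖d‖ ^ 2 * qf ((1 : ℂ), b)) =
      (‖c‖ ^ 2 * ‖d‖ ^ 2) * (qf ((1 : ℂ), a) * qf ((1 : ℂ), b)) := by ring
  rw [h3, h4, mul_div_mul_left _ _ (by positivity)]

private theorem is1_smul {ξ z : V} {s : ℂ} (h : 1 + s ≠ 0) :
    (1 + s) • ((1 : ℂ), (1 + s)⁻¹ • (z + s • ξ)) = ((1 : ℂ) + s, z + s • ξ) := by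
  ext
  · simp
  · simp only [Prod.smul_snd, smul_smul, mul_inv_cancel₀ h, one_smul]

private theorem is1_formula {ξ z : V} (hξ : ‖ξ‖ = 1) (hz : z ∈ ball (0 : V) 1) {t : ℝ}
    (ht : 0 ≤ t) : Yf (bt ξ 0 t) (bt ξ z t) = ‖1 + 2 * (t : ℂ) * (1 - inner ℂ ξ z)‖ ^ 2 /
      ((1 + 2 * t) * ((1 - ‖z‖ ^ 2) + 2 * t * ‖(1 - inner ℂ ξ z : ℂ)‖ ^ 2)) := by
  have h0 : (0 : V) ∈ ball (0 : V) 1 := by simp
  have h1 := is1_ne hξ h0 ht
  have h2 := is1_ne hξ hz ht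
  rw [is1_Yf h1 h2]
  unfold bt
  rw [is1_smul h1, is1_smul h2, is1_qf 0 hξ t, is1_qf z hξ t]
  have h3 : hf ((1 + (t : ℂ) * (1 - inner ℂ ξ (0 : V))), (0 : V) +
      ((t : ℂ) * (1 - inner ℂ ξ (0 : V))) • ξ)
      ((1 + (t : ℂ) * (1 - inner ℂ ξ z)), z + ((t : ℂ) * (1 - inner ℂ ξ z)) • ξ) =
      1 + 2 * (t : ℂ) * (1 - inner ℂ ξ z) := by
    have hξξ : (inner ℂ ξ ξ : ℂ) = 1 := by
      rw [inner_self_eq_norm_sq_to_K, hξ]; simp
    simp only [hf, inner_zero_right, sub_zero, mul_one, zero_add, inner_smul_left,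
      inner_add_right, inner_smul_right, hξξ, map_add, map_one, Complex.conj_ofReal]
    ring
  rw [h3]
  simp only [inner_zero_right, sub_zero, norm_zero, norm_one]
  congr 2
  ring

/-- With `e = (1, ξ)` (null vector), `z^ = (1, z)`, `τ = ‖1-<ξ,z>‖²`:
`(1 + s) (1, bt) = z^ + s e`, `qf (z^ + s e) = (1-|z|²) + 2 t τ`; the same for `0^`: `0^ + t e`,
`qf = 1 + 2 t`, and `hf (0^ + t e, z^ + s e) = 1 + s + t (1-<ξ,z>) = 1 + 2 t (1-<ξ,z>)`
(as `hf (e, z^) = 1-<ξ,z>`, `hf (0^, e) = 1`, `hf (e, e) = 0`).  So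
`Yf (bt ξ 0 t) (bt ξ z t) = ‖1 + 2 t (1-<ξ,z>)‖²/((1+2t)((1-|z|²)+2tτ)) → 1`. -/
theorem Yf_bt {ξ z : V} (hξ : ‖ξ‖ = 1) (hz : z ∈ ball (0 : V) 1) :
    Tendsto (fun t : ℝ => Yf (bt ξ 0 t) (bt ξ z t)) atTop (𝓝 1) := by
  have hn : ‖z‖ < 1 := by simpa using hz
  have hu : (1 - inner ℂ ξ z : ℂ) ≠ 0 := by
    intro h
    have := is1_re hξ hz
    rw [h] at this
    simp at this
  have hu' : 0 < ‖(1 - inner ℂ ξ z : ℂ)‖ := norm_pos_iff.mpr hu
  set u : ℂ := 1 - inner ℂ ξ z with hudef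
  have hcont : ContinuousAt (fun x : ℝ => ‖(x : ℂ) + 2 * u‖ ^ 2 /
      ((x + 2) * ((1 - ‖z‖ ^ 2) * x + 2 * ‖u‖ ^ 2))) 0 := by
    apply ContinuousAt.div
    · fun_prop
    · fun_prop
    · simp only [zero_add, mul_zero]
      positivity
  have hlim : Tendsto (fun t : ℝ => ‖((t⁻¹ : ℝ) : ℂ) + 2 * u‖ ^ 2 /
      ((t⁻¹ + 2) * ((1 - ‖z‖ ^ 2) * t⁻¹ + 2 * ‖u‖ ^ 2))) atTop (𝓝 1) := by
    have h1 := hcont.tendsto.comp tendsto_inv_atTop_zero
    have h2 : (‖((0 : ℝ) : ℂ) + 2 * u‖ ^ 2 /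
      (((0 : ℝ) + 2) * ((1 - ‖z‖ ^ 2) * 0 + 2 * ‖u‖ ^ 2))) = 1 := by
      simp only [Complex.ofReal_zero, zero_add, mul_zero, norm_mul, Complex.norm_ofNat]
      field_simp
    rw [h2] at h1
    exact h1
  refine hlim.congr' ?_
  filter_upwards [eventually_gt_atTop (0 : ℝ)] with t ht
  rw [is1_formula hξ hz ht.le, ← hudef]
  have h1 : (1 : ℂ) + 2 * (t : ℂ) * u = (t : ℂ) * (((t⁻¹ : ℝ) : ℂ) + 2 * u) := by
    have : (t : ℂ) ≠ 0 := by exact_mod_cast ht.ne'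
    push_cast
    field_simp
  rw [h1, norm_mul, Complex.norm_real, Real.norm_of_nonneg ht.le, mul_pow]
  have h2 : (1 + 2 * t) * ((1 - ‖z‖ ^ 2) + 2 * t * ‖u‖ ^ 2) =
      t ^ 2 * ((t⁻¹ + 2) * ((1 - ‖z‖ ^ 2) * t⁻¹ + 2 * ‖u‖ ^ 2)) := by
    field_simp
  rw [h2, mul_div_mul_left _ _ (by positivity)]

/-- `bt ξ 0 t = (t/(1+t)) ξ`. -/
theorem bt_zero {ξ : V} {t : ℝ} (ht : 0 ≤ t) : bt ξ 0 t = ((t / (1 + t) : ℝ) : ℂ) • ξ := by
  have _ := ht
  unfold bt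
  simp only [inner_zero_right, sub_zero, mul_one, zero_add, smul_smul]
  congr 1
  push_cast
  rw [div_eq_inv_mul]

/-! MODULE is2 -/

private theorem is2_Yf_zero (v : V) : Yf 0 v = 1 / (1 - ‖v‖ ^ 2) := by
  simp [Yf]

private theorem is2_norm_eq {v : V} {w : W} (hv : v ∈ ball (0 : V) 1) (hw : w ∈ ball (0 : W) 1)
    (h : bd 0 w = bd 0 v) : ‖w‖ = ‖v‖ := by
  have h0 : (0 : V) ∈ ball (0 : V) 1 := by simp
  have h0' : (0 : W) ∈ ball (0 : W) 1 := by simp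
  have hv' : ‖v‖ < 1 := by simpa using hv
  have hw' : ‖w‖ < 1 := by simpa using hw
  have h1 := Yf_le_of_bd h0' hw h0 hv h.le
  have h2 := Yf_le_of_bd h0 hv h0' hw h.ge
  have h3 := le_antisymm h1 h2
  rw [is2_Yf_zero, is2_Yf_zero] at h3
  have h4 : 0 < 1 - ‖v‖ ^ 2 := by nlinarith [norm_nonneg v]
  have h5 : 0 < 1 - ‖w‖ ^ 2 := by nlinarith [norm_nonneg w]
  rw [div_eq_div_iff h5.ne' h4.ne'] at h3
  have h6 : ‖w‖ ^ 2 = ‖v‖ ^ 2 := by linarith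
  exact (pow_left_inj₀ (norm_nonneg _) (norm_nonneg _) two_ne_zero).mp h6

private theorem is2_qd_eq {a b : V} {c d : W} (ha : a ∈ ball (0 : V) 1) (hb : b ∈ ball (0 : V) 1)
    (hc : c ∈ ball (0 : W) 1) (hd : d ∈ ball (0 : W) 1) (h : bd a b = bd c d) :
    qd a b = qd c d := by
  rw [← cosh_bd ha hb, ← cosh_bd hc hd, h]

/-- `f 0 = 0`, `f` isometric on the complex line through `0, ξ`: there is a unit vector `η` with
`f (c ξ) = c η`. (Take `b = ξ/2`: `bd 0 (f b) = bd 0 b`, so `‖f b‖ = ‖b‖`; `schwarz_eq`.) -/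
theorem exists_eta [CompleteSpace W] {f : V → W} (hm : MapsTo f (ball 0 1) (ball 0 1))
    (hd : DifferentiableOn ℂ f (ball 0 1)) (h0 : f 0 = 0) {ξ : V} (hξ : ‖ξ‖ = 1)
    (hiso : ∀ x ∈ ball (0 : V) 1, ∀ y ∈ ball (0 : V) 1, x ∈ cline 0 ξ → y ∈ cline 0 ξ →
      bd (f x) (f y) = bd x y) :
    ∃ η : W, ‖η‖ = 1 ∧ ∀ c : ℂ, ‖c‖ < 1 → f (c • ξ) = c • η := by
  have hz : (0 : V) ∈ ball (0 : V) 1 := by simp
  set b : V := (1 / 2 : ℂ) • ξ with hbdef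
  have hbn : ‖b‖ = 1 / 2 := by
    rw [hbdef, norm_smul, hξ]; norm_num
  have hb : b ∈ ball (0 : V) 1 := by
    rw [mem_ball_zero_iff, hbn]; norm_num
  have hb0 : b ≠ 0 := by
    intro h; rw [h, norm_zero] at hbn; norm_num at hbn
  have h1 : bd (f 0) (f b) = bd 0 b :=
    hiso 0 hz b hb ⟨0, by simp⟩ ⟨1 / 2, by simp [hbdef]⟩
  rw [h0] at h1
  have h2 : ‖f b‖ = ‖b‖ := is2_norm_eq hb (hm hb) h1
  have h3 := schwarz_eq hm hd h0 hb hb0 h2
  refine ⟨(2 : ℂ) • f b, ?_, ?_⟩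
  · rw [norm_smul, h2, hbn]; norm_num
  · intro c hc
    have h4 : c • ξ = (c * 2) • b := by
      rw [hbdef, smul_smul]; congr 1; ring
    rw [h4, h3 (c * 2) (by
      rw [← h4, mem_ball_zero_iff, norm_smul, hξ, mul_one]; exact hc), smul_smul]

/-- The inequality of `norm_eq_of_julia`.  Let `z ∈ ball`, `b = bt ξ z t`, `a = bt ξ 0 t = r ξ`,
`r = t/(1+t)`, `f a = r η`.  By `qd_tri` twice, the isometry on the line through `z, ξ`, and `sp`:
`qd z a ≤ qd z b * ex b a = qd (f z) (f b) * ex b a ≤ qd (f z) (f a) * ex (f a) (f b) * ex b a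
≤ qd (f z) (r η) * (ex a b)²`, and `ex a b → 1` (`Yf_bt`).  Multiply squares by `1-r²`:
`|1-r<ξ,z>|²/(1-|z|²) ≤ |1-r<η,f z>|²/(1-|f z|²) * (ex a b)⁴`; let `t → ∞`. -/
theorem julia_of_iso [CompleteSpace W] {f : V → W} (hm : MapsTo f (ball 0 1) (ball 0 1))
    (hd : DifferentiableOn ℂ f (ball 0 1)) {ξ : V} {η : W} (hξ : ‖ξ‖ = 1) (hη : ‖η‖ = 1)
    (hη' : ∀ c : ℂ, ‖c‖ < 1 → f (c • ξ) = c • η)
    (hiso : ∀ w ∈ ball (0 : V) 1, ∀ x ∈ ball (0 : V) 1, ∀ y ∈ ball (0 : V) 1,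
      x ∈ cline w ξ → y ∈ cline w ξ → bd (f x) (f y) = bd x y) :
    ∀ z ∈ ball (0 : V) 1,
      (1 - ‖f z‖ ^ 2) * ‖1 - inner ℂ ξ z‖ ^ 2 ≤ (1 - ‖z‖ ^ 2) * ‖1 - inner ℂ η (f z)‖ ^ 2 := by
  intro z hz
  have h0 : (0 : V) ∈ ball (0 : V) 1 := by simp
  have hzn : ‖z‖ < 1 := by simpa using hz
  have hfz := hm hz
  have hfzn : ‖f z‖ < 1 := by simpa using hfz
  have hpz : 0 < 1 - ‖z‖ ^ 2 := by nlinarith [norm_nonneg z]
  have hpf : 0 < 1 - ‖f z‖ ^ 2 := by nlinarith [norm_nonneg (f z)]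
  -- the basic inequality for every `t > 0`
  have key : ∀ t : ℝ, 0 < t →
      ‖1 - ((t / (1 + t) : ℝ) : ℂ) * inner ℂ z ξ‖ ^ 2 / (1 - ‖z‖ ^ 2) ≤
      ‖1 - ((t / (1 + t) : ℝ) : ℂ) * inner ℂ (f z) η‖ ^ 2 / (1 - ‖f z‖ ^ 2) *
        ex (bt ξ 0 t) (bt ξ z t) ^ 4 := by
    intro t ht
    have ha : bt ξ 0 t ∈ ball (0 : V) 1 := bt_mem hξ h0 ht.le
    have hb : bt ξ z t ∈ ball (0 : V) 1 := bt_mem hξ hz ht.le
    have hfa := hm ha
    have hfb := hm hb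
    have h1 : qd z (bt ξ 0 t) ≤ qd z (bt ξ z t) * ex (bt ξ z t) (bt ξ 0 t) := qd_tri hz hb ha
    have h2 : qd z (bt ξ z t) = qd (f z) (f (bt ξ z t)) := by
      refine is2_qd_eq hz hb hfz hfb ?_
      exact (hiso z hz z hz _ hb ⟨0, by simp⟩ (bt_mem_cline hξ hz ht.le)).symm
    have h3 : qd (f z) (f (bt ξ z t)) ≤
        qd (f z) (f (bt ξ 0 t)) * ex (f (bt ξ 0 t)) (f (bt ξ z t)) := qd_tri hfz hfa hfb
    have h4 : ex (f (bt ξ 0 t)) (f (bt ξ z t)) ≤ ex (bt ξ 0 t) (bt ξ z t) := by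
      rw [← exp_bd hfa hfb, ← exp_bd ha hb]
      exact Real.exp_le_exp.mpr (sp hm hd ha hb)
    have h5 : ex (bt ξ z t) (bt ξ 0 t) = ex (bt ξ 0 t) (bt ξ z t) := by
      rw [← exp_bd hb ha, ← exp_bd ha hb, bd_symm]
    have h6 : 1 ≤ ex (bt ξ 0 t) (bt ξ z t) := one_le_ex ha hb
    have h7 : 1 ≤ qd (f z) (f (bt ξ 0 t)) := one_le_qd hfz hfa
    have h8 : 1 ≤ qd z (bt ξ 0 t) := one_le_qd hz ha
    have h9 : qd z (bt ξ 0 t) ≤ qd (f z) (f (bt ξ 0 t)) * ex (bt ξ 0 t) (bt ξ z t) ^ 2 := by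
      rw [h5, h2] at h1
      calc qd z (bt ξ 0 t) ≤ qd (f z) (f (bt ξ z t)) * ex (bt ξ 0 t) (bt ξ z t) := h1
        _ ≤ (qd (f z) (f (bt ξ 0 t)) * ex (bt ξ 0 t) (bt ξ z t)) * ex (bt ξ 0 t) (bt ξ z t) := by
            refine mul_le_mul_of_nonneg_right ?_ (by linarith)
            refine h3.trans ?_
            exact mul_le_mul_of_nonneg_left h4 (by linarith)
        _ = _ := by ring
    have h10 : Yf z (bt ξ 0 t) ≤ Yf (f z) (f (bt ξ 0 t)) * ex (bt ξ 0 t) (bt ξ z t) ^ 4 := by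
      have e1 : Yf z (bt ξ 0 t) = qd z (bt ξ 0 t) ^ 2 :=
        (Real.sq_sqrt (by linarith [one_le_Yf hz ha])).symm
      have e2 : Yf (f z) (f (bt ξ 0 t)) = qd (f z) (f (bt ξ 0 t)) ^ 2 :=
        (Real.sq_sqrt (by linarith [one_le_Yf hfz hfa])).symm
      rw [e1, e2]
      calc qd z (bt ξ 0 t) ^ 2 ≤ (qd (f z) (f (bt ξ 0 t)) * ex (bt ξ 0 t) (bt ξ z t) ^ 2) ^ 2 :=
            pow_le_pow_left₀ (by linarith) h9 2
        _ = _ := by ring
    have hr1 : t / (1 + t) < 1 := by rw [div_lt_one (by linarith)]; linarith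
    have hr0 : 0 ≤ t / (1 + t) := by positivity
    have hfa' : f (bt ξ 0 t) = ((t / (1 + t) : ℝ) : ℂ) • η := by
      rw [bt_zero ht.le]
      apply hη'
      rw [Complex.norm_real, Real.norm_of_nonneg hr0]
      exact hr1
    rw [hfa', bt_zero ht.le] at h10
    rw [bt_zero ht.le]
    set r : ℝ := t / (1 + t) with hr
    have hn1 : ‖((r : ℝ) : ℂ) • ξ‖ = r := by
      rw [norm_smul, hξ, mul_one, Complex.norm_real, Real.norm_of_nonneg hr0]
    have hn2 : ‖((r : ℝ) : ℂ) • η‖ = r := by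
      rw [norm_smul, hη, mul_one, Complex.norm_real, Real.norm_of_nonneg hr0]
    have hpr : 0 < 1 - r ^ 2 := by nlinarith
    unfold Yf at h10
    rw [hn1, hn2, inner_smul_right, inner_smul_right] at h10
    have h11 := mul_le_mul_of_nonneg_right h10 hpr.le
    calc ‖1 - (r : ℂ) * inner ℂ z ξ‖ ^ 2 / (1 - ‖z‖ ^ 2)
        = ‖1 - (r : ℂ) * inner ℂ z ξ‖ ^ 2 / ((1 - ‖z‖ ^ 2) * (1 - r ^ 2)) * (1 - r ^ 2) := by
          field_simp
      _ ≤ _ := h11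
      _ = _ := by field_simp
  -- the limits
  have hr : Tendsto (fun t : ℝ => t / (1 + t)) atTop (𝓝 1) := by
    have h1 : Tendsto (fun t : ℝ => 1 / (t⁻¹ + 1)) atTop (𝓝 1) := by
      have h2 : ContinuousAt (fun x : ℝ => 1 / (x + 1)) 0 := by
        apply ContinuousAt.div
        · fun_prop
        · fun_prop
        · norm_num
      have h3 := h2.tendsto.comp tendsto_inv_atTop_zero
      simp only [zero_add, div_one] at h3
      exact h3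
    refine h1.congr' ?_
    filter_upwards [eventually_gt_atTop (0 : ℝ)] with t ht
    field_simp
  have hlim1 : ∀ a : ℂ, ∀ p : ℝ, Tendsto (fun t : ℝ =>
      ‖1 - ((t / (1 + t) : ℝ) : ℂ) * a‖ ^ 2 / p) atTop (𝓝 (‖1 - a‖ ^ 2 / p)) := by
    intro a p
    have h1 : Continuous (fun x : ℝ => ‖1 - (x : ℂ) * a‖ ^ 2 / p) := by fun_prop
    have h2 := (h1.tendsto 1).comp hr
    simp only [Complex.ofReal_one, one_mul] at h2
    exact h2
  have hex : Tendsto (fun t : ℝ => ex (bt ξ 0 t) (bt ξ z t)) atTop (𝓝 1) := by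
    have h1 : Continuous (fun x : ℝ => Real.sqrt x + Real.sqrt (Real.sqrt x ^ 2 - 1)) := by
      fun_prop
    have h2 := (h1.tendsto 1).comp (Yf_bt hξ hz)
    simp only [Real.sqrt_one, one_pow, sub_self, Real.sqrt_zero, add_zero] at h2
    exact h2
  have hfin := le_of_tendsto_of_tendsto (hlim1 (inner ℂ z ξ) (1 - ‖z‖ ^ 2))
    ((hlim1 (inner ℂ (f z) η) (1 - ‖f z‖ ^ 2)).mul (hex.pow 4))
    ((eventually_gt_atTop (0 : ℝ)).mono key)
  rw [one_pow, mul_one, div_le_div_iff₀ hpz hpf] at hfin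
  have e1 : ‖(1 - inner ℂ z ξ : ℂ)‖ = ‖(1 - inner ℂ ξ z : ℂ)‖ := by
    rw [← RCLike.norm_conj (1 - inner ℂ z ξ : ℂ), map_sub, map_one, inner_conj_symm]
  have e2 : ‖(1 - inner ℂ (f z) η : ℂ)‖ = ‖(1 - inner ℂ η (f z) : ℂ)‖ := by
    rw [← RCLike.norm_conj (1 - inner ℂ (f z) η : ℂ), map_sub, map_one, inner_conj_symm]
  rw [e1, e2] at hfin
  linarith

/-! MODULE is3 -/

/-- Conclusion: compose with `L ∈ UG W`, `act L (f 0) = 0`; `exists_eta`, `julia_of_iso`,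
`norm_eq_of_julia`, `linear_of_norm_eq`: `act L (f z) = A z`; so `(1, f z) ∈ L⁻¹ (ℂ × range A)`, a
subspace of dimension `dim V + 1`. -/
theorem lin_of_iso [FiniteDimensional ℂ V] [FiniteDimensional ℂ W] {f : V → W}
    (hm : MapsTo f (ball 0 1) (ball 0 1)) (hd : DifferentiableOn ℂ f (ball 0 1)) {ξ : V}
    (hξ : ‖ξ‖ = 1)
    (hiso : ∀ w ∈ ball (0 : V) 1, ∀ x ∈ ball (0 : V) 1, ∀ y ∈ ball (0 : V) 1,
      x ∈ cline w ξ → y ∈ cline w ξ → bd (f x) (f y) = bd x y) : Lin f := by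
  have : CompleteSpace W := FiniteDimensional.complete ℂ W
  have h0 : (0 : V) ∈ ball (0 : V) 1 := by simp
  obtain ⟨L, hL, hL0⟩ := exists_act_eq_zero (hm h0)
  set g : V → W := fun z => act L (f z) with hg
  have hgm : MapsTo g (ball 0 1) (ball 0 1) := fun z hz => act_mem hL (hm hz)
  have hgd : DifferentiableOn ℂ g (ball 0 1) := (act_differentiableOn hL).comp hd hm
  have hg0 : g 0 = 0 := hL0
  have hgiso : ∀ w ∈ ball (0 : V) 1, ∀ x ∈ ball (0 : V) 1, ∀ y ∈ ball (0 : V) 1,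
      x ∈ cline w ξ → y ∈ cline w ξ → bd (g x) (g y) = bd x y := by
    intro w hw x hx y hy h1 h2
    rw [← hiso w hw x hx y hy h1 h2]
    exact bd_act hL (hm hx) (hm hy)
  obtain ⟨η, hη, hη'⟩ := exists_eta hgm hgd hg0 hξ (hgiso 0 h0)
  have hj := julia_of_iso hgm hgd hξ hη hη' hgiso
  have hn := norm_eq_of_julia hgm hgd hg0 hξ hη hj
  obtain ⟨A, hA⟩ := linear_of_norm_eq hgd hn
  refine ⟨LinearMap.range ((L.symm.toLinearEquiv.toLinearMap).comp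
    (LinearMap.prodMap (LinearMap.id : ℂ →ₗ[ℂ] ℂ) A.toLinearMap)), ?_, ?_⟩
  · refine (LinearMap.finrank_range_le _).trans ?_
    rw [Module.finrank_prod, Module.finrank_self, add_comm]
  · intro z hz
    refine ⟨((L (1, f z)).1, (L (1, f z)).1 • z), ?_⟩
    have h1 := map_one_eq hL (hm hz)
    have h2 : act L (f z) = A z := hA z hz
    rw [h2] at h1
    have h3 : LinearMap.prodMap (LinearMap.id : ℂ →ₗ[ℂ] ℂ) A.toLinearMap
        ((L (1, f z)).1, (L (1, f z)).1 • z) = L (1, f z) := by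
      conv_rhs => rw [h1]
      ext
      · simp
      · simp
    rw [LinearMap.comp_apply, h3]
    exact L.symm_apply_apply _

/-! MODULE is4 -/

private theorem is4_bdc {X : Type*} [NormedAddCommGroup X] [InnerProductSpace ℂ X] {a b : X}
    (ha : a ∈ ball (0 : X) 1) (hb : b ∈ ball (0 : X) 1) : ContinuousAt (fun x : X => bd a x) b := by
  have hm : ball (0 : X) 1 ×ˢ ball (0 : X) 1 ∈ 𝓝 ((a, b) : X × X) :=
    prod_mem_nhds (isOpen_ball.mem_nhds ha) (isOpen_ball.mem_nhds hb)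
  have h1 : Tendsto (fun p : X × X => bd p.1 p.2) (𝓝 (a, b)) (𝓝 (bd a b)) :=
    (bd_continuousOn (V := X)).continuousAt hm
  have h2 : Tendsto (fun x : X => (a, x)) (𝓝 b) (𝓝 (a, b)) :=
    tendsto_const_nhds.prodMk_nhds tendsto_id
  have h3 := h1.comp h2
  simp only [Function.comp_def] at h3
  exact h3

/-- Limit argument.  Let `x_j = ray ζ_j s_j = act ψ_j k_j` (`hf.coc`), `o_j = act ψ_j⁻¹ 0`; `bd o_j k_j = s_j → ∞`
so `‖o_j‖ → 1`; subsequence `o_j → ξ`, `‖ξ‖ = 1`.  Let `w ∈ ball`, `y_j = act ψ_j w = ray ζ'_j s'_j`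
(`exists_ray`), `s'_j = bd 0 y_j = bd o_j w → ∞`, `y_j⁺ = ray ζ'_j (s'_j + 1)`, `w_j⁺ = act ψ_j⁻¹ y_j⁺`.
`bd w w_j⁺ = 1` (`bd_ray`), so a further subsequence converges: `w_j⁺ → w'`, `bd w w' = 1`, `w' ≠ w`.
`0, y_j, y_j⁺` are on a complex line, so `o_j ∈ cline w w_j⁺` (`act_cline`), `o_j - w = c_j (w_j⁺ - w)`
with `c_j` bounded; in the limit `ξ - w = c (w' - w)`, `c ≠ 0`.
`bd x_j y_j = bd k_j w ≤ j` for large `j`, so `Df f ζ'_j s'_j = 1 - bd (f w) (f w_j⁺) ≤ 1/(j+1)`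
(`f y_j = act L_j (f w)` and so on), and in the limit `bd (f w) (f w') ≥ 1`; with `sp` equality. -/
theorem exists_xi [FiniteDimensional ℂ V] [FiniteDimensional ℂ W] {f : V → W} (hf : Eqv f)
    {ζ : ℕ → V} {s : ℕ → ℝ} (hζ : ∀ j, ‖ζ j‖ = 1) (hs : ∀ j : ℕ, (j : ℝ) ≤ s j)
    (hD : ∀ j : ℕ, ∀ ζ' : V, ∀ s' : ℝ, ‖ζ'‖ = 1 → 1 ≤ s' →
      bd (ray (ζ j) (s j)) (ray ζ' s') ≤ j → Df f ζ' s' ≤ 1 / ((j : ℝ) + 1)) :
    ∃ ξ : V, ‖ξ‖ = 1 ∧ ∀ w ∈ ball (0 : V) 1, ∃ w' ∈ ball (0 : V) 1, w' ≠ w ∧ w' ∈ cline w ξ ∧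
      bd (f w) (f w') = bd w w' := by
  have : CompleteSpace W := FiniteDimensional.complete ℂ W
  have : ProperSpace V := FiniteDimensional.proper ℂ V
  have h0 : (0 : V) ∈ ball (0 : V) 1 := by simp
  obtain ⟨K, hK, hKb, hcoc⟩ := hf.coc
  choose ψ hψ L hL k hk hψk hfe using fun j : ℕ => hcoc (ray (ζ j) (s j)) (ray_mem (hζ j) (s j))
  -- a bound on `K`
  obtain ⟨C, hC⟩ : ∃ C : ℝ, ∀ x ∈ K, bd 0 x ≤ C := by
    have h1 : ContinuousOn (fun x : V => bd 0 x) K := fun x hx =>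
      (is4_bdc h0 (hKb hx)).continuousWithinAt
    obtain ⟨C, hC⟩ := hK.exists_bound_of_continuousOn h1
    exact ⟨C, fun x hx => (le_abs_self _).trans (hC x hx)⟩
  have hCk : ∀ w ∈ ball (0 : V) 1, ∀ j, bd (k j) w ≤ C + bd 0 w := by
    intro w hw j
    have h1 := bd_tri (hKb (hk j)) h0 hw
    rw [bd_symm (k j) 0] at h1
    linarith [hC _ (hk j)]
  set o : ℕ → V := fun j => act (ψ j)⁻¹ 0 with ho
  have hψi : ∀ j, (ψ j)⁻¹ ∈ UG V := fun j => (UG V).inv_mem (hψ j)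
  have hob : ∀ j, o j ∈ ball (0 : V) 1 := fun j => act_mem (hψi j) h0
  have hψo : ∀ j, act (ψ j) (o j) = 0 := fun j => act_act_inv (hψ j) h0
  have hok : ∀ j, bd (o j) (k j) = s j := by
    intro j
    have h1 : bd (act (ψ j) (o j)) (act (ψ j) (k j)) = bd (o j) (k j) :=
      bd_act (hψ j) (hob j) (hKb (hk j))
    rw [hψo, hψk] at h1
    rw [← h1]
    have h2 := bd_ray (hζ j) 0 (s j)
    rw [ray_zero] at h2
    rw [h2, zero_sub, abs_neg, abs_of_nonneg (le_trans (Nat.cast_nonneg j) (hs j))]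
  have hbo : ∀ j : ℕ, (j : ℝ) - C ≤ bd 0 (o j) := by
    intro j
    have h1 := bd_tri (hob j) h0 (hKb (hk j))
    rw [hok, bd_symm (o j) 0] at h1
    linarith [hC _ (hk j), hs j]
  have hexp : Tendsto (fun j : ℕ => 2 * Real.exp (-2 * ((j : ℝ) - C))) atTop (𝓝 0) := by
    have h1 : Tendsto (fun j : ℕ => -2 * ((j : ℝ) - C)) atTop atBot := by
      have h2 : Tendsto (fun j : ℕ => (j : ℝ) - C) atTop atTop :=
        tendsto_atTop_add_const_right _ (-C) tendsto_natCast_atTop_atTop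
      exact h2.const_mul_atTop_of_neg (by norm_num)
    have h3 := (Real.tendsto_exp_atBot.comp h1).const_mul 2
    simpa using h3
  have hon : Tendsto (fun j => ‖o j‖) atTop (𝓝 1) := by
    have h1 : Tendsto (fun j => 1 - ‖o j‖) atTop (𝓝 0) := by
      refine squeeze_zero (fun j => ?_) (fun j => ?_) hexp
      · have : ‖o j‖ < 1 := by simpa using hob j
        linarith
      · refine (exp_le_one_sub_norm (hob j)).2.trans ?_
        have := hbo j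
        have h2 : Real.exp (-2 * bd 0 (o j)) ≤ Real.exp (-2 * ((j : ℝ) - C)) :=
          Real.exp_le_exp.mpr (by linarith)
        linarith
    have h2 := h1.const_sub 1
    simpa using h2
  obtain ⟨ξ, -, φ, hφ, hξlim⟩ := (isCompact_closedBall (0 : V) 1).tendsto_subseq
    (fun j => ball_subset_closedBall (hob j))
  have hξ : ‖ξ‖ = 1 := tendsto_nhds_unique hξlim.norm (hon.comp hφ.tendsto_atTop)
  refine ⟨ξ, hξ, ?_⟩
  intro w hw
  -- the points `y_j`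
  have hyb : ∀ j, act (ψ j) w ∈ ball (0 : V) 1 := fun j => act_mem (hψ j) hw
  choose ζ' hζ' hy using fun j : ℕ => exists_ray (hyb j) (hζ 0)
  set s' : ℕ → ℝ := fun j => bd 0 (act (ψ j) w) with hs'
  have hs'o : ∀ j, s' j = bd (o j) w := by
    intro j
    have h1 : bd (act (ψ j) (o j)) (act (ψ j) w) = bd (o j) w := bd_act (hψ j) (hob j) hw
    rw [hψo] at h1
    exact h1
  have hs'big : ∀ j : ℕ, (j : ℝ) - C - bd 0 w ≤ s' j := by
    intro j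
    have h1 := bd_tri h0 hw (hob j)
    rw [bd_symm w (o j), ← hs'o] at h1
    linarith [hbo j]
  set yp : ℕ → V := fun j => ray (ζ' j) (s' j + 1) with hyp
  have hypb : ∀ j, yp j ∈ ball (0 : V) 1 := fun j => ray_mem (hζ' j) _
  set wp : ℕ → V := fun j => act (ψ j)⁻¹ (yp j) with hwp
  have hwpb : ∀ j, wp j ∈ ball (0 : V) 1 := fun j => act_mem (hψi j) (hypb j)
  have hψwp : ∀ j, act (ψ j) (wp j) = yp j := fun j => act_act_inv (hψ j) (hypb j)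
  have hdist : ∀ j, bd w (wp j) = 1 := by
    intro j
    have h1 : bd (act (ψ j) w) (act (ψ j) (wp j)) = bd w (wp j) := bd_act (hψ j) hw (hwpb j)
    rw [← h1, hψwp, hy j]
    have h2 := bd_ray (hζ' j) (s' j) (s' j + 1)
    rw [show s' j - (s' j + 1) = -1 by ring] at h2
    simpa using h2
  -- bound for `wp`
  set ρ : ℝ := 1 - Real.exp (-2 * (bd 0 w + 1)) with hρ
  have hρ1 : ρ < 1 := by rw [hρ]; linarith [Real.exp_pos (-2 * (bd 0 w + 1))]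
  have hwpρ : ∀ j, wp j ∈ closedBall (0 : V) ρ := by
    intro j
    have h1 := (exp_le_one_sub_norm (hwpb j)).1
    have h2 := bd_tri h0 hw (hwpb j)
    rw [hdist] at h2
    have h3 : Real.exp (-2 * (bd 0 w + 1)) ≤ Real.exp (-2 * bd 0 (wp j)) :=
      Real.exp_le_exp.mpr (by linarith)
    rw [mem_closedBall_zero_iff, hρ]
    linarith
  obtain ⟨w', hw'ρ, θ, hθ, hw'lim⟩ := (isCompact_closedBall (0 : V) ρ).tendsto_subseq
    (fun j => hwpρ (φ j))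
  have hw'b : w' ∈ ball (0 : V) 1 := by
    rw [mem_closedBall_zero_iff] at hw'ρ
    rw [mem_ball_zero_iff]; linarith
  have hξlim' : Tendsto (fun j => o (φ (θ j))) atTop (𝓝 ξ) := hξlim.comp hθ.tendsto_atTop
  have hw'lim' : Tendsto (fun j => wp (φ (θ j))) atTop (𝓝 w') := hw'lim
  have hφθ : Tendsto (fun j => φ (θ j)) atTop atTop := hφ.tendsto_atTop.comp hθ.tendsto_atTop
  have hd1 : bd w w' = 1 := by
    have h1 : Tendsto (fun j => bd w (wp (φ (θ j)))) atTop (𝓝 (bd w w')) :=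
      (is4_bdc hw hw'b).tendsto.comp hw'lim'
    simp only [hdist] at h1
    exact (tendsto_nhds_unique h1 tendsto_const_nhds)
  have hne : w' ≠ w := by
    intro h
    rw [h, bd_self hw] at hd1
    norm_num at hd1
  -- the line
  have hline : ∀ j, ∃ c : ℂ, o j = w + c • (wp j - w) := by
    intro j
    have hab : act (ψ j) w ≠ yp j := by
      intro h
      have h1 : bd (act (ψ j) w) (act (ψ j) (wp j)) = bd w (wp j) := bd_act (hψ j) hw (hwpb j)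
      rw [hψwp, hdist, h, bd_self (hypb j)] at h1
      norm_num at h1
    have h1 : (0 : V) ∈ cline (act (ψ j) w) (yp j) := by
      set α : ℝ := Real.tanh (s' j) with hα
      set β : ℝ := Real.tanh (s' j + 1) with hβ
      have e1 : act (ψ j) w = (α : ℂ) • ζ' j := hy j
      have e2 : yp j = (β : ℂ) • ζ' j := rfl
      have hαβ : (β : ℂ) - α ≠ 0 := by
        intro h
        apply hab
        rw [e1, e2]
        congr 1
        linear_combination -h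
      refine ⟨-(α : ℂ) / (β - α), ?_⟩
      rw [e1, e2, ← sub_smul, smul_smul, ← add_smul, div_mul_cancel₀ _ hαβ, add_neg_cancel,
        zero_smul]
    have h2 := act_cline (hψi j) (hyb j) (hypb j) h0 hab h1
    rw [act_inv_act (hψ j) hw] at h2
    exact h2
  have hmem : w' ∈ cline w ξ := by
    have hwp0 : ∀ j, wp j - w ≠ 0 := by
      intro j h
      have h1 := hdist j
      rw [sub_eq_zero.mp h, bd_self hw] at h1
      norm_num at h1
    have hline' : ∀ j, o j - w = (inner ℂ (wp j - w) (o j - w) / inner ℂ (wp j - w) (wp j - w)) •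
        (wp j - w) := by
      intro j
      obtain ⟨c, hc⟩ := hline j
      have h1 : o j - w = c • (wp j - w) := by rw [hc]; abel
      have h2 : (inner ℂ (wp j - w) (wp j - w) : ℂ) ≠ 0 := inner_self_ne_zero.mpr (hwp0 j)
      rw [h1, inner_smul_right, mul_div_assoc, div_self h2, mul_one]
    have h2 : (inner ℂ (w' - w) (w' - w) : ℂ) ≠ 0 := inner_self_ne_zero.mpr (sub_ne_zero.mpr hne)
    have hl1 : Tendsto (fun j => o (φ (θ j)) - w) atTop (𝓝 (ξ - w)) := hξlim'.sub_const w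
    have hl2 : Tendsto (fun j => wp (φ (θ j)) - w) atTop (𝓝 (w' - w)) := hw'lim'.sub_const w
    have hl3 := ((hl2.inner hl1 (𝕜 := ℂ)).div (hl2.inner hl2 (𝕜 := ℂ)) h2).smul hl2
    have hl4 : ξ - w = (inner ℂ (w' - w) (ξ - w) / inner ℂ (w' - w) (w' - w)) • (w' - w) := by
      refine tendsto_nhds_unique hl1 (hl3.congr ?_)
      intro j
      exact (hline' (φ (θ j))).symm
    set c : ℂ := inner ℂ (w' - w) (ξ - w) / inner ℂ (w' - w) (w' - w) with hc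
    have hc0 : c ≠ 0 := by
      intro h
      rw [h, zero_smul, sub_eq_zero] at hl4
      have : ‖w‖ < 1 := by simpa using hw
      rw [← hl4, hξ] at this
      exact lt_irrefl _ this
    refine ⟨c⁻¹, ?_⟩
    rw [hl4, smul_smul, inv_mul_cancel₀ hc0, one_smul]
    abel
  refine ⟨w', hw'b, hne, hmem, ?_⟩
  apply le_antisymm (sp hf.maps hf.hol hw hw'b)
  rw [hd1]
  -- the deficit
  have hfw : f w ∈ ball (0 : W) 1 := hf.maps hw
  have hfw' : f w' ∈ ball (0 : W) 1 := hf.maps hw'b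
  have hflim : Tendsto (fun j => f (wp (φ (θ j)))) atTop (𝓝 (f w')) := by
    have h1 : ContinuousAt f w' := hf.hol.continuousOn.continuousAt (isOpen_ball.mem_nhds hw'b)
    exact h1.tendsto.comp hw'lim'
  have hlim : Tendsto (fun j => bd (f w) (f (wp (φ (θ j))))) atTop (𝓝 (bd (f w) (f w'))) :=
    (is4_bdc hfw hfw').tendsto.comp hflim
  have hlow : ∀ᶠ j : ℕ in atTop, 1 - 1 / ((j : ℝ) + 1) ≤ bd (f w) (f (wp j)) := by
    obtain ⟨N, hN⟩ := exists_nat_ge (C + bd 0 w + 1)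
    filter_upwards [eventually_ge_atTop N] with j hj
    have hj' : C + bd 0 w + 1 ≤ j := hN.trans (by exact_mod_cast hj)
    have h1 : 1 ≤ s' j := by linarith [hs'big j]
    have h2 : bd (ray (ζ j) (s j)) (ray (ζ' j) (s' j)) ≤ j := by
      rw [← hy j, ← hψk j, bd_act (hψ j) (hKb (hk j)) hw]
      linarith [hCk w hw j]
    have h3 := hD j (ζ' j) (s' j) (hζ' j) h1 h2
    unfold Df at h3
    have e1 : f (ray (ζ' j) (s' j)) = act (L j) (f w) := by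
      rw [← hy j, hfe j w hw]
    have e2 : f (ray (ζ' j) (s' j + 1)) = act (L j) (f (wp j)) := by
      rw [← hfe j _ (hwpb j), hψwp]
    rw [e1, e2, bd_act (hL j) hfw (hf.maps (hwpb j))] at h3
    linarith
  have hone : Tendsto (fun j : ℕ => 1 - 1 / ((j : ℝ) + 1)) atTop (𝓝 1) := by
    have := tendsto_one_div_add_atTop_nhds_zero_nat (𝕜 := ℝ)
    have h2 := this.const_sub 1
    simpa using h2
  exact le_of_tendsto_of_tendsto (hone.comp hφθ) hlim (hφθ.eventually hlow)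

/-! MODULE is5 -/

/-- Claim (a): if `f` is not `Lin`, bad segments are everywhere.  Otherwise for all `j` (`R = j`,
`ε = 1/(j+1)`) there is a counterexample; `exists_xi`, `sp_eq` (the line through `w, w'` is the line
through `w, ξ`), `lin_of_iso`. -/
theorem claim_a [FiniteDimensional ℂ V] [FiniteDimensional ℂ W] {f : V → W} (hf : Eqv f)
    (hl : ¬ Lin f) :
    ∃ R > (0 : ℝ), ∃ ε > (0 : ℝ), ∀ ζ : V, ∀ s : ℝ, ‖ζ‖ = 1 → R ≤ s →
      ∃ ζ' : V, ∃ s' : ℝ, ‖ζ'‖ = 1 ∧ 1 ≤ s' ∧ bd (ray ζ s) (ray ζ' s') ≤ R ∧ ε ≤ Df f ζ' s' := by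
  have : CompleteSpace W := FiniteDimensional.complete ℂ W
  by_contra hcon
  push Not at hcon
  have hpos : ∀ j : ℕ, (0 : ℝ) < (j : ℝ) + 1 := fun j => by positivity
  choose ζ s hζ hs hD using fun j : ℕ => hcon ((j : ℝ) + 1) (hpos j) (1 / ((j : ℝ) + 1))
    (by have := hpos j; positivity)
  obtain ⟨ξ, hξ, hw⟩ := exists_xi hf (ζ := ζ) (s := s) hζ (fun j => by linarith [hs j])
    (fun j ζ' s' h1 h2 h3 => (hD j ζ' s' h1 h2 (by linarith)).le)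
  apply hl
  refine lin_of_iso hf.maps hf.hol hξ ?_
  intro w hwb x hx y hy hxl hyl
  obtain ⟨w', hw'b, hne, hmem, he⟩ := hw w hwb
  have hiso := (sp_eq hf.maps hf.hol hwb hw'b hne.symm he).1
  have hsub : ∀ v : V, v ∈ cline w ξ → v ∈ cline w w' := by
    rintro v ⟨d, hd⟩
    obtain ⟨c, hc⟩ := hmem
    have hc0 : c ≠ 0 := by
      intro h
      apply hne
      rw [hc, h, zero_smul, add_zero]
    refine ⟨d * c⁻¹, ?_⟩
    have h1 : w' - w = c • (ξ - w) := by rw [hc]; abel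
    rw [h1, smul_smul, mul_assoc, inv_mul_cancel₀ hc0, mul_one]
    exact hd
  exact hiso x hx y hy (hsub x hxl) (hsub y hyl)

end Pool.Agent.BdReg
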