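import Pool.Agent.BdReg.Defs

/-! Metric properties of `bd`. -/

set_option autoImplicit false

open Metric Set Filter Topology ComplexConjugate

namespace Pool.Agent.BdReg

open Pool.Agent.BallCurve

variable {V W : Type*} [NormedAddCommGroup V] [InnerProductSpace ℂ V]
  [NormedAddCommGroup W] [InnerProductSpace ℂ W]

/-! MODULE mt1 -/

private theorem mt1_pos {a : V} (ha : a ∈ ball (0 : V) 1) : 0 < 1 - ‖a‖ ^ 2 := by
  have h : ‖a‖ < 1 := by simpa using ha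
  nlinarith [norm_nonneg a]

/-- `|1-<a,b>|^2 >= (1-|a||b|)^2 >= (1-|a|^2)(1-|b|^2)`. -/
theorem one_le_Yf {a b : V} (ha : a ∈ ball (0 : V) 1) (hb : b ∈ ball (0 : V) 1) :
    1 ≤ Yf a b := by
  have hA := mt1_pos ha
  have hB := mt1_pos hb
  have hna : ‖a‖ < 1 := by simpa using ha
  have hnb : ‖b‖ < 1 := by simpa using hb
  rw [Yf, le_div_iff₀ (mul_pos hA hB), one_mul]
  have h1 : 1 - ‖a‖ * ‖b‖ ≤ ‖1 - inner ℂ a b‖ := by
    have h2 := norm_sub_norm_le (1 : ℂ) (inner ℂ a b)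
    have h3 := norm_inner_le_norm (𝕜 := ℂ) a b
    rw [norm_one] at h2
    linarith
  have h2 : 0 ≤ 1 - ‖a‖ * ‖b‖ := by nlinarith [norm_nonneg a, norm_nonneg b]
  have h3 : (1 - ‖a‖ * ‖b‖) ^ 2 ≤ ‖1 - inner ℂ a b‖ ^ 2 := pow_le_pow_left₀ h2 h1 2
  nlinarith [sq_nonneg (‖a‖ - ‖b‖)]

theorem Yf_symm (a b : V) : Yf a b = Yf b a := by
  rw [Yf, Yf, mul_comm (1 - ‖a‖ ^ 2)]
  have h : ‖1 - inner ℂ a b‖ = ‖1 - inner ℂ b a‖ := by
    rw [← RCLike.norm_conj (1 - inner ℂ a b), map_sub, map_one, inner_conj_symm]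
  rw [h]

theorem one_le_qd {a b : V} (ha : a ∈ ball (0 : V) 1) (hb : b ∈ ball (0 : V) 1) :
    1 ≤ qd a b := by
  rw [qd, ← Real.sqrt_one]
  exact Real.sqrt_le_sqrt (one_le_Yf ha hb)

theorem qd_symm (a b : V) : qd a b = qd b a := by
  rw [qd, qd, Yf_symm]

theorem one_le_ex {a b : V} (ha : a ∈ ball (0 : V) 1) (hb : b ∈ ball (0 : V) 1) :
    1 ≤ ex a b := by
  rw [ex]
  have h1 := one_le_qd ha hb
  have h2 := Real.sqrt_nonneg (qd a b ^ 2 - 1)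
  linarith

theorem bd_nonneg {a b : V} (ha : a ∈ ball (0 : V) 1) (hb : b ∈ ball (0 : V) 1) :
    0 ≤ bd a b := by
  exact Real.log_nonneg (one_le_ex ha hb)

theorem bd_symm (a b : V) : bd a b = bd b a := by
  rw [bd, bd, ex, ex, qd_symm]

private theorem mt1_inv {a b : V} (ha : a ∈ ball (0 : V) 1) (hb : b ∈ ball (0 : V) 1) :
    (ex a b)⁻¹ = qd a b - Real.sqrt (qd a b ^ 2 - 1) := by
  have h1 := one_le_qd ha hb
  have h2 : 0 ≤ qd a b ^ 2 - 1 := by nlinarith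
  have h3 := Real.sq_sqrt h2
  have h4 : ex a b * (qd a b - Real.sqrt (qd a b ^ 2 - 1)) = 1 := by
    rw [ex]
    nlinarith
  exact inv_eq_of_mul_eq_one_right h4

/-- `ex + ex^-1 = 2 qd`. -/
theorem cosh_bd {a b : V} (ha : a ∈ ball (0 : V) 1) (hb : b ∈ ball (0 : V) 1) :
    Real.cosh (bd a b) = qd a b := by
  have h1 := one_le_qd ha hb
  have h2 := mt1_inv ha hb
  rw [bd, Real.cosh_log (lt_of_lt_of_le one_pos (one_le_ex ha hb)), h2, ex]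
  ring

theorem exp_bd {a b : V} (ha : a ∈ ball (0 : V) 1) (hb : b ∈ ball (0 : V) 1) :
    Real.exp (bd a b) = ex a b := by
  rw [bd, Real.exp_log (lt_of_lt_of_le one_pos (one_le_ex ha hb))]

theorem bd_act {L : (ℂ × V) ≃L[ℂ] (ℂ × V)} (hL : L ∈ UG V) {a b : V}
    (ha : a ∈ ball (0 : V) 1) (hb : b ∈ ball (0 : V) 1) : bd (act L a) (act L b) = bd a b := by
  rw [bd, bd, ex, ex, qd, qd, Yf_act hL ha hb]

/-- `Yf a b` decides `bd a b`. -/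
theorem bd_eq_of_Yf {a b : V} {c d : W} (h : Yf a b = Yf c d) : bd a b = bd c d := by
  rw [bd, bd, ex, ex, qd, qd, h]

theorem bd_le_of_Yf {a b : V} {c d : W} (ha : a ∈ ball (0 : V) 1) (hb : b ∈ ball (0 : V) 1)
    (h : Yf a b ≤ Yf c d) : bd a b ≤ bd c d := by
  have h1 := one_le_ex ha hb
  have h2 : qd a b ≤ qd c d := Real.sqrt_le_sqrt h
  have h3 := one_le_qd ha hb
  have h4 : Real.sqrt (qd a b ^ 2 - 1) ≤ Real.sqrt (qd c d ^ 2 - 1) :=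
    Real.sqrt_le_sqrt (by nlinarith)
  exact Real.log_le_log (lt_of_lt_of_le one_pos h1) (by rw [ex, ex]; exact add_le_add h2 h4)

theorem Yf_le_of_bd {a b : V} {c d : W} (ha : a ∈ ball (0 : V) 1) (hb : b ∈ ball (0 : V) 1)
    (hc : c ∈ ball (0 : W) 1) (hd : d ∈ ball (0 : W) 1) (h : bd a b ≤ bd c d) :
    Yf a b ≤ Yf c d := by
  have h1 := bd_nonneg ha hb
  have h2 : Real.cosh (bd a b) ≤ Real.cosh (bd c d) := by
    rw [Real.cosh_le_cosh, abs_of_nonneg h1, abs_of_nonneg (h1.trans h)]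
    exact h
  rw [cosh_bd ha hb, cosh_bd hc hd] at h2
  have h4 : qd a b ^ 2 = Yf a b := by
    rw [qd, Real.sq_sqrt (zero_le_one.trans (one_le_Yf ha hb))]
  have h5 : qd c d ^ 2 = Yf c d := by
    rw [qd, Real.sq_sqrt (zero_le_one.trans (one_le_Yf hc hd))]
  rw [← h4, ← h5]
  exact pow_le_pow_left₀ (zero_le_one.trans (one_le_qd ha hb)) h2 2

/-! MODULE mt2 -/

private theorem mt2_qd {x y : V} (hx : x ∈ ball (0 : V) 1) (hy : y ∈ ball (0 : V) 1) :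
    qd x y ≤ (1 + ‖x‖ * ‖y‖) / (Real.sqrt (1 - ‖x‖ ^ 2) * Real.sqrt (1 - ‖y‖ ^ 2)) := by
  have h2 := mt1_pos hx
  have h3 := mt1_pos hy
  have h4 := Real.sqrt_pos.2 h2
  have h5 := Real.sqrt_pos.2 h3
  rw [qd, Yf, Real.sqrt_div (sq_nonneg _), Real.sqrt_mul h2.le, Real.sqrt_sq (norm_nonneg _)]
  refine div_le_div_of_nonneg_right ?_ (mul_pos h4 h5).le
  have h6 := norm_sub_le (1 : ℂ) (inner ℂ x y)
  have h7 := norm_inner_le_norm (𝕜 := ℂ) x y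
  rw [norm_one] at h6
  linarith

private theorem mt2_qd0 {x : V} (hx : x ∈ ball (0 : V) 1) :
    qd x 0 = 1 / Real.sqrt (1 - ‖x‖ ^ 2) := by
  rw [qd, Yf, inner_zero_right, sub_zero, norm_one, norm_zero, one_pow]
  rw [show (1 : ℝ) - 0 ^ 2 = 1 by norm_num, mul_one, Real.sqrt_div zero_le_one, Real.sqrt_one]

private theorem mt2_sq0 {x : V} (hx : x ∈ ball (0 : V) 1) :
    Real.sqrt (qd x 0 ^ 2 - 1) = ‖x‖ / Real.sqrt (1 - ‖x‖ ^ 2) := by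
  have h2 := mt1_pos hx
  rw [mt2_qd0 hx, div_pow, one_pow, Real.sq_sqrt h2.le]
  have h1 : 1 / (1 - ‖x‖ ^ 2) - 1 = ‖x‖ ^ 2 / (1 - ‖x‖ ^ 2) := by
    field_simp
    ring
  rw [h1, Real.sqrt_div (sq_nonneg _), Real.sqrt_sq (norm_nonneg _)]

private theorem mt2_ex0 {y : V} (hy : y ∈ ball (0 : V) 1) :
    ex 0 y = (1 + ‖y‖) / Real.sqrt (1 - ‖y‖ ^ 2) := by
  rw [ex, qd_symm, mt2_sq0 hy, mt2_qd0 hy, add_div]

/-- Triangle inequality in the form `cosh d(a,c) ≤ cosh d(a,b) exp d(b,c)`.  Proof: by transitivity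
(`exists_act_eq_zero`, `Yf_act`) `b = 0`; then `qd a c = |1-<a,c>|/(√(1-|a|²)√(1-|c|²)) ≤
(1+|a||c|)/(√(1-|a|²)√(1-|c|²)) = cosh x cosh y + sinh x sinh y`, `cosh x = qd a 0 = 1/√(1-|a|²)`,
`sinh x = |a|/√(1-|a|²)`, and `cosh x cosh y + sinh x sinh y ≤ cosh x (cosh y + sinh y)`. -/
theorem qd_tri {a b c : V} (ha : a ∈ ball (0 : V) 1) (hb : b ∈ ball (0 : V) 1)
    (hc : c ∈ ball (0 : V) 1) : qd a c ≤ qd a b * ex b c := by
  obtain ⟨L, hL, hL0⟩ := exists_act_eq_zero hb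
  have e1 : qd a c = qd (act L a) (act L c) := by rw [qd, qd, Yf_act hL ha hc]
  have e2 : qd a b = qd (act L a) 0 := by rw [qd, qd, ← hL0, Yf_act hL ha hb]
  have e3 : ex b c = ex 0 (act L c) := by rw [ex, ex, qd, qd, ← hL0, Yf_act hL hb hc]
  rw [e1, e2, e3]
  have hx := act_mem hL ha
  have hy := act_mem hL hc
  have hnx : ‖act L a‖ < 1 := by simpa using hx
  have h1 := mt2_qd hx hy
  rw [mt2_qd0 hx, mt2_ex0 hy, div_mul_div_comm, one_mul]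
  refine h1.trans ?_
  have h2 := mt1_pos hx
  have h3 := mt1_pos hy
  have h4 := Real.sqrt_pos.2 h2
  have h5 := Real.sqrt_pos.2 h3
  refine div_le_div_of_nonneg_right ?_ (mul_pos h4 h5).le
  nlinarith [norm_nonneg (act L c), norm_nonneg (act L a)]

private theorem mt2_sinh {x : V} (hx : x ∈ ball (0 : V) 1) :
    Real.sinh (bd x 0) = ‖x‖ / Real.sqrt (1 - ‖x‖ ^ 2) := by
  have h0 : (0 : V) ∈ ball (0 : V) 1 := by simp
  rw [bd, Real.sinh_log (lt_of_lt_of_le one_pos (one_le_ex hx h0)), mt1_inv hx h0, ex, mt2_sq0 hx]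
  ring

/-- The same computation: `cosh d(a,c) ≤ cosh (d(a,b) + d(b,c))`. -/
theorem bd_tri {a b c : V} (ha : a ∈ ball (0 : V) 1) (hb : b ∈ ball (0 : V) 1)
    (hc : c ∈ ball (0 : V) 1) : bd a c ≤ bd a b + bd b c := by
  obtain ⟨L, hL, hL0⟩ := exists_act_eq_zero hb
  have e1 : bd a c = bd (act L a) (act L c) := (bd_act hL ha hc).symm
  have e2 : bd a b = bd (act L a) 0 := by rw [← hL0, bd_act hL ha hb]
  have e3 : bd b c = bd (act L c) 0 := by rw [← hL0, bd_act hL hc hb, bd_symm]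
  rw [e1, e2, e3]
  have hx := act_mem hL ha
  have hy := act_mem hL hc
  have h0 : (0 : V) ∈ ball (0 : V) 1 := by simp
  have n1 := bd_nonneg hx hy
  have n2 := bd_nonneg hx h0
  have n3 := bd_nonneg hy h0
  have h1 : Real.cosh (bd (act L a) (act L c)) ≤ Real.cosh (bd (act L a) 0 + bd (act L c) 0) := by
    rw [Real.cosh_add, cosh_bd hx hy, cosh_bd hx h0, cosh_bd hy h0, mt2_sinh hx, mt2_sinh hy,
      mt2_qd0 hx, mt2_qd0 hy, div_mul_div_comm, div_mul_div_comm, ← add_div, one_mul]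
    exact mt2_qd hx hy
  rw [Real.cosh_le_cosh, abs_of_nonneg n1, abs_of_nonneg (add_nonneg n2 n3)] at h1
  exact h1

theorem bd_self {a : V} (ha : a ∈ ball (0 : V) 1) : bd a a = 0 := by
  have h1 := mt1_pos ha
  have h2 : Yf a a = 1 := by
    rw [Yf, inner_self_eq_norm_sq_to_K]
    have h3 : (1 : ℂ) - ((‖a‖ : ℝ) : ℂ) ^ 2 = ((1 - ‖a‖ ^ 2 : ℝ) : ℂ) := by push_cast; ring
    have h4 : ‖(1 : ℂ) - ((‖a‖ : ℝ) : ℂ) ^ 2‖ = 1 - ‖a‖ ^ 2 := by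
      rw [h3, Complex.norm_real, Real.norm_of_nonneg h1.le]
    rw [show ‖(1 : ℂ) - (algebraMap ℝ ℂ ‖a‖) ^ 2‖ = 1 - ‖a‖ ^ 2 from h4]
    field_simp
  rw [bd, ex, qd, h2, Real.sqrt_one]
  norm_num

/-- `bd a b = 0` iff `a = b`: reduce to `b = 0`. -/
theorem eq_of_bd_eq_zero {a b : V} (ha : a ∈ ball (0 : V) 1) (hb : b ∈ ball (0 : V) 1)
    (h : bd a b = 0) : a = b := by
  obtain ⟨L, hL, hL0⟩ := exists_act_eq_zero hb
  have hx := act_mem hL ha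
  have h0 : (0 : V) ∈ ball (0 : V) 1 := by simp
  have h1 : bd (act L a) 0 = 0 := by rw [← hL0, bd_act hL ha hb, h]
  have h2 := mt2_sinh hx
  rw [h1, Real.sinh_zero] at h2
  have h3 := Real.sqrt_pos.2 (mt1_pos hx)
  have h4 : ‖act L a‖ = 0 := by
    rcases div_eq_zero_iff.1 h2.symm with h5 | h5
    · exact h5
    · exact absurd h5 h3.ne'
  exact act_injOn hL ha hb ((norm_eq_zero.1 h4).trans hL0.symm)

/-! MODULE mt3 -/

private theorem mt3_norm {ζ : V} (hζ : ‖ζ‖ = 1) (s : ℝ) : ‖ray ζ s‖ = |Real.tanh s| := by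
  unfold ray
  rw [norm_smul, hζ, mul_one, Complex.norm_real, Real.norm_eq_abs]

theorem ray_mem {ζ : V} (hζ : ‖ζ‖ = 1) (s : ℝ) : ray ζ s ∈ ball (0 : V) 1 := by
  rw [mem_ball_zero_iff, mt3_norm hζ]
  exact Real.abs_tanh_lt_one s

theorem ray_zero (ζ : V) : ray ζ 0 = 0 := by
  unfold ray
  rw [Real.tanh_zero, Complex.ofReal_zero, zero_smul]

theorem ray_continuous (ζ : V) : Continuous (ray ζ) := by
  have h1 : Continuous Real.tanh := by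
    have h2 : Real.tanh = fun x => Real.sinh x / Real.cosh x :=
      funext fun x => Real.tanh_eq_sinh_div_cosh x
    rw [h2]
    exact Real.continuous_sinh.div Real.continuous_cosh fun x => (Real.cosh_pos x).ne'
  unfold ray
  exact (Complex.continuous_ofReal.comp h1).smul continuous_const

/-- `Yf (ray ζ s) (ray ζ' t) = |cosh s cosh t - sinh s sinh t <ζ,ζ'>|^2`. -/
theorem Yf_ray {ζ ζ' : V} (hζ : ‖ζ‖ = 1) (hζ' : ‖ζ'‖ = 1) (s t : ℝ) :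
    Yf (ray ζ s) (ray ζ' t) = ‖((Real.cosh s * Real.cosh t : ℝ) : ℂ) -
      ((Real.sinh s * Real.sinh t : ℝ) : ℂ) * inner ℂ ζ ζ'‖ ^ 2 := by
  have hcs := Real.cosh_pos s
  have hct := Real.cosh_pos t
  have hp : 0 < Real.cosh s * Real.cosh t := by positivity
  have h1 : ∀ x : ℝ, 1 - |Real.tanh x| ^ 2 = 1 / Real.cosh x ^ 2 := by
    intro x
    have hx := (Real.cosh_pos x).ne'
    rw [sq_abs, Real.tanh_eq_sinh_div_cosh, div_pow, eq_div_iff (pow_ne_zero 2 hx), sub_mul,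
      div_mul_cancel₀ _ (pow_ne_zero 2 hx), one_mul, Real.cosh_sq_sub_sinh_sq]
  have h2 : ((Real.cosh s * Real.cosh t : ℝ) : ℂ) -
      ((Real.sinh s * Real.sinh t : ℝ) : ℂ) * inner ℂ ζ ζ' =
      ((Real.cosh s * Real.cosh t : ℝ) : ℂ) * (1 - inner ℂ (ray ζ s) (ray ζ' t)) := by
    unfold ray
    rw [inner_smul_left, inner_smul_right, Complex.conj_ofReal, Real.tanh_eq_sinh_div_cosh,
      Real.tanh_eq_sinh_div_cosh]
    have h3 : ((Real.cosh s : ℝ) : ℂ) ≠ 0 := by exact_mod_cast hcs.ne'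
    have h4 : ((Real.cosh t : ℝ) : ℂ) ≠ 0 := by exact_mod_cast hct.ne'
    simp only [Complex.ofReal_mul, Complex.ofReal_div]
    field_simp
  rw [h2, norm_mul, Complex.norm_real, Real.norm_of_nonneg hp.le]
  unfold Yf
  rw [mt3_norm hζ, mt3_norm hζ', h1, h1]
  field_simp

theorem bd_ray {ζ : V} (hζ : ‖ζ‖ = 1) (s t : ℝ) : bd (ray ζ s) (ray ζ t) = |s - t| := by
  have h1 := Yf_ray hζ hζ s t
  have hζζ : (inner ℂ ζ ζ : ℂ) = 1 := by
    rw [inner_self_eq_norm_sq_to_K, hζ]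
    norm_num
  rw [hζζ, mul_one, ← Complex.ofReal_sub, ← Real.cosh_sub, Complex.norm_real,
    Real.norm_of_nonneg (Real.cosh_pos _).le] at h1
  have h2 := cosh_bd (ray_mem hζ s) (ray_mem hζ t)
  unfold qd at h2
  rw [h1, Real.sqrt_sq (Real.cosh_pos _).le] at h2
  have h3 := bd_nonneg (ray_mem hζ s) (ray_mem hζ t)
  apply le_antisymm
  · have h4 := Real.cosh_le_cosh.1 h2.le
    rwa [abs_of_nonneg h3] at h4
  · have h4 := Real.cosh_le_cosh.1 h2.ge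
    rwa [abs_of_nonneg h3] at h4

private theorem mt3_tanh {v : V} (hv : v ∈ ball (0 : V) 1) : Real.tanh (bd 0 v) = ‖v‖ := by
  have h0 : (0 : V) ∈ ball (0 : V) 1 := by simp
  have hvn : ‖v‖ < 1 := by simpa using hv
  have hv0 := norm_nonneg v
  have hp : 0 < 1 - ‖v‖ ^ 2 := by nlinarith
  have h1 : Real.cosh (bd 0 v) ^ 2 = 1 / (1 - ‖v‖ ^ 2) := by
    rw [cosh_bd h0 hv]
    unfold qd
    rw [Real.sq_sqrt (le_trans zero_le_one (one_le_Yf h0 hv))]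
    unfold Yf
    simp
  have hc := Real.cosh_pos (bd 0 v)
  have h2 : Real.tanh (bd 0 v) ^ 2 = ‖v‖ ^ 2 := by
    rw [Real.tanh_eq_sinh_div_cosh, div_pow, Real.sinh_sq, h1]
    field_simp
    ring
  have h3 : 0 ≤ Real.tanh (bd 0 v) := by
    rw [Real.tanh_eq_sinh_div_cosh]
    exact div_nonneg (Real.sinh_nonneg_iff.2 (bd_nonneg h0 hv)) hc.le
  exact (pow_left_inj₀ h3 hv0 two_ne_zero).1 h2

/-- Every point of the ball is on a ray (`s = bd 0 v`; if `v = 0` any direction `ζ0`). -/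
theorem exists_ray {v : V} (hv : v ∈ ball (0 : V) 1) {ζ0 : V} (hζ0 : ‖ζ0‖ = 1) :
    ∃ ζ : V, ‖ζ‖ = 1 ∧ v = ray ζ (bd 0 v) := by
  by_cases h0 : v = 0
  · refine ⟨ζ0, hζ0, ?_⟩
    unfold ray
    rw [mt3_tanh hv, h0, norm_zero, Complex.ofReal_zero, zero_smul]
  · have hn : ‖v‖ ≠ 0 := norm_ne_zero_iff.2 h0
    refine ⟨((‖v‖⁻¹ : ℝ) : ℂ) • v, ?_, ?_⟩
    · rw [norm_smul, Complex.norm_real, norm_inv, norm_norm, inv_mul_cancel₀ hn]
    · unfold ray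
      rw [mt3_tanh hv, smul_smul, ← Complex.ofReal_mul, mul_inv_cancel₀ hn, Complex.ofReal_one,
        one_smul]

/-- `1 - |v| = 1 - tanh d = 2/(e^(2d)+1)`, `d = bd 0 v`. -/
theorem exp_le_one_sub_norm {v : V} (hv : v ∈ ball (0 : V) 1) :
    Real.exp (-2 * bd 0 v) ≤ 1 - ‖v‖ ∧ 1 - ‖v‖ ≤ 2 * Real.exp (-2 * bd 0 v) := by
  have h0 : (0 : V) ∈ ball (0 : V) 1 := by simp
  have hd := bd_nonneg h0 hv
  rw [← mt3_tanh hv]
  obtain ⟨d, hde⟩ : ∃ d, d = bd 0 v := ⟨_, rfl⟩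
  rw [← hde] at hd ⊢
  have hE := Real.exp_pos d
  have hE1 : 1 ≤ Real.exp d := Real.one_le_exp hd
  obtain ⟨x, hx⟩ : ∃ x, x = Real.exp (-2 * d) := ⟨_, rfl⟩
  have hx0 : 0 < x := by rw [hx]; exact Real.exp_pos _
  have hx1 : x ≤ 1 := by rw [hx]; exact Real.exp_le_one_iff.2 (by linarith)
  have h1 : 1 - Real.tanh d = 2 * x / (1 + x) := by
    rw [Real.tanh_eq_sinh_div_cosh, Real.sinh_eq, Real.cosh_eq, hx,
      show -2 * d = -d + -d by ring, Real.exp_add, Real.exp_neg]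
    field_simp
    ring
  rw [h1, ← hx]
  constructor
  · rw [le_div_iff₀ (by linarith)]
    nlinarith
  · rw [div_le_iff₀ (by linarith)]
    nlinarith

/-- `bd` is continuous on the ball. -/
theorem bd_continuousOn : ContinuousOn (fun p : V × V => bd p.1 p.2)
    (ball (0 : V) 1 ×ˢ ball (0 : V) 1) := by
  have hY : ContinuousOn (fun p : V × V => Yf p.1 p.2) (ball (0 : V) 1 ×ˢ ball (0 : V) 1) := by
    unfold Yf
    refine ContinuousOn.div ?_ ?_ ?_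
    · fun_prop
    · fun_prop
    · rintro ⟨a, b⟩ ⟨ha, hb⟩
      have ha' : ‖a‖ < 1 := by simpa using ha
      have hb' : ‖b‖ < 1 := by simpa using hb
      have h1 : 0 < 1 - ‖a‖ ^ 2 := by nlinarith [norm_nonneg a]
      have h2 : 0 < 1 - ‖b‖ ^ 2 := by nlinarith [norm_nonneg b]
      exact (mul_pos h1 h2).ne'
  have hq : ContinuousOn (fun p : V × V => qd p.1 p.2) (ball (0 : V) 1 ×ˢ ball (0 : V) 1) := by
    unfold qd
    exact Real.continuous_sqrt.comp_continuousOn hY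
  have he : ContinuousOn (fun p : V × V => ex p.1 p.2) (ball (0 : V) 1 ×ˢ ball (0 : V) 1) := by
    unfold ex
    exact hq.add (Real.continuous_sqrt.comp_continuousOn ((hq.pow 2).sub continuousOn_const))
  unfold bd
  refine he.log ?_
  rintro ⟨a, b⟩ ⟨ha, hb⟩
  exact (lt_of_lt_of_le zero_lt_one (one_le_ex ha hb)).ne'

/-! MODULE mt4 -/

/-- `cosh d = |cosh (s-t) + sinh s sinh t ω|`. -/
private theorem mt4_cosh {ζ ζ' : V} (hζ : ‖ζ‖ = 1) (hζ' : ‖ζ'‖ = 1) (s t : ℝ) :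
    Real.cosh (bd (ray ζ s) (ray ζ' t)) = ‖((Real.cosh (s - t) : ℝ) : ℂ) +
      ((Real.sinh s * Real.sinh t : ℝ) : ℂ) * (1 - inner ℂ ζ ζ')‖ := by
  rw [cosh_bd (ray_mem hζ s) (ray_mem hζ' t)]
  unfold qd
  rw [Yf_ray hζ hζ' s t, Real.sqrt_sq (norm_nonneg _), Real.cosh_sub]
  congr 1
  push_cast
  ring

private theorem mt4_re {ζ ζ' : V} (hζ : ‖ζ‖ = 1) (hζ' : ‖ζ'‖ = 1) :
    0 ≤ (1 - inner ℂ ζ ζ' : ℂ).re := by
  have h1 := Complex.re_le_norm (inner ℂ ζ ζ' : ℂ)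
  have h2 := norm_inner_le_norm (𝕜 := ℂ) ζ ζ'
  rw [hζ, hζ', one_mul] at h2
  rw [Complex.sub_re, Complex.one_re]
  linarith

private theorem mt4_sub {ζ ζ' : V} (hζ : ‖ζ‖ = 1) (hζ' : ‖ζ'‖ = 1) {s t : ℝ} (hs : 0 ≤ s)
    (ht : 0 ≤ t) : Real.cosh (s - t) ≤ Real.cosh (bd (ray ζ s) (ray ζ' t)) := by
  rw [mt4_cosh hζ hζ']
  refine le_trans ?_ (Complex.re_le_norm _)
  rw [Complex.add_re, Complex.ofReal_re, Complex.re_ofReal_mul]
  have h1 : 0 ≤ Real.sinh s * Real.sinh t * (1 - inner ℂ ζ ζ' : ℂ).re :=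
    mul_nonneg (mul_nonneg (Real.sinh_nonneg_iff.2 hs) (Real.sinh_nonneg_iff.2 ht))
      (mt4_re hζ hζ')
  linarith

private theorem mt4_om {ζ ζ' : V} (hζ : ‖ζ‖ = 1) (hζ' : ‖ζ'‖ = 1) {s t R : ℝ} (hs0 : 0 < s)
    (ht0 : 0 < t) (hR : bd (ray ζ s) (ray ζ' t) ≤ R) :
    Real.sinh s * Real.sinh t * ‖(1 - inner ℂ ζ ζ' : ℂ)‖ ≤ 2 * Real.cosh R := by
  have h0 := bd_nonneg (ray_mem hζ s) (ray_mem hζ' t)
  have h1 : Real.cosh (bd (ray ζ s) (ray ζ' t)) ≤ Real.cosh R :=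
    Real.cosh_le_cosh.2 (by rw [abs_of_nonneg h0, abs_of_nonneg (h0.trans hR)]; exact hR)
  have h2 := mt4_sub hζ hζ' hs0.le ht0.le
  have hP : 0 < Real.sinh s * Real.sinh t :=
    mul_pos (Real.sinh_pos_iff.2 hs0) (Real.sinh_pos_iff.2 ht0)
  have h3 : Real.sinh s * Real.sinh t * ‖(1 - inner ℂ ζ ζ' : ℂ)‖ =
      ‖((Real.sinh s * Real.sinh t : ℝ) : ℂ) * (1 - inner ℂ ζ ζ')‖ := by
    rw [norm_mul, Complex.norm_real, Real.norm_of_nonneg hP.le]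
  have h4 : ((Real.sinh s * Real.sinh t : ℝ) : ℂ) * (1 - inner ℂ ζ ζ') =
      (((Real.cosh (s - t) : ℝ) : ℂ) +
        ((Real.sinh s * Real.sinh t : ℝ) : ℂ) * (1 - inner ℂ ζ ζ')) -
        ((Real.cosh (s - t) : ℝ) : ℂ) := by ring
  rw [h3, h4]
  refine le_trans (norm_sub_le _ _) ?_
  rw [← mt4_cosh hζ hζ', Complex.norm_real, Real.norm_of_nonneg (Real.cosh_pos _).le]
  linarith

private theorem mt4_sinh {h l s : ℝ} (hh : 0 ≤ h) (hl : 0 ≤ l) (hs : h + l ≤ s) :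
    Real.sinh h ≤ Real.exp (-l) * Real.sinh s := by
  have h1 : Real.sinh h ≤ Real.exp (h - s) * Real.sinh s := by
    rw [Real.sinh_eq, Real.sinh_eq]
    have e1 : Real.exp (h - s) * ((Real.exp s - Real.exp (-s)) / 2) =
        (Real.exp h - Real.exp (h - s - s)) / 2 := by
      rw [mul_div_assoc', mul_sub, ← Real.exp_add, ← Real.exp_add]
      congr 3
      ring
    rw [e1]
    have e2 : Real.exp (h - s - s) ≤ Real.exp (-h) := Real.exp_le_exp.2 (by linarith)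
    linarith
  have h2 : Real.exp (h - s) ≤ Real.exp (-l) := Real.exp_le_exp.2 (by linarith)
  exact le_trans h1 (mul_le_mul_of_nonneg_right h2 (Real.sinh_nonneg_iff.2 (by linarith)))

/-- Radial projection is contracting.  Put `ω = 1 - <ζ,ζ'>`.  By `Yf_ray`
`cosh (bd (ray ζ s) (ray ζ' t)) = |cosh (s-t) + sinh s sinh t ω| ≤ cosh R`, so
`|sinh s sinh t ω| ≤ 2 cosh R` (note `cosh (s-t) ≤ cosh R`: the real part of `ω` is `≥ 0`), and
`cosh (bd (ray ζ h) (ray ζ' h)) = |1 + sinh² h ω| ≤ 1 + 2 cosh R (sinh h/sinh s)(sinh h/sinh t)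
≤ 1 + 2 cosh R e^(-2l)` because `sinh h/sinh s ≤ e^(h-s)`; finally `1 + d²/2 ≤ cosh d`. -/
theorem proj_contract {ζ ζ' : V} (hζ : ‖ζ‖ = 1) (hζ' : ‖ζ'‖ = 1) {s t h l R : ℝ} (hh : 0 ≤ h)
    (hl : 0 ≤ l) (hs : h + l ≤ s) (ht : h + l ≤ t) (hs0 : 0 < s) (ht0 : 0 < t)
    (hR : bd (ray ζ s) (ray ζ' t) ≤ R) :
    bd (ray ζ h) (ray ζ' h) ≤ 2 * Real.sqrt (Real.cosh R) * Real.exp (-l) := by
  have hc : 0 < Real.cosh R := Real.cosh_pos R
  have h1 := mt4_om hζ hζ' hs0 ht0 hR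
  have h2 := mt4_sinh hh hl hs
  have h3 := mt4_sinh hh hl ht
  have hs1 : 0 ≤ Real.sinh h := Real.sinh_nonneg_iff.2 hh
  have hs2 : 0 < Real.sinh s := Real.sinh_pos_iff.2 hs0
  have hs3 : 0 < Real.sinh t := Real.sinh_pos_iff.2 ht0
  have hE := Real.exp_pos (-l)
  have h4 : Real.cosh (bd (ray ζ h) (ray ζ' h)) ≤ 1 + 2 * Real.cosh R * Real.exp (-l) ^ 2 := by
    rw [mt4_cosh hζ hζ', sub_self, Real.cosh_zero]
    refine le_trans (norm_add_le _ _) ?_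
    rw [Complex.norm_real, norm_one, norm_mul, Complex.norm_real,
      Real.norm_of_nonneg (mul_nonneg hs1 hs1)]
    have h5 : Real.sinh h * Real.sinh h ≤ (Real.exp (-l) * Real.sinh s) *
        (Real.exp (-l) * Real.sinh t) := mul_le_mul h2 h3 hs1 (by positivity)
    have h6 : Real.sinh h * Real.sinh h * ‖(1 - inner ℂ ζ ζ' : ℂ)‖ ≤
        (Real.exp (-l) * Real.sinh s) * (Real.exp (-l) * Real.sinh t) *
          ‖(1 - inner ℂ ζ ζ' : ℂ)‖ := mul_le_mul_of_nonneg_right h5 (norm_nonneg _)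
    have h7 : (Real.exp (-l) * Real.sinh s) * (Real.exp (-l) * Real.sinh t) *
        ‖(1 - inner ℂ ζ ζ' : ℂ)‖ = Real.exp (-l) ^ 2 *
          (Real.sinh s * Real.sinh t * ‖(1 - inner ℂ ζ ζ' : ℂ)‖) := by ring
    have h8 : Real.exp (-l) ^ 2 * (Real.sinh s * Real.sinh t * ‖(1 - inner ℂ ζ ζ' : ℂ)‖) ≤
        Real.exp (-l) ^ 2 * (2 * Real.cosh R) := mul_le_mul_of_nonneg_left h1 (by positivity)
    linarith
  obtain ⟨d, hd⟩ : ∃ d, d = bd (ray ζ h) (ray ζ' h) := ⟨_, rfl⟩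
  have hd0 : 0 ≤ d := by rw [hd]; exact bd_nonneg (ray_mem hζ h) (ray_mem hζ' h)
  rw [← hd] at h4 ⊢
  have h9 : 1 + d ^ 2 / 2 ≤ Real.cosh d := by
    have e1 : Real.cosh d = 1 + 2 * Real.sinh (d / 2) ^ 2 := by
      have e2 := Real.cosh_two_mul (d / 2)
      rw [show 2 * (d / 2) = d by ring, Real.cosh_sq'] at e2
      linarith
    have e3 : d / 2 ≤ Real.sinh (d / 2) := Real.self_le_sinh_iff.2 (by positivity)
    have e4 : (d / 2) ^ 2 ≤ Real.sinh (d / 2) ^ 2 := pow_le_pow_left₀ (by positivity) e3 2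
    rw [e1]
    nlinarith
  have h10 : d ^ 2 ≤ (2 * Real.sqrt (Real.cosh R) * Real.exp (-l)) ^ 2 := by
    rw [mul_pow, mul_pow, Real.sq_sqrt hc.le]
    nlinarith
  exact (pow_le_pow_iff_left₀ hd0 (by positivity) two_ne_zero).1 h10

/-- Directions are close: `|ζ-ζ'|² = 2 Re ω ≤ 2|ω| ≤ 4 cosh R/(sinh s sinh t)`. -/
theorem dir_close {ζ ζ' : V} (hζ : ‖ζ‖ = 1) (hζ' : ‖ζ'‖ = 1) {s t R : ℝ} (hs0 : 0 < s)
    (ht0 : 0 < t) (hR : bd (ray ζ s) (ray ζ' t) ≤ R) :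
    ‖ζ - ζ'‖ ^ 2 ≤ 4 * Real.cosh R / (Real.sinh s * Real.sinh t) := by
  have h1 := mt4_om hζ hζ' hs0 ht0 hR
  have hP : 0 < Real.sinh s * Real.sinh t :=
    mul_pos (Real.sinh_pos_iff.2 hs0) (Real.sinh_pos_iff.2 ht0)
  rw [le_div_iff₀ hP]
  have h2 := @norm_sub_sq ℂ V _ _ _ ζ ζ'
  rw [hζ, hζ'] at h2
  have h3 := Complex.re_le_norm (1 - inner ℂ ζ ζ' : ℂ)
  rw [Complex.sub_re, Complex.one_re] at h3
  have h4 : RCLike.re (inner ℂ ζ ζ' : ℂ) = (inner ℂ ζ ζ' : ℂ).re := rfl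
  rw [h4] at h2
  have h5 : ‖ζ - ζ'‖ ^ 2 ≤ 2 * ‖(1 - inner ℂ ζ ζ' : ℂ)‖ := by linarith
  have h6 : ‖ζ - ζ'‖ ^ 2 * (Real.sinh s * Real.sinh t) ≤
      2 * ‖(1 - inner ℂ ζ ζ' : ℂ)‖ * (Real.sinh s * Real.sinh t) :=
    mul_le_mul_of_nonneg_right h5 hP.le
  linarith

/-- `|s - t| ≤ R` if the points are at distance `≤ R`. -/
theorem abs_sub_le_bd {ζ ζ' : V} (hζ : ‖ζ‖ = 1) (hζ' : ‖ζ'‖ = 1) {s t : ℝ} (hs : 0 ≤ s)
    (ht : 0 ≤ t) : |s - t| ≤ bd (ray ζ s) (ray ζ' t) := by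
  have h1 := Real.cosh_le_cosh.1 (mt4_sub hζ hζ' hs ht)
  rwa [abs_of_nonneg (bd_nonneg (ray_mem hζ s) (ray_mem hζ' t))] at h1

end Pool.Agent.BdReg
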