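import Pool.Agent.BdReg.SP

/-! Construction of rays with many bad segments; estimates along rays. -/

set_option autoImplicit false

open Metric Set Filter Topology ComplexConjugate

namespace Pool.Agent.BdReg

open Pool.Agent.BallCurve

variable {V W : Type*} [NormedAddCommGroup V] [InnerProductSpace ℂ V]
  [NormedAddCommGroup W] [InnerProductSpace ℂ W]

/-! MODULE ry1 -/

/-- `|Df f ζ s - Df f ζ' s| ≤ d(ray ζ s, ray ζ' s) + d(ray ζ (s+1), ray ζ' (s+1))`. -/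
theorem Df_close {f : V → W} (hm : MapsTo f (ball 0 1) (ball 0 1))
    (hd : DifferentiableOn ℂ f (ball 0 1)) {ζ ζ' : V} (hζ : ‖ζ‖ = 1) (hζ' : ‖ζ'‖ = 1) (s : ℝ) :
    Df f ζ s ≤ Df f ζ' s + bd (ray ζ s) (ray ζ' s) + bd (ray ζ (s + 1)) (ray ζ' (s + 1)) := by
  have h1 := bd_tri (hm (ray_mem hζ' s)) (hm (ray_mem hζ s)) (hm (ray_mem hζ (s + 1)))
  have h2 := bd_tri (hm (ray_mem hζ' s)) (hm (ray_mem hζ (s + 1))) (hm (ray_mem hζ' (s + 1)))
  have h3 := sp hm hd (ray_mem hζ s) (ray_mem hζ' s)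
  have h4 := sp hm hd (ray_mem hζ (s + 1)) (ray_mem hζ' (s + 1))
  rw [bd_symm (f (ray ζ s)) (f (ray ζ' s))] at h3
  unfold Df
  linarith

theorem Df_nonneg {f : V → W} (hm : MapsTo f (ball 0 1) (ball 0 1))
    (hd : DifferentiableOn ℂ f (ball 0 1)) {ζ : V} (hζ : ‖ζ‖ = 1) (s : ℝ) :
    0 ≤ Df f ζ s := by
  have h1 := sp hm hd (ray_mem hζ s) (ray_mem hζ (s + 1))
  rw [bd_ray hζ] at h1
  have h2 : |s - (s + 1)| = 1 := by rw [show s - (s + 1) = -1 by ring]; simp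
  unfold Df
  linarith

/-- For fixed `s`, `ζ ↦ Df f ζ s` is continuous on the unit sphere. -/
theorem Df_continuousOn {f : V → W} (hm : MapsTo f (ball 0 1) (ball 0 1))
    (hd : DifferentiableOn ℂ f (ball 0 1)) (s : ℝ) :
    ContinuousOn (fun ζ : V => Df f ζ s) (sphere (0 : V) 1) := by
  have hr : ∀ s : ℝ, ContinuousOn (fun ζ : V => f (ray ζ s)) (sphere (0 : V) 1) := by
    intro s
    have h1 : ContinuousOn (fun ζ : V => ray ζ s) (sphere (0 : V) 1) := by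
      unfold ray
      exact continuousOn_const.smul continuousOn_id
    exact hd.continuousOn.comp h1 fun ζ hζ => ray_mem (by simpa using hζ) s
  have h2 : ContinuousOn (fun ζ : V => (f (ray ζ s), f (ray ζ (s + 1)))) (sphere (0 : V) 1) :=
    (hr s).prodMk (hr (s + 1))
  have h4 : MapsTo (fun ζ : V => (f (ray ζ s), f (ray ζ (s + 1)))) (sphere (0 : V) 1)
      (ball (0 : W) 1 ×ˢ ball (0 : W) 1) := fun ζ hζ =>
    ⟨hm (ray_mem (by simpa using hζ) s), hm (ray_mem (by simpa using hζ) (s + 1))⟩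
  have h3 : ContinuousOn ((fun p : W × W => bd p.1 p.2) ∘
      (fun ζ : V => (f (ray ζ s), f (ray ζ (s + 1))))) (sphere (0 : V) 1) :=
    ContinuousOn.comp bd_continuousOn h2 h4
  have h5 : ContinuousOn (fun ζ : V => (1 : ℝ) - ((fun p : W × W => bd p.1 p.2) ∘
      (fun ζ : V => (f (ray ζ s), f (ray ζ (s + 1))))) ζ) (sphere (0 : V) 1) :=
    continuousOn_const.sub h3
  exact h5

/-- Deficits add up: with `s_0 + 1 ≤ s_1`, ..., `s_(m-1) + 1 ≤ T`,
`d(f 0, f (ray ζ T)) ≤ T - ∑_(k<m) Df f ζ (s_k)` (triangle inequality at the points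
`ray ζ s_k, ray ζ (s_k + 1)`, `sp` and `bd_ray` for the gaps). -/
theorem deficit_sum {f : V → W} (hm : MapsTo f (ball 0 1) (ball 0 1))
    (hd : DifferentiableOn ℂ f (ball 0 1)) {ζ : V} (hζ : ‖ζ‖ = 1) {s : ℕ → ℝ} (h0 : 0 ≤ s 0)
    (hs : ∀ k, s k + 1 ≤ s (k + 1)) (m : ℕ) {T : ℝ} (hT0 : 0 ≤ T)
    (hT : ∀ k < m, s k + 1 ≤ T) :
    bd (f 0) (f (ray ζ T)) ≤ T - ∑ k ∈ Finset.range m, Df f ζ (s k) := by
  -- first for `T = s (m-1) + 1`
  have hr : ∀ a b : ℝ, bd (f (ray ζ a)) (f (ray ζ b)) ≤ |a - b| := fun a b => by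
    have := sp hm hd (ray_mem hζ a) (ray_mem hζ b)
    rwa [bd_ray hζ] at this
  have key : ∀ m, bd (f 0) (f (ray ζ (s m))) ≤ s m - ∑ k ∈ Finset.range m, Df f ζ (s k) := by
    intro m
    induction m with
    | zero =>
      have h1 := hr 0 (s 0)
      rw [ray_zero] at h1
      rw [Finset.range_zero, Finset.sum_empty, sub_zero]
      rwa [zero_sub, abs_neg, abs_of_nonneg h0] at h1
    | succ m ih =>
      have hs0 : f 0 ∈ ball (0 : W) 1 := hm (by simp)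
      have h1 := bd_tri hs0 (hm (ray_mem hζ (s m))) (hm (ray_mem hζ (s m + 1)))
      have h2 := bd_tri hs0 (hm (ray_mem hζ (s m + 1))) (hm (ray_mem hζ (s (m + 1))))
      have h3 := hr (s m + 1) (s (m + 1))
      rw [abs_of_nonpos (by linarith [hs m])] at h3
      have h4 : bd (f (ray ζ (s m))) (f (ray ζ (s m + 1))) = 1 - Df f ζ (s m) := by
        unfold Df; ring
      rw [Finset.sum_range_succ]
      linarith
  rcases Nat.eq_zero_or_pos m with hm0 | hm0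
  · subst hm0
    have h1 := hr 0 T
    rw [ray_zero] at h1
    rw [Finset.range_zero, Finset.sum_empty, sub_zero]
    rwa [zero_sub, abs_neg, abs_of_nonneg hT0] at h1
  · obtain ⟨p, rfl⟩ : ∃ p, m = p + 1 := ⟨m - 1, by omega⟩
    have hs0 : f 0 ∈ ball (0 : W) 1 := hm (by simp)
    have h1 := bd_tri hs0 (hm (ray_mem hζ (s p))) (hm (ray_mem hζ (s p + 1)))
    have h2 := bd_tri hs0 (hm (ray_mem hζ (s p + 1))) (hm (ray_mem hζ T))
    have h3 := hr (s p + 1) T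
    rw [abs_of_nonpos (by linarith [hT p (Nat.lt_succ_self p)])] at h3
    have h4 : bd (f (ray ζ (s p))) (f (ray ζ (s p + 1))) = 1 - Df f ζ (s p) := by
      unfold Df; ring
    have h5 := key p
    rw [Finset.sum_range_succ]
    linarith

/-! MODULE ry2 -/

/-- One step of the construction (with `claim_a` as hypothesis `H`): from a direction `ζ` with a bad
segment at `s` one finds `ζ'` with a bad segment at `s'`,
`s + 1 + l ≤ s' ≤ s + 1 + l + 2 R`, whose ray is close to the ray of `ζ` at all heights `h ≤ s + 1`.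
(`H` at height `S = s + 1 + l + R`; `abs_sub_le_bd`; `proj_contract` with `l + (s + 1 - h)`;
`dir_close`.) -/
theorem step {f : V → W} {R ε : ℝ} (hR : 0 < R)
    (H : ∀ ζ : V, ∀ s : ℝ, ‖ζ‖ = 1 → R ≤ s →
      ∃ ζ' : V, ∃ s' : ℝ, ‖ζ'‖ = 1 ∧ 1 ≤ s' ∧ bd (ray ζ s) (ray ζ' s') ≤ R ∧ ε ≤ Df f ζ' s')
    {l : ℝ} (hl : 0 ≤ l) {ζ : V} (hζ : ‖ζ‖ = 1) {s : ℝ} (hs : 0 ≤ s) :
    ∃ ζ' : V, ∃ s' : ℝ, ‖ζ'‖ = 1 ∧ s + 1 + l ≤ s' ∧ s' ≤ s + 1 + l + 2 * R ∧ ε ≤ Df f ζ' s' ∧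
      (∀ h, 0 ≤ h → h ≤ s + 1 → bd (ray ζ h) (ray ζ' h) ≤
        2 * Real.sqrt (Real.cosh R) * Real.exp (-l) * Real.exp (-(s + 1 - h))) ∧
      ‖ζ - ζ'‖ ^ 2 ≤ 4 * Real.cosh R / Real.sinh (s + 1) ^ 2 := by
  set S : ℝ := s + 1 + l + R with hS
  obtain ⟨ζ', s', h1, h2, h3, h4⟩ := H ζ S hζ (by linarith)
  have hS0 : 0 < S := by linarith
  have hs'0 : 0 < s' := by linarith
  have h5 := (abs_sub_le_bd hζ h1 hS0.le hs'0.le).trans h3
  have h6 := abs_le.mp h5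
  have hlow : s + 1 + l ≤ s' := by linarith [h6.2]
  refine ⟨ζ', s', h1, hlow, by linarith [h6.1], h4, fun h hh0 hh1 => ?_, ?_⟩
  · have h7 := proj_contract hζ h1 hh0 (l := l + (s + 1 - h)) (by linarith)
      (by linarith) (by linarith) hS0 hs'0 h3
    rw [show -(l + (s + 1 - h)) = -l + -(s + 1 - h) by ring, Real.exp_add, ← mul_assoc] at h7
    exact h7
  · have h7 := dir_close hζ h1 hS0 hs'0 h3
    have h8 : 0 < Real.sinh (s + 1) := Real.sinh_pos_iff.mpr (by linarith)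
    refine h7.trans ?_
    apply div_le_div_of_nonneg_left (by positivity) (by positivity)
    rw [sq]
    apply mul_le_mul _ _ h8.le
    · exact (Real.sinh_pos_iff.mpr hS0).le
    · exact Real.sinh_le_sinh.mpr (by linarith)
    · exact Real.sinh_le_sinh.mpr (by linarith)

/-! MODULE ry3 -/

/-- The ray.  Choose `l` with `2·(2 √(cosh R) e^(-l) · 2) ≤ ε/2` and start at a height `s_0` so large that the
sum of the `‖ζ_k - ζ_(k+1)‖ ≤ C e^(-s_k)` is `< ρ` (`s_(k+1) ≥ s_k + 1`).  The directions converge to `ζ`.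
At the heights `h = s_j, s_j + 1` the changes are at most `2 √(cosh R) e^(-l) e^(-(s_k + 1 - h))`,
`k ≥ j`, with `s_k + 1 - h ≥ k - j`; sum `≤ 2 √(cosh R) e^(-l) · 2`.  By `Df_close` (for all later `ζ_m`)
and `Df_continuousOn` `Df f ζ (s_j) ≥ ε/2`. -/
theorem exists_bad_ray [CompleteSpace V] {f : V → W} (hm : MapsTo f (ball 0 1) (ball 0 1))
    (hd : DifferentiableOn ℂ f (ball 0 1)) {R ε : ℝ} (hR : 0 < R) (hε : 0 < ε)
    (H : ∀ ζ : V, ∀ s : ℝ, ‖ζ‖ = 1 → R ≤ s →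
      ∃ ζ' : V, ∃ s' : ℝ, ‖ζ'‖ = 1 ∧ 1 ≤ s' ∧ bd (ray ζ s) (ray ζ' s') ≤ R ∧ ε ≤ Df f ζ' s') :
    ∃ M : ℝ, 0 < M ∧ ∀ ζ0 : V, ‖ζ0‖ = 1 → ∀ ρ > (0 : ℝ), ∃ ζ : V, ‖ζ‖ = 1 ∧ ‖ζ - ζ0‖ < ρ ∧
      ∃ s : ℕ → ℝ, 0 ≤ s 0 ∧ (∀ k, s k + 1 ≤ s (k + 1)) ∧ (∀ k, s (k + 1) ≤ s k + M) ∧
        ∀ k, ε / 2 ≤ Df f ζ (s k) := by
  set Q : ℝ := 2 * Real.sqrt (Real.cosh R) with hQ
  have hQ2 : 2 ≤ Q := by
    have h1 : 1 ≤ Real.sqrt (Real.cosh R) := Real.one_le_sqrt.mpr (Real.one_le_cosh R)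
    linarith
  have hQ0 : 0 < Q := by linarith
  have hQsq : Q ^ 2 = 4 * Real.cosh R := by
    rw [hQ, mul_pow, Real.sq_sqrt (Real.cosh_pos R).le]; norm_num
  set l : ℝ := max 0 (Real.log (8 * Q / ε)) with hl
  have hl0 : 0 ≤ l := le_max_left _ _
  have hle : 4 * Q * Real.exp (-l) ≤ ε / 2 := by
    have h1 : 8 * Q / ε ≤ Real.exp l := by
      rw [← Real.log_le_iff_le_exp (by positivity)]; exact le_max_right _ _
    have h2 : Real.exp (-l) * Real.exp l = 1 := by rw [← Real.exp_add]; simp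
    have h3 : 8 * Q ≤ ε * Real.exp l := by rw [div_le_iff₀ hε] at h1; linarith
    have h4 : 0 < Real.exp (-l) := Real.exp_pos _
    nlinarith [mul_le_mul_of_nonneg_left h3 h4.le]
  refine ⟨1 + l + 2 * R, by linarith, fun ζ0 hζ0 ρ hρ => ?_⟩
  set S : ℝ := max 0 (Real.log (8 * Q / ρ)) with hS
  have hS0 : 0 ≤ S := le_max_left _ _
  have hSρ : 8 * Q * Real.exp (-S) ≤ ρ := by
    have h1 : 8 * Q / ρ ≤ Real.exp S := by
      rw [← Real.log_le_iff_le_exp (by positivity)]; exact le_max_right _ _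
    have h2 : Real.exp (-S) * Real.exp S = 1 := by rw [← Real.exp_add]; simp
    have h3 : 8 * Q ≤ ρ * Real.exp S := by rw [div_le_iff₀ hρ] at h1; linarith
    have h4 : 0 < Real.exp (-S) := Real.exp_pos _
    nlinarith [mul_le_mul_of_nonneg_left h3 h4.le]
  -- the sequence
  have H1 : ∀ p : {p : V × ℝ // ‖p.1‖ = 1 ∧ 0 ≤ p.2}, ∃ q : {p : V × ℝ // ‖p.1‖ = 1 ∧ 0 ≤ p.2},
      p.1.2 + 1 + l ≤ q.1.2 ∧ q.1.2 ≤ p.1.2 + 1 + l + 2 * R ∧ ε ≤ Df f q.1.1 q.1.2 ∧
      (∀ h, 0 ≤ h → h ≤ p.1.2 + 1 → bd (ray p.1.1 h) (ray q.1.1 h) ≤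
        Q * Real.exp (-l) * Real.exp (-(p.1.2 + 1 - h))) ∧
      ‖p.1.1 - q.1.1‖ ^ 2 ≤ 4 * Real.cosh R / Real.sinh (p.1.2 + 1) ^ 2 := by
    rintro ⟨⟨ζ, s⟩, h1, h2⟩
    obtain ⟨ζ', s', h3, h4, h5, h6, h7, h8⟩ := step hR H hl0 h1 h2
    exact ⟨⟨(ζ', s'), h3, by simp only at h2 ⊢; linarith⟩, h4, h5, h6, h7, h8⟩
  choose g hg using H1
  set P : ℕ → {p : V × ℝ // ‖p.1‖ = 1 ∧ 0 ≤ p.2} := fun k => g^[k] ⟨(ζ0, S), hζ0, hS0⟩ with hP
  have hP0 : P 0 = ⟨(ζ0, S), hζ0, hS0⟩ := rfl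
  have hPs : ∀ k, P (k + 1) = g (P k) := fun k => Function.iterate_succ_apply' g k _
  set z : ℕ → V := fun k => (P k).1.1 with hz
  set u : ℕ → ℝ := fun k => (P k).1.2 with hu
  have hz1 : ∀ k, ‖z k‖ = 1 := fun k => (P k).2.1
  have hu0 : ∀ k, 0 ≤ u k := fun k => (P k).2.2
  have hg1 : ∀ k, u k + 1 + l ≤ u (k + 1) := fun k => by
    have := (hg (P k)).1; rw [← hPs] at this; exact this
  have hg2 : ∀ k, u (k + 1) ≤ u k + 1 + l + 2 * R := fun k => by
    have := (hg (P k)).2.1; rw [← hPs] at this; exact this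
  have hg3 : ∀ k, ε ≤ Df f (z (k + 1)) (u (k + 1)) := fun k => by
    have := (hg (P k)).2.2.1; rw [← hPs] at this; exact this
  have hg4 : ∀ k, ∀ h, 0 ≤ h → h ≤ u k + 1 → bd (ray (z k) h) (ray (z (k + 1)) h) ≤
      Q * Real.exp (-l) * Real.exp (-(u k + 1 - h)) := fun k => by
    have := (hg (P k)).2.2.2.1; rw [← hPs] at this; exact this
  have hg5 : ∀ k, ‖z k - z (k + 1)‖ ^ 2 ≤ 4 * Real.cosh R / Real.sinh (u k + 1) ^ 2 := fun k => by
    have := (hg (P k)).2.2.2.2; rw [← hPs] at this; exact this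
  have hstep : ∀ k, u k + 1 ≤ u (k + 1) := fun k => by linarith [hg1 k]
  have hgrow : ∀ j k, u j + k ≤ u (j + k) := fun j k => by
    induction k with
    | zero => simp
    | succ k ih =>
      have h1 := hstep (j + k)
      have h2 : j + (k + 1) = j + k + 1 := rfl
      rw [h2]; push_cast; linarith
  have hexp1 : Real.exp (-1) ≤ 1 / 2 := by
    have h1 : (2 : ℝ) ≤ Real.exp 1 := by have := Real.add_one_le_exp (1 : ℝ); linarith
    rw [Real.exp_neg, ← one_div]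
    exact one_div_le_one_div_of_le (by norm_num) h1
  have hexpk : ∀ k : ℕ, Real.exp (-(k : ℝ)) ≤ (1 / 2) ^ k := fun k => by
    have : Real.exp (-(k : ℝ)) = Real.exp (-1) ^ k := by rw [← Real.exp_nat_mul]; ring_nf
    rw [this]; exact pow_le_pow_left₀ (Real.exp_pos _).le hexp1 k
  -- directions
  have hdist : ∀ k, dist (z k) (z (k + 1)) ≤ (4 * Q * Real.exp (-(S + 1))) * (1 / 2) ^ k := fun k => by
    rw [dist_eq_norm]
    have hx1 : 1 ≤ u k + 1 := by linarith [hu0 k]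
    have hsinh : Real.exp (u k + 1) / 4 ≤ Real.sinh (u k + 1) := by
      rw [Real.sinh_eq]
      have h1 : Real.exp (-(u k + 1)) * Real.exp (u k + 1) = 1 := by
        rw [← Real.exp_add]; simp
      have h2 : (2 : ℝ) ≤ Real.exp (u k + 1) := by
        have := Real.add_one_le_exp (u k + 1); linarith
      have h3 : 0 < Real.exp (-(u k + 1)) := Real.exp_pos _
      have h4 : Real.exp (-(u k + 1)) ≤ 1 / 2 := by nlinarith
      nlinarith
    have hs0 : 0 < Real.sinh (u k + 1) := lt_of_lt_of_le (by positivity) hsinh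
    have h1 : ‖z k - z (k + 1)‖ ≤ Q / Real.sinh (u k + 1) := by
      apply le_of_sq_le_sq _ (by positivity)
      rw [div_pow, hQsq]; exact hg5 k
    have h2 : Q / Real.sinh (u k + 1) ≤ 4 * Q * Real.exp (-(u k + 1)) := by
      rw [div_le_iff₀ hs0, Real.exp_neg]
      have h3 : 0 < Real.exp (u k + 1) := Real.exp_pos _
      calc Q = 4 * Q * (Real.exp (u k + 1))⁻¹ * (Real.exp (u k + 1) / 4) := by
            field_simp
        _ ≤ 4 * Q * (Real.exp (u k + 1))⁻¹ * Real.sinh (u k + 1) :=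
          mul_le_mul_of_nonneg_left hsinh (by positivity)
    have h3 : Real.exp (-(u k + 1)) ≤ Real.exp (-(S + 1)) * (1 / 2) ^ k := by
      have h4 : S + k ≤ u k := by
        have := hgrow 0 k; rw [zero_add] at this; exact this
      calc Real.exp (-(u k + 1)) ≤ Real.exp (-(S + 1) + -(k : ℝ)) := by
            apply Real.exp_le_exp.mpr; linarith
        _ = Real.exp (-(S + 1)) * Real.exp (-(k : ℝ)) := Real.exp_add _ _
        _ ≤ _ := mul_le_mul_of_nonneg_left (hexpk k) (Real.exp_pos _).le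
    calc ‖z k - z (k + 1)‖ ≤ 4 * Q * Real.exp (-(u k + 1)) := h1.trans h2
      _ ≤ 4 * Q * (Real.exp (-(S + 1)) * (1 / 2) ^ k) :=
        mul_le_mul_of_nonneg_left h3 (by positivity)
      _ = _ := by ring
  have hcau : CauchySeq z := cauchySeq_of_le_geometric (1 / 2) _ (by norm_num) hdist
  obtain ⟨ζ, hζlim⟩ := cauchySeq_tendsto_of_complete hcau
  have hζ1 : ‖ζ‖ = 1 := by
    have h1 := hζlim.norm
    have h2 : Tendsto (fun k => ‖z k‖) atTop (𝓝 1) := by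
      simp only [hz1]; exact tendsto_const_nhds
    exact tendsto_nhds_unique h1 h2
  refine ⟨ζ, hζ1, ?_, fun k => u (k + 1), hu0 1, fun k => hstep (k + 1), fun k => ?_, fun k => ?_⟩
  · have h1 := dist_le_of_le_geometric_of_tendsto₀ (1 / 2) _ (by norm_num) hdist hζlim
    have h2 : z 0 = ζ0 := rfl
    rw [h2, dist_comm, dist_eq_norm] at h1
    have h3 : Real.exp (-(S + 1)) = Real.exp (-S) * Real.exp (-1) := by
      rw [← Real.exp_add]; ring_nf
    have h4 : 0 < Real.exp (-S) := Real.exp_pos _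
    calc ‖ζ - ζ0‖ ≤ 4 * Q * Real.exp (-(S + 1)) / (1 - 1 / 2) := h1
      _ = 8 * Q * Real.exp (-S) * Real.exp (-1) := by rw [h3]; ring
      _ ≤ ρ * Real.exp (-1) := mul_le_mul_of_nonneg_right hSρ (Real.exp_pos _).le
      _ ≤ ρ * (1 / 2) := mul_le_mul_of_nonneg_left hexp1 hρ.le
      _ < ρ := by linarith
  · have := hg2 (k + 1); linarith
  · -- Df
    have hclose : ∀ m, ∀ h, 0 ≤ h → h ≤ u (k + 1) + 1 →
        bd (ray (z (k + 1)) h) (ray (z (k + 1 + m)) h) ≤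
          Q * Real.exp (-l) * ∑ i ∈ Finset.range m, (1 / 2 : ℝ) ^ i := fun m => by
      induction m with
      | zero =>
        intro h _ _
        simp only [add_zero, Finset.range_zero, Finset.sum_empty, mul_zero]
        exact (bd_self (ray_mem (hz1 _) h)).le
      | succ m ih =>
        intro h hh0 hh1
        have h1 := ih h hh0 hh1
        have h2 := bd_tri (ray_mem (hz1 (k + 1)) h) (ray_mem (hz1 (k + 1 + m)) h)
          (ray_mem (hz1 (k + 1 + m + 1)) h)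
        have h3 := hgrow (k + 1) m
        have h4 := hg4 (k + 1 + m) h hh0 (by
          have : (0 : ℝ) ≤ m := Nat.cast_nonneg m
          linarith)
        have h5 : Real.exp (-(u (k + 1 + m) + 1 - h)) ≤ (1 / 2) ^ m := by
          refine le_trans (Real.exp_le_exp.mpr ?_) (hexpk m)
          linarith
        have h6 : bd (ray (z (k + 1 + m)) h) (ray (z (k + 1 + m + 1)) h) ≤
            Q * Real.exp (-l) * (1 / 2) ^ m :=
          h4.trans (mul_le_mul_of_nonneg_left h5 (by positivity))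
        rw [Finset.sum_range_succ, mul_add]
        rw [← add_assoc]
        linarith
    have hsum : ∀ m : ℕ, ∑ i ∈ Finset.range m, (1 / 2 : ℝ) ^ i ≤ 2 := fun m => by
      rw [geom_sum_eq (by norm_num)]
      have : (0 : ℝ) < (1 / 2) ^ m := by positivity
      rw [div_le_iff_of_neg (by norm_num)]
      linarith
    have hDfm : ∀ m, ε / 2 ≤ Df f (z (k + 1 + m)) (u (k + 1)) := fun m => by
      have h1 := Df_close hm hd (hz1 (k + 1)) (hz1 (k + 1 + m)) (u (k + 1))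
      have h2 := hclose m (u (k + 1)) (hu0 _) (by linarith)
      have h3 := hclose m (u (k + 1) + 1) (by linarith [hu0 (k + 1)]) le_rfl
      have h4 := hg3 k
      have h5 : Q * Real.exp (-l) * ∑ i ∈ Finset.range m, (1 / 2 : ℝ) ^ i ≤
          Q * Real.exp (-l) * 2 := mul_le_mul_of_nonneg_left (hsum m) (by positivity)
      linarith
    have hlimDf : Tendsto (fun m => Df f (z (k + 1 + m)) (u (k + 1))) atTop
        (𝓝 (Df f ζ (u (k + 1)))) := by
      have h1 := Df_continuousOn hm hd (u (k + 1)) ζ (by simpa using hζ1)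
      have h2 : Tendsto (fun m => z (k + 1 + m)) atTop (𝓝[sphere (0 : V) 1] ζ) := by
        apply tendsto_nhdsWithin_iff.mpr
        refine ⟨?_, Eventually.of_forall fun m => by simpa using hz1 (k + 1 + m)⟩
        have h3 : Tendsto (fun m => k + 1 + m) atTop atTop := tendsto_atTop_mono
          (fun m => Nat.le_add_left m (k + 1)) tendsto_id
        exact hζlim.comp h3
      exact h1.tendsto.comp h2
    exact ge_of_tendsto' hlimDf hDfm

/-! MODULE ry4 -/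

/-- From a linear bound of the distance to the power bound. -/
theorem ry4_core {f : V → W} {κ C : ℝ} (hκ1 : κ ≤ 1) {z : V} (hκ0 : 0 ≤ κ)
    (hz : z ∈ ball (0 : V) 1) (hfz : f z ∈ ball (0 : W) 1) (hf0 : f 0 ∈ ball (0 : W) 1)
    (h : bd (f 0) (f z) ≤ (1 - κ) * bd 0 z + C) :
    1 / 2 * Real.exp (-2 * (bd 0 (f 0) + C)) * (1 - ‖z‖) ^ (1 - κ) ≤ 1 - ‖f z‖ := by
  have h1 := (exp_le_one_sub_norm hfz).1
  have h2 := (exp_le_one_sub_norm hz).2
  have h3 := bd_tri (by simp : (0 : W) ∈ ball (0 : W) 1) hf0 hfz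
  have hz1 : 0 ≤ 1 - ‖z‖ := by
    have : ‖z‖ < 1 := by simpa using hz
    linarith
  have h4 : (1 - ‖z‖) ^ (1 - κ) ≤ 2 * Real.exp (-2 * bd 0 z * (1 - κ)) := by
    calc (1 - ‖z‖) ^ (1 - κ) ≤ (2 * Real.exp (-2 * bd 0 z)) ^ (1 - κ) :=
          Real.rpow_le_rpow hz1 h2 (by linarith)
      _ = 2 ^ (1 - κ) * Real.exp (-2 * bd 0 z) ^ (1 - κ) :=
          Real.mul_rpow (by norm_num) (Real.exp_pos _).le
      _ = 2 ^ (1 - κ) * Real.exp (-2 * bd 0 z * (1 - κ)) := by rw [← Real.exp_mul]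
      _ ≤ 2 * Real.exp (-2 * bd 0 z * (1 - κ)) := by
          apply mul_le_mul_of_nonneg_right _ (Real.exp_pos _).le
          calc (2 : ℝ) ^ (1 - κ) ≤ 2 ^ (1 : ℝ) :=
                Real.rpow_le_rpow_of_exponent_le (by norm_num) (by linarith)
            _ = 2 := Real.rpow_one 2
  calc 1 / 2 * Real.exp (-2 * (bd 0 (f 0) + C)) * (1 - ‖z‖) ^ (1 - κ)
      ≤ 1 / 2 * Real.exp (-2 * (bd 0 (f 0) + C)) * (2 * Real.exp (-2 * bd 0 z * (1 - κ))) :=
        mul_le_mul_of_nonneg_left h4 (by positivity)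
    _ = Real.exp (-2 * (bd 0 (f 0) + C)) * Real.exp (-2 * bd 0 z * (1 - κ)) := by ring
    _ = Real.exp (-2 * (bd 0 (f 0) + C) + -2 * bd 0 z * (1 - κ)) := (Real.exp_add _ _).symm
    _ ≤ Real.exp (-2 * bd 0 (f z)) := by
        apply Real.exp_le_exp.mpr
        nlinarith
    _ ≤ 1 - ‖f z‖ := h1

/-- Points of the radius. -/
theorem ry4_ray {ζ : V} (hζ : ‖ζ‖ = 1) {r : ℝ} (hr0 : 0 ≤ r) (hr1 : r < 1) :
    (r : ℂ) • ζ ∈ ball (0 : V) 1 ∧ ‖(r : ℂ) • ζ‖ = r ∧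
      (r : ℂ) • ζ = ray ζ (bd 0 ((r : ℂ) • ζ)) := by
  have hn : ‖(r : ℂ) • ζ‖ = r := by
    rw [norm_smul, hζ, mul_one, Complex.norm_real, Real.norm_eq_abs, abs_of_nonneg hr0]
  have hb : (r : ℂ) • ζ ∈ ball (0 : V) 1 := by rw [mem_ball_zero_iff, hn]; exact hr1
  refine ⟨hb, hn, ?_⟩
  obtain ⟨ζ', hζ', h⟩ := exists_ray hb hζ
  have hT : 0 ≤ bd 0 ((r : ℂ) • ζ) := bd_nonneg (by simp) hb
  have h1 : ‖ray ζ' (bd 0 ((r : ℂ) • ζ))‖ = Real.tanh (bd 0 ((r : ℂ) • ζ)) := by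
    unfold ray
    rw [norm_smul, hζ', mul_one, Complex.norm_real, Real.norm_eq_abs, abs_of_nonneg]
    rw [Real.tanh_eq_sinh_div_cosh]
    exact div_nonneg (Real.sinh_nonneg_iff.mpr hT) (Real.cosh_pos _).le
  rw [← h, hn] at h1
  unfold ray
  rw [← h1]

/-- Final estimate.  For `T ≥ 0` take `m` = number of `k` with `s k + 1 ≤ T`; `s k ≤ s 0 + k M`, so
`m ≥ (T - 1 - s 0)/M`; `deficit_sum`: `bd (f 0) (f (ray ζ T)) ≤ T - (ε/2) m ≤ (1-c) T + C`, `c = ε/(2M)`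
(may be made smaller, so that `0 < c < 1`; `c` depends only on `ε, M`).  `1-‖f z‖ ≥ e^(-2 bd 0 (f z))`
and `1 - tanh T ≤ 2 e^(-2T)`. -/
theorem power_of_bad_ray {f : V → W} (hm : MapsTo f (ball 0 1) (ball 0 1))
    (hd : DifferentiableOn ℂ f (ball 0 1)) {M ε : ℝ} (hM : 0 < M) (hε : 0 < ε) :
    ∃ α : ℝ, 0 < α ∧ α < 1 ∧ ∀ ζ : V, ‖ζ‖ = 1 → ∀ s : ℕ → ℝ, 0 ≤ s 0 →
      (∀ k, s k + 1 ≤ s (k + 1)) → (∀ k, s (k + 1) ≤ s k + M) → (∀ k, ε ≤ Df f ζ (s k)) →
      ∃ c > (0 : ℝ), ∀ r : ℝ, 0 ≤ r → r < 1 → c * (1 - r) ^ α ≤ 1 - ‖f ((r : ℂ) • ζ)‖ := by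
  set κ : ℝ := min (ε / M) (1 / 2) with hκ
  have hκ0 : 0 < κ := lt_min (by positivity) (by norm_num)
  have hκ1 : κ ≤ 1 / 2 := min_le_right _ _
  have hκM : κ * M ≤ ε := by
    have : κ ≤ ε / M := min_le_left _ _
    rwa [le_div_iff₀ hM] at this
  refine ⟨1 - κ, by linarith, by linarith, fun ζ hζ s hs0 hs1 hs2 hs3 => ?_⟩
  have hf0 : f 0 ∈ ball (0 : W) 1 := hm (by simp)
  have hgrow : ∀ k : ℕ, s k ≤ s 0 + k * M := fun k => by
    induction k with
    | zero => simp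
    | succ k ih => have := hs2 k; push_cast; linarith
  refine ⟨1 / 2 * Real.exp (-2 * (bd 0 (f 0) + κ * (1 + s 0 + M))), by positivity,
    fun r hr0 hr1 => ?_⟩
  obtain ⟨hb, hn, hray⟩ := ry4_ray hζ hr0 hr1
  set z : V := (r : ℂ) • ζ with hz
  set T : ℝ := bd 0 z with hT
  have hT0 : 0 ≤ T := bd_nonneg (by simp) hb
  have key : bd (f 0) (f z) ≤ (1 - κ) * bd 0 z + κ * (1 + s 0 + M) := by
    set m : ℕ := ⌊(T - 1 - s 0) / M⌋₊ with hmdef
    have h1 : ∀ k < m, s k + 1 ≤ T := fun k hk => by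
      have h2 : ((k : ℝ) + 1) ≤ (T - 1 - s 0) / M := by
        have h3 : k + 1 ≤ m := hk
        have h4 : (m : ℝ) ≤ (T - 1 - s 0) / M := by
          apply Nat.floor_le
          by_contra hneg
          push Not at hneg
          have : m = 0 := Nat.floor_of_nonpos hneg.le
          omega
        have h5 : ((k + 1 : ℕ) : ℝ) ≤ (m : ℝ) := by exact_mod_cast h3
        push_cast at h5
        linarith
      rw [le_div_iff₀ hM] at h2
      have h3 := hgrow k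
      nlinarith
    have h2 := deficit_sum hm hd hζ hs0 hs1 m hT0 h1
    have h3 : (m : ℝ) * ε ≤ ∑ k ∈ Finset.range m, Df f ζ (s k) := by
      have := Finset.card_nsmul_le_sum (Finset.range m) (fun k => Df f ζ (s k)) ε
        (fun k _ => hs3 k)
      simpa [nsmul_eq_mul] using this
    have h4 : (T - 1 - s 0) / M < m + 1 := Nat.lt_floor_add_one _
    rw [div_lt_iff₀ hM] at h4
    rw [← hray] at h2
    have h5 : κ * M * m ≤ ε * m := mul_le_mul_of_nonneg_right hκM (Nat.cast_nonneg m)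
    nlinarith
  have h6 := ry4_core (by linarith : κ ≤ 1) hκ0.le hb (hm hb) hf0 key
  rw [hn] at h6
  exact h6

/-! MODULE ry5 -/

/-- Uniform deficit: compactness of `{(a, b) : a ∈ K, b ∈ ball, bd a b = 1}` and invariance. -/
theorem uniform_deficit [FiniteDimensional ℂ V] {f : V → W} (hf : Eqv f)
    (h : ∀ a ∈ ball (0 : V) 1, ∀ b ∈ ball (0 : V) 1, a ≠ b → bd (f a) (f b) ≠ bd a b) :
    ∃ ε > (0 : ℝ), ∀ a ∈ ball (0 : V) 1, ∀ b ∈ ball (0 : V) 1, bd a b = 1 →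
      bd (f a) (f b) ≤ 1 - ε := by
  obtain ⟨K, hK, hKb, hcoc⟩ := hf.coc
  -- a bound for `bd 0` on `K`
  have h0 : (0 : V) ∈ ball (0 : V) 1 := by simp
  obtain ⟨D, hD⟩ : ∃ D : ℝ, ∀ a ∈ K, bd 0 a ≤ D := by
    have hc : ContinuousOn (fun a : V => bd 0 a) K := by
      have h1 : ContinuousOn ((fun p : V × V => bd p.1 p.2) ∘ fun a : V => ((0 : V), a)) K :=
        ContinuousOn.comp bd_continuousOn (by fun_prop) fun a ha => ⟨h0, hKb ha⟩
      exact h1
    obtain ⟨C, hC⟩ := hK.exists_bound_of_continuousOn hc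
    exact ⟨C, fun a ha => (le_abs_self _).trans (hC a ha)⟩
  set ρ : ℝ := 1 - Real.exp (-2 * (D + 1)) with hρ
  have hρ1 : ρ < 1 := by have := Real.exp_pos (-2 * (D + 1)); linarith
  have hsub : closedBall (0 : V) ρ ⊆ ball 0 1 := closedBall_subset_ball hρ1
  have hclose : ∀ a ∈ K, ∀ b ∈ ball (0 : V) 1, bd a b = 1 → b ∈ closedBall (0 : V) ρ := by
    intro a ha b hb hab
    have h1 := bd_tri h0 (hKb ha) hb
    have h2 := (exp_le_one_sub_norm hb).1
    have h3 : Real.exp (-2 * (D + 1)) ≤ Real.exp (-2 * bd 0 b) := by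
      apply Real.exp_le_exp.mpr
      have := hD a ha
      linarith
    rw [mem_closedBall_zero_iff]
    linarith
  have hcb : IsCompact (closedBall (0 : V) ρ) := by
    haveI : ProperSpace V := FiniteDimensional.proper ℂ V
    exact isCompact_closedBall 0 ρ
  have hcK : IsCompact (K ×ˢ closedBall (0 : V) ρ) := hK.prod hcb
  have hKK : K ×ˢ closedBall (0 : V) ρ ⊆ ball (0 : V) 1 ×ˢ ball (0 : V) 1 :=
    prod_mono hKb hsub
  set S : Set (V × V) := (K ×ˢ closedBall (0 : V) ρ) ∩ (fun p : V × V => bd p.1 p.2) ⁻¹' {1}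
    with hS
  have hScl : IsClosed S :=
    (bd_continuousOn.mono hKK).preimage_isClosed_of_isClosed hcK.isClosed isClosed_singleton
  have hSc : IsCompact S := hcK.of_isClosed_subset hScl inter_subset_left
  have hgc : ContinuousOn (fun p : V × V => bd (f p.1) (f p.2)) S := by
    have h1 : ContinuousOn (fun p : V × V => (f p.1, f p.2)) S := by
      apply ContinuousOn.prodMk
      · exact hf.hol.continuousOn.comp continuousOn_fst fun p hp => hKb hp.1.1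
      · exact hf.hol.continuousOn.comp continuousOn_snd fun p hp => hsub hp.1.2
    have h2 : ContinuousOn ((fun p : W × W => bd p.1 p.2) ∘ fun p : V × V => (f p.1, f p.2)) S :=
      ContinuousOn.comp bd_continuousOn h1 fun p hp =>
        ⟨hf.maps (hKb hp.1.1), hf.maps (hsub hp.1.2)⟩
    exact h2
  obtain ⟨ε, hε, hεS⟩ : ∃ ε > (0 : ℝ), ∀ p ∈ S, bd (f p.1) (f p.2) ≤ 1 - ε := by
    rcases S.eq_empty_or_nonempty with he | hne
    · exact ⟨1, one_pos, fun p hp => by rw [he] at hp; exact hp.elim⟩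
    · obtain ⟨p, hp, hmax⟩ := hSc.exists_isMaxOn hne hgc
      have hp1 : bd p.1 p.2 = 1 := hp.2
      have hb1 : p.1 ∈ ball (0 : V) 1 := hKb hp.1.1
      have hb2 : p.2 ∈ ball (0 : V) 1 := hsub hp.1.2
      have hlt : bd (f p.1) (f p.2) < 1 := by
        have h1 := sp hf.maps hf.hol hb1 hb2
        rw [hp1] at h1
        refine lt_of_le_of_ne h1 ?_
        have hne' : p.1 ≠ p.2 := by
          intro he
          rw [he, bd_self hb2] at hp1
          exact zero_ne_one hp1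
        have := h p.1 hb1 p.2 hb2 hne'
        rwa [hp1] at this
      refine ⟨1 - bd (f p.1) (f p.2), by linarith, fun q hq => ?_⟩
      have := hmax hq
      simp only [mem_setOf_eq] at this
      linarith
  refine ⟨ε, hε, fun a ha b hb hab => ?_⟩
  obtain ⟨ψ, hψ, L, hL, k, hk, hka, hfe⟩ := hcoc a ha
  set b' : V := act ψ⁻¹ b with hb'
  have hb'b : b' ∈ ball (0 : V) 1 := act_mem ((UG V).inv_mem hψ) hb
  have hbb' : act ψ b' = b := act_act_inv hψ hb
  have h1 : bd k b' = 1 := by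
    rw [← bd_act hψ (hKb hk) hb'b, hka, hbb']; exact hab
  have h2 := hεS (k, b') ⟨⟨hk, hclose k hk b' hb'b h1⟩, h1⟩
  rw [← hka, ← hbb', hfe k (hKb hk), hfe b' hb'b, bd_act hL (hf.maps (hKb hk)) (hf.maps hb'b)]
  exact h2

/-- The uniform power bound: as `power_of_bad_ray` with `s k = k`, the constant does not depend on
the direction. -/
theorem power_uniform [FiniteDimensional ℂ V] {f : V → W} (hf : Eqv f)
    (h : ∀ a ∈ ball (0 : V) 1, ∀ b ∈ ball (0 : V) 1, a ≠ b → bd (f a) (f b) ≠ bd a b) :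
    ∃ α : ℝ, 0 < α ∧ α < 1 ∧ ∃ c > (0 : ℝ), ∀ z ∈ ball (0 : V) 1,
      c * (1 - ‖z‖) ^ α ≤ 1 - ‖f z‖ := by
  obtain ⟨ε, hε, hu⟩ := uniform_deficit hf h
  set κ : ℝ := min ε (1 / 2) with hκ
  have hκ0 : 0 < κ := lt_min hε (by norm_num)
  have hκ1 : κ ≤ 1 / 2 := min_le_right _ _
  have hκε : κ ≤ ε := min_le_left _ _
  have hf0 : f 0 ∈ ball (0 : W) 1 := hf.maps (by simp)
  refine ⟨1 - κ, by linarith, by linarith, 1 / 2 * Real.exp (-2 * (bd 0 (f 0) + κ)),
    by positivity, fun z hz => ?_⟩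
  set T : ℝ := bd 0 z with hT
  have hT0 : 0 ≤ T := bd_nonneg (by simp) hz
  have key : bd (f 0) (f z) ≤ (1 - κ) * bd 0 z + κ := by
    by_cases hz0 : z = 0
    · rw [hz0, bd_self hf0, bd_self (by simp)]
      linarith
    obtain ⟨ζ, hζ, hray⟩ := exists_ray hz (ζ0 := ((‖z‖⁻¹ : ℝ) : ℂ) • z) (by
      rw [norm_smul, Complex.norm_real, norm_inv, norm_norm]
      exact inv_mul_cancel₀ (norm_ne_zero_iff.mpr hz0))
    set m : ℕ := ⌊T⌋₊ with hm
    have h1 : ∀ k < m, ((fun k : ℕ => (k : ℝ)) k) + 1 ≤ T := fun k hk => by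
      have h3 : ((k + 1 : ℕ) : ℝ) ≤ (m : ℝ) := by exact_mod_cast hk
      have h4 : (m : ℝ) ≤ T := Nat.floor_le hT0
      push_cast at h3
      simp only
      linarith
    have h2 := deficit_sum hf.maps hf.hol hζ (s := fun k : ℕ => (k : ℝ)) (by simp)
      (fun k => by push_cast; exact le_rfl) m hT0 h1
    have h3 : (m : ℝ) * ε ≤ ∑ k ∈ Finset.range m, Df f ζ ((fun k : ℕ => (k : ℝ)) k) := by
      have h4 : ∀ k ∈ Finset.range m, ε ≤ Df f ζ ((fun k : ℕ => (k : ℝ)) k) := fun k _ => by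
        have h5 := hu (ray ζ k) (ray_mem hζ _) (ray ζ (k + 1)) (ray_mem hζ _) (by
          rw [bd_ray hζ]; rw [show (k : ℝ) - (k + 1) = -1 by ring]; simp)
        unfold Df
        simp only
        linarith
      have := Finset.card_nsmul_le_sum (Finset.range m) _ ε h4
      simpa [nsmul_eq_mul] using this
    have h4 : T < m + 1 := Nat.lt_floor_add_one _
    rw [← hray] at h2
    have h5 : κ * m ≤ ε * m := mul_le_mul_of_nonneg_right hκε (Nat.cast_nonneg m)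
    nlinarith
  exact ry4_core (by linarith : κ ≤ 1) hκ0.le hz (hf.maps hz) hf0 key

end Pool.Agent.BdReg
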