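import Pool.Agent.BdReg.Emb
import Pool.Agent.BdReg.Diff
import Pool.Agent.BdReg.Iso
import Pool.Agent.BdReg.Ray

/-! The hypotheses of Q1 (as in the frozen statement) and the main theorem. -/

set_option autoImplicit false

open Metric Set Filter Topology

namespace Pool.Agent.BdReg

open Pool.Agent.BallCurve

/-- The hypotheses of Q1 on `n, N, Γ, f`, in the form of the frozen statement. -/
structure Q1Hyp (n N : ℕ) (Γ : Subgroup (Equiv.Perm (ball (0 : EuclideanSpace ℂ (Fin N)) 1)))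
    (f : EuclideanSpace ℂ (Fin n) → EuclideanSpace ℂ (Fin N)) : Prop where
  one_le : 1 ≤ n
  lt : n < N
  hol_group : ∀ γ ∈ Γ, ∃ g : EuclideanSpace ℂ (Fin N) → EuclideanSpace ℂ (Fin N),
      DifferentiableOn ℂ g (ball (0 : EuclideanSpace ℂ (Fin N)) 1) ∧
      ∀ z : ball (0 : EuclideanSpace ℂ (Fin N)) 1, (γ z).1 = g z.1
  discrete : ∃ K : Set (EuclideanSpace ℂ (Fin N)), IsCompact K ∧
      K ⊆ ball (0 : EuclideanSpace ℂ (Fin N)) 1 ∧ ∃ ε : ℝ, 0 < ε ∧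
      ∀ γ ∈ Γ, (∀ z : ball (0 : EuclideanSpace ℂ (Fin N)) 1,
        z.1 ∈ K → ‖(γ z).1 - z.1‖ < ε) → γ = 1
  maps : MapsTo f (ball (0 : EuclideanSpace ℂ (Fin n)) 1)
      (ball (0 : EuclideanSpace ℂ (Fin N)) 1)
  hol : DifferentiableOn ℂ f (ball (0 : EuclideanSpace ℂ (Fin n)) 1)
  proper : ∀ K : Set (EuclideanSpace ℂ (Fin N)), IsCompact K →
      K ⊆ ball (0 : EuclideanSpace ℂ (Fin N)) 1 →
      IsCompact (ball (0 : EuclideanSpace ℂ (Fin n)) 1 ∩ f ⁻¹' K)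
  inj : InjOn f (ball (0 : EuclideanSpace ℂ (Fin n)) 1)
  imm : ∀ z ∈ ball (0 : EuclideanSpace ℂ (Fin n)) 1, Function.Injective (fderiv ℂ f z)
  invariant : ∀ γ ∈ Γ, ∀ z : ball (0 : EuclideanSpace ℂ (Fin N)) 1,
      z.1 ∈ f '' ball (0 : EuclideanSpace ℂ (Fin n)) 1 →
      (γ z).1 ∈ f '' ball (0 : EuclideanSpace ℂ (Fin n)) 1
  cocompact : ∃ C : Set (EuclideanSpace ℂ (Fin N)), IsCompact C ∧
      C ⊆ f '' ball (0 : EuclideanSpace ℂ (Fin n)) 1 ∧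
      ∀ z : ball (0 : EuclideanSpace ℂ (Fin N)) 1,
        z.1 ∈ f '' ball (0 : EuclideanSpace ℂ (Fin n)) 1 → ∃ γ ∈ Γ, (γ z).1 ∈ C

/-- `f` is linear: its image is the ball cut by an `n`-dimensional complex affine subspace. -/
def IsLinear (n N : ℕ) (f : EuclideanSpace ℂ (Fin n) → EuclideanSpace ℂ (Fin N)) : Prop :=
  ∃ A : AffineSubspace ℂ (EuclideanSpace ℂ (Fin N)),
    Module.finrank ℂ A.direction = n ∧
    f '' ball (0 : EuclideanSpace ℂ (Fin n)) 1 =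
      ball (0 : EuclideanSpace ℂ (Fin N)) 1 ∩ (A : Set (EuclideanSpace ℂ (Fin N)))

variable {n N : ℕ} {Γ : Subgroup (Equiv.Perm (ball (0 : EuclideanSpace ℂ (Fin N)) 1))}
  {f : EuclideanSpace ℂ (Fin n) → EuclideanSpace ℂ (Fin N)}

/-! MODULE qq1 -/

theorem Q1Hyp.emb (h : Q1Hyp n N Γ f) : Emb f := ⟨h.maps, h.hol, h.proper, h.inj, h.imm⟩

/-- Every element of `Γ` is `act L` (`aut_eq_act` with the extensions of `γ` and `γ⁻¹`). -/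
theorem Q1Hyp.exists_L (h : Q1Hyp n N Γ f) {γ : Equiv.Perm (ball (0 : EuclideanSpace ℂ (Fin N)) 1)}
    (hγ : γ ∈ Γ) : ∃ L ∈ UG (EuclideanSpace ℂ (Fin N)),
      ∀ z : ball (0 : EuclideanSpace ℂ (Fin N)) 1, (γ z).1 = act L z.1 := by
  obtain ⟨g, hg, hg'⟩ := h.hol_group γ hγ
  obtain ⟨k, hk, hk'⟩ := h.hol_group γ⁻¹ (Γ.inv_mem hγ)
  have e1 : ∀ z (hz : z ∈ ball (0 : EuclideanSpace ℂ (Fin N)) 1), g z = (γ ⟨z, hz⟩).1 :=
    fun z hz => (hg' ⟨z, hz⟩).symm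
  have e2 : ∀ z (hz : z ∈ ball (0 : EuclideanSpace ℂ (Fin N)) 1), k z = (γ⁻¹ ⟨z, hz⟩).1 :=
    fun z hz => (hk' ⟨z, hz⟩).symm
  obtain ⟨L, hL, hL'⟩ := aut_eq_act (g := g) (h := k)
    (fun z hz => by rw [e1 z hz]; exact (γ ⟨z, hz⟩).2)
    (fun z hz => by rw [e2 z hz]; exact (γ⁻¹ ⟨z, hz⟩).2) hg hk
    (fun z hz => by
      rw [e2 z hz, e1 _ (γ⁻¹ ⟨z, hz⟩).2]
      exact congrArg Subtype.val (Equiv.apply_symm_apply γ ⟨z, hz⟩))
    (fun z hz => by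
      rw [e1 z hz, e2 _ (γ ⟨z, hz⟩).2]
      exact congrArg Subtype.val (Equiv.symm_apply_apply γ ⟨z, hz⟩))
  exact ⟨L, hL, fun z => by rw [hg' z, hL' z.1 z.2]⟩

/-- `K = ball ∩ f⁻¹ C` is compact; for `x ∈ ball` take `γ` with `γ (f x) ∈ C` and use `Emb.lift` for the
`L` of `γ⁻¹`: `f x = γ⁻¹ (γ (f x)) = act L (f k) = f (act ψ k)`. -/
theorem Q1Hyp.eqv (h : Q1Hyp n N Γ f) : Eqv f := by
  obtain ⟨C, hC, hCf, hcov⟩ := h.cocompact
  have hCb : C ⊆ ball (0 : EuclideanSpace ℂ (Fin N)) 1 := by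
    intro w hw
    obtain ⟨z, hz, rfl⟩ := hCf hw
    exact h.maps hz
  refine ⟨h.maps, h.hol, _, h.proper C hC hCb, inter_subset_left, fun x hx => ?_⟩
  obtain ⟨γ, hγ, hγC⟩ := hcov ⟨f x, h.maps hx⟩ ⟨x, hx, rfl⟩
  obtain ⟨k, hk, hk'⟩ := hCf hγC
  obtain ⟨L, hL, hL'⟩ := h.exists_L (Γ.inv_mem hγ)
  have e1 : ∀ w (hw : w ∈ ball (0 : EuclideanSpace ℂ (Fin N)) 1),
      act L w = (γ⁻¹ ⟨w, hw⟩).1 := fun w hw => (hL' ⟨w, hw⟩).symm
  have e2 : ∀ w (hw : w ∈ ball (0 : EuclideanSpace ℂ (Fin N)) 1),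
      act L⁻¹ w = (γ ⟨w, hw⟩).1 := by
    intro w hw
    have h1 := e1 _ (γ ⟨w, hw⟩).2
    have h2 : (γ⁻¹ (⟨(γ ⟨w, hw⟩).1, (γ ⟨w, hw⟩).2⟩ :
        ball (0 : EuclideanSpace ℂ (Fin N)) 1)).1 = w :=
      congrArg Subtype.val (Equiv.symm_apply_apply γ ⟨w, hw⟩)
    rw [h2] at h1
    have h3 := act_inv_act hL (γ ⟨w, hw⟩).2
    rwa [h1] at h3
  obtain ⟨ψ, hψ, hψ'⟩ := h.emb.lift hL
    (by
      rintro _ ⟨z, hz, rfl⟩
      rw [e1 _ (h.maps hz)]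
      exact h.invariant γ⁻¹ (Γ.inv_mem hγ) ⟨f z, h.maps hz⟩ ⟨z, hz, rfl⟩)
    (by
      rintro _ ⟨z, hz, rfl⟩
      rw [e2 _ (h.maps hz)]
      exact h.invariant γ hγ ⟨f z, h.maps hz⟩ ⟨z, hz, rfl⟩)
  refine ⟨ψ, hψ, L, hL, k, ⟨hk, ?_⟩, ?_, hψ'⟩
  · show f k ∈ C
    rw [hk']
    exact hγC
  · refine h.inj (act_mem hψ hk) hx ?_
    rw [hψ' k hk, hk', e1 _ (γ ⟨f x, h.maps hx⟩).2]
    exact congrArg Subtype.val (Equiv.symm_apply_apply γ ⟨f x, h.maps hx⟩)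

/-- `exists_affine`, `Emb.image_eq`. -/
theorem Q1Hyp.isLinear_of_Lin (h : Q1Hyp n N Γ f) (hl : Lin f) : IsLinear n N f := by
  obtain ⟨S, hS, hS'⟩ := hl
  have h0 : (0 : EuclideanSpace ℂ (Fin n)) ∈ ball (0 : EuclideanSpace ℂ (Fin n)) 1 := by simp
  obtain ⟨A, hA, hA'⟩ := exists_affine S (hS' 0 h0) hS
  obtain ⟨h1, h2⟩ := h.emb.image_eq hA fun z hz => (hA' _).2 (hS' z hz)
  refine ⟨A, ?_, h2⟩
  rw [h1, finrank_euclideanSpace_fin]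

/-! MODULE qq2 -/

/-- Part (1).  `p = F ζ`; `HasFDerivWithinAt` gives the expansion of `F`, hence of `f`, on the ball;
`‖p‖ = 1`: `f (r ζ) → p` and `Emb.norm_tendsto`; then `lin_of_real_diff`, `isLinear_of_Lin`. -/
theorem Q1Hyp.part1 (h : Q1Hyp n N Γ f) {ζ : EuclideanSpace ℂ (Fin n)} (hζ : ‖ζ‖ = 1)
    {F : EuclideanSpace ℂ (Fin n) → EuclideanSpace ℂ (Fin N)} (hF : EqOn F f (ball 0 1))
    (hd : DifferentiableWithinAt ℝ F (ball 0 1) ζ) : IsLinear n N f := by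
  obtain ⟨A, hA⟩ := hd
  set p := F ζ with hp
  have hLo : (fun z => f z - p - A (z - ζ)) =o[𝓝[ball 0 1] ζ] (fun z => z - ζ) := by
    refine hA.isLittleO.congr' ?_ (Eventually.of_forall fun _ => rfl)
    filter_upwards [self_mem_nhdsWithin] with z hz
    rw [hF hz]
  -- the norm of `p`
  set r : ℕ → ℝ := fun j => 1 - 1 / ((j : ℝ) + 2) with hr
  have hr0 : ∀ j, 0 ≤ r j := fun j => by
    have h1 : 1 / ((j : ℝ) + 2) ≤ 1 := by
      rw [div_le_one (by positivity)]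
      have : (0 : ℝ) ≤ j := Nat.cast_nonneg j
      linarith
    simp only [hr]; linarith
  have hr1 : ∀ j, r j < 1 := fun j => by
    have : (0 : ℝ) < 1 / ((j : ℝ) + 2) := by positivity
    simp only [hr]; linarith
  have hrt : Tendsto r atTop (𝓝 1) := by
    have h1 : Tendsto (fun j : ℕ => 1 - 1 / ((j : ℝ) + 2)) atTop (𝓝 (1 - 0)) := by
      apply Tendsto.const_sub
      have := tendsto_one_div_add_atTop_nhds_zero_nat (𝕜 := ℝ)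
      have h2 := (tendsto_add_atTop_iff_nat 1).mpr this
      refine h2.congr fun j => ?_
      push_cast; ring_nf
    rwa [sub_zero] at h1
  have hn : ∀ j, ‖((r j : ℝ) : ℂ) • ζ‖ = r j := fun j => by
    rw [norm_smul, hζ, mul_one, Complex.norm_real, Real.norm_eq_abs, abs_of_nonneg (hr0 j)]
  have hb : ∀ j, ((r j : ℝ) : ℂ) • ζ ∈ ball (0 : EuclideanSpace ℂ (Fin n)) 1 := fun j => by
    rw [mem_ball_zero_iff, hn]; exact hr1 j
  have hzt : Tendsto (fun j => ((r j : ℝ) : ℂ) • ζ) atTop (𝓝[ball 0 1] ζ) := by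
    apply tendsto_nhdsWithin_iff.mpr
    refine ⟨?_, Eventually.of_forall hb⟩
    have h1 : Tendsto (fun j => ((r j : ℝ) : ℂ) • ζ) atTop (𝓝 (((1 : ℝ) : ℂ) • ζ)) :=
      ((Complex.continuous_ofReal.tendsto 1).comp hrt).smul_const ζ
    rwa [Complex.ofReal_one, one_smul] at h1
  have hfp : Tendsto (fun j => f (((r j : ℝ) : ℂ) • ζ)) atTop (𝓝 p) := by
    have h1 : Tendsto (fun j => F (((r j : ℝ) : ℂ) • ζ)) atTop (𝓝 p) :=
      hA.continuousWithinAt.tendsto.comp hzt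
    exact h1.congr fun j => hF (hb j)
  have hp1 : ‖p‖ = 1 := by
    have h1 := h.emb.norm_tendsto hb (by simp only [hn]; exact hrt)
    exact tendsto_nhds_unique hfp.norm h1
  exact h.isLinear_of_Lin (lin_of_real_diff h.eqv hζ hp1 hLo)

/-- Part (2): `claim_a`, `exists_bad_ray`, `power_of_bad_ray`. -/
theorem Q1Hyp.part2 (h : Q1Hyp n N Γ f) (hn : ¬ IsLinear n N f) :
    ∃ α : ℝ, 0 < α ∧ α < 1 ∧ ∀ ζ0 : EuclideanSpace ℂ (Fin n), ‖ζ0‖ = 1 → ∀ ρ > (0 : ℝ),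
      ∃ ζ : EuclideanSpace ℂ (Fin n), ‖ζ‖ = 1 ∧ ‖ζ - ζ0‖ < ρ ∧
        ∃ c > (0 : ℝ), ∀ r : ℝ, 0 ≤ r → r < 1 → c * (1 - r) ^ α ≤ 1 - ‖f ((r : ℂ) • ζ)‖ := by
  have hl : ¬ Lin f := fun hl => hn (h.isLinear_of_Lin hl)
  obtain ⟨R, hR, ε, hε, H⟩ := claim_a h.eqv hl
  obtain ⟨M, hM, hray⟩ := exists_bad_ray h.maps h.hol hR hε H
  obtain ⟨α, hα0, hα1, hpow⟩ := power_of_bad_ray h.maps h.hol hM (half_pos hε)
  refine ⟨α, hα0, hα1, fun ζ0 hζ0 ρ hρ => ?_⟩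
  obtain ⟨ζ, hζ, hd, s, h0, h1, h2, h3⟩ := hray ζ0 hζ0 ρ hρ
  exact ⟨ζ, hζ, hd, hpow ζ hζ s h0 h1 h2 h3⟩

/-! MODULE qq3 -/

/-- Hoelder consequence.  Let `ζ ∈ V` be a point as in part (2), `‖f z - f w‖ ≤ C ‖z - w‖^β` on `V ∩ ball`,
`β > α`: `f (r ζ)` is Cauchy as `r → 1`, with limit `p`, `‖p‖ = 1` (`Emb.norm_tendsto`);
`c (1-r)^α ≤ 1-‖f (r ζ)‖ ≤ ‖p - f (r ζ)‖ ≤ C (1-r)^β`: contradiction as `r → 1`. -/
theorem not_hoelder (he : Emb f) {α : ℝ} (hα : 0 < α) {ζ : EuclideanSpace ℂ (Fin n)}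
    (hζ : ‖ζ‖ = 1) {c : ℝ} (hc : 0 < c)
    (h : ∀ r : ℝ, 0 ≤ r → r < 1 → c * (1 - r) ^ α ≤ 1 - ‖f ((r : ℂ) • ζ)‖)
    {U : Set (EuclideanSpace ℂ (Fin n))} (hU : IsOpen U) (hζU : ζ ∈ U) {β : ℝ} (hβ : α < β) :
    ¬ ∃ C : ℝ, ∀ z ∈ U ∩ ball 0 1, ∀ w ∈ U ∩ ball 0 1, ‖f z - f w‖ ≤ C * ‖z - w‖ ^ β := by
  rintro ⟨C, hC⟩
  have hray : ∀ r : ℝ, 0 ≤ r → r < 1 → ‖(r : ℂ) • ζ‖ = r ∧
      (r : ℂ) • ζ ∈ ball (0 : EuclideanSpace ℂ (Fin n)) 1 := fun r hr0 hr1 => by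
    have h1 : ‖(r : ℂ) • ζ‖ = r := by
      rw [norm_smul, hζ, mul_one, Complex.norm_real, Real.norm_eq_abs, abs_of_nonneg hr0]
    exact ⟨h1, by rw [mem_ball_zero_iff, h1]; exact hr1⟩
  -- the radius is in `U` near `1`
  obtain ⟨r0, hr01, hr0U⟩ : ∃ r0 < (1 : ℝ), ∀ r, r0 < r → r < 1 → (r : ℂ) • ζ ∈ U := by
    have h1 : Tendsto (fun r : ℝ => (r : ℂ) • ζ) (𝓝 (1 : ℝ)) (𝓝 (((1 : ℝ) : ℂ) • ζ)) :=
      (Complex.continuous_ofReal.tendsto 1).smul_const ζ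
    rw [Complex.ofReal_one, one_smul] at h1
    have h2 := h1.eventually (hU.mem_nhds hζU)
    obtain ⟨δ, hδ, hδU⟩ := Metric.eventually_nhds_iff.mp h2
    refine ⟨1 - δ, by linarith, fun r h3 h4 => hδU ?_⟩
    rw [Real.dist_eq, abs_of_neg (by linarith)]
    linarith
  set r1 : ℝ := max r0 0 with hr1
  have hr11 : r1 < 1 := max_lt hr01 one_pos
  have hr10 : 0 ≤ r1 := le_max_right _ _
  set D : ℝ := max C 0 with hD
  have hD0 : 0 ≤ D := le_max_right _ _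
  -- comparison with the boundary
  have hβ0 : 0 < β := hα.trans hβ
  have key : ∀ r, r1 < r → r < 1 → 1 - ‖f ((r : ℂ) • ζ)‖ ≤ D * (1 - r) ^ β := by
    intro r h1 h2
    have hr_0 : 0 ≤ r := hr10.trans h1.le
    have hrU : (r : ℂ) • ζ ∈ U := hr0U r ((le_max_left _ _).trans_lt h1) h2
    -- a sequence `t j → 1`, `r ≤ t j`
    set t : ℕ → ℝ := fun j => 1 - (1 - r) / ((j : ℝ) + 1) with ht
    have ht1 : ∀ j, t j < 1 := fun j => by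
      have : 0 < (1 - r) / ((j : ℝ) + 1) := div_pos (by linarith) (by positivity)
      simp only [ht]; linarith
    have htr : ∀ j, r ≤ t j := fun j => by
      have : (1 - r) / ((j : ℝ) + 1) ≤ 1 - r := by
        apply div_le_self (by linarith)
        have : (0 : ℝ) ≤ j := Nat.cast_nonneg j
        linarith
      simp only [ht]; linarith
    have htt : Tendsto t atTop (𝓝 1) := by
      have h3 : Tendsto (fun j : ℕ => 1 - (1 - r) / ((j : ℝ) + 1)) atTop (𝓝 (1 - 0)) := by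
        apply Tendsto.const_sub
        have := (tendsto_one_div_add_atTop_nhds_zero_nat (𝕜 := ℝ)).const_mul (1 - r)
        rw [mul_zero] at this
        refine this.congr fun j => ?_
        ring
      rwa [sub_zero] at h3
    have hnt := he.norm_tendsto (z := fun j => ((t j : ℝ) : ℂ) • ζ)
      (fun j => (hray (t j) (hr_0.trans (htr j)) (ht1 j)).2) (by
        have h3 : ∀ j, ‖((t j : ℝ) : ℂ) • ζ‖ = t j := fun j =>
          (hray (t j) (hr_0.trans (htr j)) (ht1 j)).1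
        simp only [h3]; exact htt)
    have hbound : ∀ j, ‖f (((t j : ℝ) : ℂ) • ζ)‖ ≤ ‖f ((r : ℂ) • ζ)‖ + D * (1 - r) ^ β := by
      intro j
      have htU : ((t j : ℝ) : ℂ) • ζ ∈ U := hr0U (t j)
        ((le_max_left _ _).trans_lt (h1.trans_le (htr j))) (ht1 j)
      have h3 := hC _ ⟨htU, (hray (t j) (hr_0.trans (htr j)) (ht1 j)).2⟩ _
        ⟨hrU, (hray r hr_0 h2).2⟩
      have h4 : ‖((t j : ℝ) : ℂ) • ζ - (r : ℂ) • ζ‖ = t j - r := by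
        rw [← sub_smul, ← Complex.ofReal_sub, norm_smul, hζ, mul_one, Complex.norm_real,
          Real.norm_eq_abs, abs_of_nonneg (by linarith [htr j])]
      rw [h4] at h3
      have h5 : (t j - r) ^ β ≤ (1 - r) ^ β :=
        Real.rpow_le_rpow (by linarith [htr j]) (by linarith [ht1 j]) hβ0.le
      have h6 : C * (t j - r) ^ β ≤ D * (1 - r) ^ β :=
        mul_le_mul (le_max_left _ _) h5 (Real.rpow_nonneg (by linarith [htr j]) _) hD0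
      have h7 := norm_sub_norm_le (f (((t j : ℝ) : ℂ) • ζ)) (f ((r : ℂ) • ζ))
      linarith
    have h3 := le_of_tendsto' hnt hbound
    linarith
  -- conclusion
  have hlim : Tendsto (fun r : ℝ => D * (1 - r) ^ (β - α)) (𝓝[<] (1 : ℝ)) (𝓝 0) := by
    have h1 : Tendsto (fun r : ℝ => 1 - r) (𝓝[<] (1 : ℝ)) (𝓝 0) := by
      have : Tendsto (fun r : ℝ => 1 - r) (𝓝 (1 : ℝ)) (𝓝 (1 - 1)) := by
        apply Tendsto.const_sub; exact tendsto_id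
      rw [sub_self] at this
      exact this.mono_left nhdsWithin_le_nhds
    have h2 : Tendsto (fun r : ℝ => (1 - r) ^ (β - α)) (𝓝[<] (1 : ℝ)) (𝓝 (0 ^ (β - α))) :=
      h1.rpow_const (Or.inr (by linarith))
    rw [Real.zero_rpow (by linarith)] at h2
    have h3 := h2.const_mul D
    rwa [mul_zero] at h3
  have hev : ∀ᶠ r in 𝓝[<] (1 : ℝ), D * (1 - r) ^ (β - α) < c :=
    hlim.eventually (gt_mem_nhds hc)
  obtain ⟨r, hr_1, hr_2⟩ := (hev.and (Ioo_mem_nhdsLT hr11)).exists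
  have h1 := h r (hr10.trans hr_2.1.le) hr_2.2
  have h2 := key r hr_2.1 hr_2.2
  have hpos : 0 < 1 - r := by linarith [hr_2.2]
  have h3 : (1 - r) ^ β = (1 - r) ^ (β - α) * (1 - r) ^ α := by
    rw [← Real.rpow_add hpos]; ring_nf
  have h4 : 0 < (1 - r) ^ α := Real.rpow_pos_of_pos hpos _
  have h5 : c * (1 - r) ^ α ≤ D * (1 - r) ^ (β - α) * (1 - r) ^ α := by
    rw [mul_assoc, ← h3]; exact h1.trans h2
  have h6 := le_of_mul_le_mul_right h5 h4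
  linarith

/-- Residual version: for `β > α` the set of `ζ` for which `(1-r)^β ≤ 1 - ‖f (r ζ)‖` holds for `r`
arbitrarily close to `1` contains the dense `G_δ` set `⋂_k ⋃_(r > 1-1/k) {ζ | (1-r)^β < 1-‖f (r ζ)‖}`. -/
theorem residual_of_dense (hm : MapsTo f (ball 0 1) (ball 0 1)) (hd : DifferentiableOn ℂ f (ball 0 1))
    {α β : ℝ} (hα : 0 < α) (hβ : α < β)
    (h : ∀ ζ0 : EuclideanSpace ℂ (Fin n), ‖ζ0‖ = 1 → ∀ ρ > (0 : ℝ),
      ∃ ζ : EuclideanSpace ℂ (Fin n), ‖ζ‖ = 1 ∧ ‖ζ - ζ0‖ < ρ ∧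
        ∃ c > (0 : ℝ), ∀ r : ℝ, 0 ≤ r → r < 1 → c * (1 - r) ^ α ≤ 1 - ‖f ((r : ℂ) • ζ)‖) :
    ∀ᶠ ζ : sphere (0 : EuclideanSpace ℂ (Fin n)) 1 in
        residual (sphere (0 : EuclideanSpace ℂ (Fin n)) 1),
      ∃ᶠ r : ℝ in 𝓝[<] (1 : ℝ), (1 - r) ^ β ≤ 1 - ‖f ((r : ℂ) • ζ.1)‖ := by
  have hray : ∀ ζ : sphere (0 : EuclideanSpace ℂ (Fin n)) 1, ∀ r : ℝ, 0 ≤ r → r < 1 →
      (r : ℂ) • ζ.1 ∈ ball (0 : EuclideanSpace ℂ (Fin n)) 1 := fun ζ r hr0 hr1 => by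
    have hζ : ‖ζ.1‖ = 1 := by simpa using ζ.2
    rw [mem_ball_zero_iff, norm_smul, hζ, mul_one, Complex.norm_real, Real.norm_eq_abs,
      abs_of_nonneg hr0]
    exact hr1
  have hk0 : ∀ k : ℕ, (0 : ℝ) ≤ 1 - 1 / ((k : ℝ) + 1) := fun k => by
    have : 1 / ((k : ℝ) + 1) ≤ 1 := by
      rw [div_le_one (by positivity)]
      have : (0 : ℝ) ≤ k := Nat.cast_nonneg k
      linarith
    linarith
  have hk1 : ∀ k : ℕ, 1 - 1 / ((k : ℝ) + 1) < 1 := fun k => by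
    have : (0 : ℝ) < 1 / ((k : ℝ) + 1) := by positivity
    linarith
  set G : ℕ → Set (sphere (0 : EuclideanSpace ℂ (Fin n)) 1) := fun k =>
    {ζ | ∃ r : ℝ, 1 - 1 / ((k : ℝ) + 1) < r ∧ r < 1 ∧ (1 - r) ^ β < 1 - ‖f ((r : ℂ) • ζ.1)‖} with hG
  have hGo : ∀ k, IsOpen (G k) := by
    intro k
    have h1 : G k = ⋃ r : {r : ℝ // 1 - 1 / ((k : ℝ) + 1) < r ∧ r < 1},
        {ζ : sphere (0 : EuclideanSpace ℂ (Fin n)) 1 |
          (1 - r.1) ^ β < 1 - ‖f ((r.1 : ℂ) • ζ.1)‖} := by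
      ext ζ
      simp only [hG, mem_iUnion]
      constructor
      · rintro ⟨r, h1, h2, h3⟩
        exact ⟨⟨r, h1, h2⟩, h3⟩
      · rintro ⟨⟨r, h1, h2⟩, h3⟩
        exact ⟨r, h1, h2, h3⟩
    rw [h1]
    apply isOpen_iUnion
    rintro ⟨r, hr1, hr2⟩
    have hr0 : 0 ≤ r := (hk0 k).trans hr1.le
    have hcont : Continuous fun ζ : sphere (0 : EuclideanSpace ℂ (Fin n)) 1 =>
        1 - ‖f ((r : ℂ) • ζ.1)‖ := by
      apply Continuous.sub continuous_const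
      apply Continuous.norm
      have h2 : Continuous fun ζ : sphere (0 : EuclideanSpace ℂ (Fin n)) 1 => (r : ℂ) • ζ.1 := by
        fun_prop
      exact hd.continuousOn.comp_continuous h2 fun ζ => hray ζ r hr0 hr2
    exact isOpen_lt continuous_const hcont
  have hGd : ∀ k, Dense (G k) := by
    intro k
    rw [Metric.dense_iff]
    intro ζ0 ρ hρ
    obtain ⟨ζ, hζ, hdist, c, hc, hcr⟩ := h ζ0.1 (by simpa using ζ0.2) ρ hρ
    refine ⟨⟨ζ, by simpa using hζ⟩, ?_, ?_⟩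
    · rw [mem_ball, Subtype.dist_eq, dist_eq_norm]; exact hdist
    · have hlim : Tendsto (fun r : ℝ => (1 - r) ^ (β - α)) (𝓝[<] (1 : ℝ)) (𝓝 0) := by
        have h1 : Tendsto (fun r : ℝ => 1 - r) (𝓝[<] (1 : ℝ)) (𝓝 0) := by
          have : Tendsto (fun r : ℝ => 1 - r) (𝓝 (1 : ℝ)) (𝓝 (1 - 1)) := by
            apply Tendsto.const_sub; exact tendsto_id
          rw [sub_self] at this
          exact this.mono_left nhdsWithin_le_nhds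
        have h2 : Tendsto (fun r : ℝ => (1 - r) ^ (β - α)) (𝓝[<] (1 : ℝ)) (𝓝 (0 ^ (β - α))) :=
          h1.rpow_const (Or.inr (by linarith))
        rwa [Real.zero_rpow (by linarith)] at h2
      have hev : ∀ᶠ r in 𝓝[<] (1 : ℝ), (1 - r) ^ (β - α) < c := hlim.eventually (gt_mem_nhds hc)
      obtain ⟨r, hr_1, hr_2⟩ := (hev.and (Ioo_mem_nhdsLT (hk1 k))).exists
      refine ⟨r, hr_2.1, hr_2.2, ?_⟩
      have hpos : 0 < 1 - r := by linarith [hr_2.2]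
      have h3 : (1 - r) ^ β = (1 - r) ^ (β - α) * (1 - r) ^ α := by
        rw [← Real.rpow_add hpos]; ring_nf
      have h4 : 0 < (1 - r) ^ α := Real.rpow_pos_of_pos hpos _
      have h5 := hcr r ((hk0 k).trans hr_2.1.le) hr_2.2
      rw [h3]
      exact (mul_lt_mul_of_pos_right hr_1 h4).trans_le h5
  have hres : ∀ᶠ ζ : sphere (0 : EuclideanSpace ℂ (Fin n)) 1 in
      residual (sphere (0 : EuclideanSpace ℂ (Fin n)) 1), ∀ k, ζ ∈ G k := by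
    rw [eventually_countable_forall]
    intro k
    exact residual_of_dense_open (hGo k) (hGd k)
  filter_upwards [hres] with ζ hζ
  rw [frequently_iff]
  intro s hs
  obtain ⟨a, ha, has⟩ := mem_nhdsLT_iff_exists_Ioo_subset.mp hs
  obtain ⟨k, hk⟩ := exists_nat_one_div_lt (show (0 : ℝ) < 1 - a by
    have : a < 1 := ha
    linarith)
  obtain ⟨r, hr1, hr2, hr3⟩ := hζ k
  exact ⟨r, has ⟨by linarith, hr2⟩, hr3.le⟩

/-! MODULE qq4 -/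

/-- Part (3): if `f` maps no complex line section of the ball into a complex line, `power_uniform`
applies (`sp_eq`: equality for one pair would map the line into a line). -/
theorem Q1Hyp.part3 (h : Q1Hyp n N Γ f)
    (hl : ¬ ∃ a ∈ ball (0 : EuclideanSpace ℂ (Fin n)) 1, ∃ b ∈ ball (0 : EuclideanSpace ℂ (Fin n)) 1,
      a ≠ b ∧ ∀ x ∈ ball (0 : EuclideanSpace ℂ (Fin n)) 1, x ∈ cline a b → f x ∈ cline (f a) (f b)) :
    ∃ α : ℝ, 0 < α ∧ α < 1 ∧ ∃ c > (0 : ℝ), ∀ z ∈ ball (0 : EuclideanSpace ℂ (Fin n)) 1,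
      c * (1 - ‖z‖) ^ α ≤ 1 - ‖f z‖ := by
  refine power_uniform h.eqv fun a ha b hb hab he => hl ?_
  exact ⟨a, ha, b, hb, hab, (sp_eq h.maps h.hol ha hb hab he).2⟩

/-- For `n = 1` a map which sends some complex line section into a complex line is linear
(the line section is the whole disc; `(1, f z) ∈ span ((1, f a), (1, f b))`). -/
theorem Q1Hyp.isLinear_of_line {Γ : Subgroup (Equiv.Perm (ball (0 : EuclideanSpace ℂ (Fin N)) 1))}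
    {f : EuclideanSpace ℂ (Fin 1) → EuclideanSpace ℂ (Fin N)} (h : Q1Hyp 1 N Γ f)
    {a b : EuclideanSpace ℂ (Fin 1)} (ha : a ∈ ball (0 : EuclideanSpace ℂ (Fin 1)) 1)
    (hb : b ∈ ball (0 : EuclideanSpace ℂ (Fin 1)) 1) (hab : a ≠ b)
    (hl : ∀ x ∈ ball (0 : EuclideanSpace ℂ (Fin 1)) 1, x ∈ cline a b → f x ∈ cline (f a) (f b)) :
    IsLinear 1 N f := by
  refine h.isLinear_of_Lin ⟨Submodule.span ℂ (Set.range
    (![((1 : ℂ), f a), ((1 : ℂ), f b)] : Fin 2 → ℂ × EuclideanSpace ℂ (Fin N))), ?_,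
    fun z hz => ?_⟩
  · refine le_trans (finrank_range_le_card _) ?_
    rw [finrank_euclideanSpace_fin, Fintype.card_fin]
  · have hab0 : b 0 - a 0 ≠ 0 := by
      intro h0
      apply hab
      ext i
      rw [Subsingleton.elim i 0]
      exact (sub_eq_zero.1 h0).symm
    have hzl : z ∈ cline a b := by
      refine ⟨(z 0 - a 0) / (b 0 - a 0), ?_⟩
      ext i
      rw [Subsingleton.elim i 0]
      show z 0 = a 0 + (z 0 - a 0) / (b 0 - a 0) * (b 0 - a 0)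
      rw [div_mul_cancel₀ _ hab0]
      ring
    obtain ⟨d, hd⟩ := hl z hz hzl
    have h1 : ((1 : ℂ), f z) = (1 - d) • ((1 : ℂ), f a) + d • ((1 : ℂ), f b) := by
      refine Prod.ext ?_ ?_
      · show (1 : ℂ) = (1 - d) * 1 + d * 1
        ring
      · show f z = (1 - d) • f a + d • f b
        rw [hd]
        module
    rw [h1]
    exact Submodule.add_mem _ (Submodule.smul_mem _ _ (Submodule.subset_span ⟨0, rfl⟩))
      (Submodule.smul_mem _ _ (Submodule.subset_span ⟨1, rfl⟩))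

/-! MODULE res (helper58) -/

/-- The statement of HoelderGap. -/
theorem Q1Hyp.gap (h : Q1Hyp n N Γ f) (hl : ¬ IsLinear n N f) :
    ∃ α : ℝ, 0 < α ∧ α < 1 ∧
      (∀ ζ0 : EuclideanSpace ℂ (Fin n), ‖ζ0‖ = 1 → ∀ ρ > (0 : ℝ),
        ∃ ζ : EuclideanSpace ℂ (Fin n), ‖ζ‖ = 1 ∧ ‖ζ - ζ0‖ < ρ ∧
          ∃ c > (0 : ℝ), ∀ r : ℝ, 0 ≤ r → r < 1 → c * (1 - r) ^ α ≤ 1 - ‖f ((r : ℂ) • ζ)‖) ∧
      (∀ U : Set (EuclideanSpace ℂ (Fin n)), IsOpen U →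
        (U ∩ sphere (0 : EuclideanSpace ℂ (Fin n)) 1).Nonempty → ∀ β > α,
        ¬ ∃ C : ℝ, ∀ z ∈ U ∩ ball (0 : EuclideanSpace ℂ (Fin n)) 1,
          ∀ w ∈ U ∩ ball (0 : EuclideanSpace ℂ (Fin n)) 1,
            ‖f z - f w‖ ≤ C * ‖z - w‖ ^ β) ∧
      (∀ β > α, ∀ᶠ ζ : sphere (0 : EuclideanSpace ℂ (Fin n)) 1 in
          residual (sphere (0 : EuclideanSpace ℂ (Fin n)) 1),
        ∃ᶠ r : ℝ in 𝓝[<] (1 : ℝ), (1 - r) ^ β ≤ 1 - ‖f ((r : ℂ) • ζ.1)‖) := by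
  obtain ⟨α, h0, h1, hd⟩ := h.part2 hl
  refine ⟨α, h0, h1, hd, ?_, fun β hβ => residual_of_dense h.maps h.hol h0 hβ hd⟩
  rintro U hU ⟨ζ0, hζ0U, hζ0⟩ β hβ
  have hn0 : ‖ζ0‖ = 1 := by simpa using hζ0
  obtain ⟨ρ, hρ, hball⟩ := Metric.isOpen_iff.mp hU ζ0 hζ0U
  obtain ⟨ζ, hζ, hd1, c, hc, hcr⟩ := hd ζ0 hn0 ρ hρ
  have hζU : ζ ∈ U := hball (by rw [Metric.mem_ball, dist_eq_norm]; exact hd1)
  exact not_hoelder h.emb h0 hζ hc hcr hU hζU hβ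

/-- The statement of UniformGap. -/
theorem Q1Hyp.gap_uniform (h : Q1Hyp n N Γ f) (hl : ¬ IsLinear n N f)
    (hc : n = 1 ∨ ¬ ∃ a ∈ ball (0 : EuclideanSpace ℂ (Fin n)) 1,
      ∃ b ∈ ball (0 : EuclideanSpace ℂ (Fin n)) 1, a ≠ b ∧
      ∀ c : ℂ, a + c • (b - a) ∈ ball (0 : EuclideanSpace ℂ (Fin n)) 1 →
        ∃ d : ℂ, f (a + c • (b - a)) = f a + d • (f b - f a)) :
    ∃ α : ℝ, 0 < α ∧ α < 1 ∧
      ∃ c > (0 : ℝ), ∀ z ∈ ball (0 : EuclideanSpace ℂ (Fin n)) 1,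
        c * (1 - ‖z‖) ^ α ≤ 1 - ‖f z‖ := by
  apply h.part3
  rintro ⟨a, ha, b, hb, hab, hline⟩
  rcases hc with hc | hc
  · subst hc
    exact hl (h.isLinear_of_line ha hb hab hline)
  · apply hc
    refine ⟨a, ha, b, hb, hab, fun c hcb => ?_⟩
    exact hline _ hcb ⟨c, rfl⟩

end Pool.Agent.BdReg
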