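import Pool.Agent.BdReg.Metric1

/-! Schwarz-Pick, the equality case, maps preserving the norm. -/

set_option autoImplicit false

open Metric Set Filter Topology ComplexConjugate

namespace Pool.Agent.BdReg

open Pool.Agent.BallCurve

variable {V W : Type*} [NormedAddCommGroup V] [InnerProductSpace ℂ V]
  [NormedAddCommGroup W] [InnerProductSpace ℂ W]

/-! MODULE sp1 -/

/-- `bd 0` is a strictly increasing function of the norm. -/
theorem sp1_Yf_zero (x : V) : Yf 0 x = 1 / (1 - ‖x‖ ^ 2) := by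
  simp [Yf]

theorem sp1_le {x : V} {y : W} (hx : x ∈ ball (0 : V) 1) (hy : y ∈ ball (0 : W) 1)
    (h : ‖y‖ ≤ ‖x‖) : bd 0 y ≤ bd 0 x := by
  apply bd_le_of_Yf (by simp) hy
  rw [sp1_Yf_zero, sp1_Yf_zero]
  have h1 : ‖x‖ < 1 := by simpa using hx
  have h2 : 0 < 1 - ‖x‖ ^ 2 := by nlinarith [norm_nonneg x]
  apply one_div_le_one_div_of_le h2
  nlinarith [norm_nonneg y]

theorem sp1_norm_le {x : V} {y : W} (hx : x ∈ ball (0 : V) 1) (hy : y ∈ ball (0 : W) 1)
    (h : bd 0 y ≤ bd 0 x) : ‖y‖ ≤ ‖x‖ := by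
  have h0 := Yf_le_of_bd (by simp) hy (by simp) hx h
  rw [sp1_Yf_zero, sp1_Yf_zero] at h0
  have h1 : ‖x‖ < 1 := by simpa using hx
  have h2 : ‖y‖ < 1 := by simpa using hy
  have h3 : 0 < 1 - ‖x‖ ^ 2 := by nlinarith [norm_nonneg x]
  have h4 : 0 < 1 - ‖y‖ ^ 2 := by nlinarith [norm_nonneg y]
  have h5 := (one_div_le_one_div h4 h3).mp h0
  apply le_of_sq_le_sq _ (norm_nonneg _)
  linarith

theorem sp1_norm_eq {x : V} {y : W} (hx : x ∈ ball (0 : V) 1) (hy : y ∈ ball (0 : W) 1)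
    (h : bd 0 y = bd 0 x) : ‖y‖ = ‖x‖ :=
  le_antisymm (sp1_norm_le hx hy h.le) (sp1_norm_le hy hx h.ge)

theorem sp1_schwarz {g : V → W} (hm : MapsTo g (ball 0 1) (ball 0 1))
    (hd : DifferentiableOn ℂ g (ball 0 1)) (h0 : g 0 = 0) {b : V} (hb : b ∈ ball (0 : V) 1) :
    ‖g b‖ ≤ ‖b‖ :=
  Complex.norm_le_norm_of_mapsTo_ball hd (fun _ hx => ball_subset_closedBall (hm hx)) h0
    (by simpa using hb)

/-- Schwarz-Pick.  Choose `M ∈ UG V`, `act M 0 = a` and `L ∈ UG W`, `act L (f a) = 0`; Schwarz lemma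
(`Complex.norm_le_norm_of_mapsTo_ball`) for `act L ∘ f ∘ act M`. -/
theorem sp {f : V → W} (hm : MapsTo f (ball 0 1) (ball 0 1))
    (hd : DifferentiableOn ℂ f (ball 0 1)) {a b : V} (ha : a ∈ ball (0 : V) 1)
    (hb : b ∈ ball (0 : V) 1) : bd (f a) (f b) ≤ bd a b := by
  obtain ⟨M, hM, hMa⟩ := exists_act_zero_eq ha
  obtain ⟨L, hL, hLa⟩ := exists_act_eq_zero (hm ha)
  set c : V := act M⁻¹ b with hc
  have hcb : c ∈ ball (0 : V) 1 := act_mem ((UG V).inv_mem hM) hb
  have hMc : act M c = b := act_act_inv hM hb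
  have h0 : (0 : V) ∈ ball (0 : V) 1 := by simp
  set g : V → W := fun z => act L (f (act M z)) with hg
  have hgm : MapsTo g (ball 0 1) (ball 0 1) := fun z hz => act_mem hL (hm (act_mem hM hz))
  have hgd : DifferentiableOn ℂ g (ball 0 1) :=
    (act_differentiableOn hL).comp (hd.comp (act_differentiableOn hM) fun z hz => act_mem hM hz)
      fun z hz => hm (act_mem hM hz)
  have hg0 : g 0 = 0 := by rw [hg]; simp only [hMa, hLa]
  have h1 := sp1_le hcb (hgm hcb) (sp1_schwarz hgm hgd hg0 hcb)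
  have h2 : bd 0 (g c) = bd (f a) (f b) := by
    rw [← hg0]
    have : bd (g 0) (g c) = bd (f (act M 0)) (f (act M c)) :=
      bd_act hL (hm (act_mem hM h0)) (hm (act_mem hM hcb))
    rw [this, hMa, hMc]
  have h3 : bd 0 c = bd a b := by
    rw [← bd_act hM h0 hcb, hMa, hMc]
  rw [← h2, ← h3]
  exact h1

/-- Equality in the Schwarz lemma on a disc: `t ↦ g (t u) / t` is holomorphic on the unit disc (`dslope`),
of norm `≤ 1`, and of norm `1` at an interior point; the norm is strictly convex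
(`Complex.affine_of_mapsTo_ball_of_exists_norm_dslope_eq_div` or the maximum principle). -/
theorem schwarz_eq [CompleteSpace W] {g : V → W} (hm : MapsTo g (ball 0 1) (ball 0 1))
    (hd : DifferentiableOn ℂ g (ball 0 1)) (h0 : g 0 = 0) {b : V} (hb : b ∈ ball (0 : V) 1)
    (hb0 : b ≠ 0) (he : ‖g b‖ = ‖b‖) :
    ∀ c : ℂ, c • b ∈ ball (0 : V) 1 → g (c • b) = c • g b := by
  intro c hc
  have hb1 : ‖b‖ < 1 := by simpa using hb
  have hbpos : 0 < ‖b‖ := norm_pos_iff.mpr hb0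
  have hbne : ((‖b‖ : ℝ) : ℂ) ≠ 0 := by exact_mod_cast hbpos.ne'
  set u : V := ((‖b‖ : ℝ) : ℂ)⁻¹ • b with hu
  have hun : ‖u‖ = 1 := by
    rw [hu, norm_smul, norm_inv, Complex.norm_real, norm_norm, inv_mul_cancel₀ hbpos.ne']
  have hub : ((‖b‖ : ℝ) : ℂ) • u = b := by rw [hu, smul_smul, mul_inv_cancel₀ hbne, one_smul]
  have humem : ∀ t ∈ ball (0 : ℂ) 1, t • u ∈ ball (0 : V) 1 := by
    intro t ht
    rw [mem_ball_zero_iff, norm_smul, hun, mul_one]
    simpa using ht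
  set k : ℂ → W := fun t => g (t • u) with hk
  have hk0 : k 0 = 0 := by rw [hk]; simp [h0]
  have hkd : DifferentiableOn ℂ k (ball 0 1) := by
    have h1 : DifferentiableOn ℂ (fun t : ℂ => t • u) (ball 0 1) := by fun_prop
    exact hd.comp h1 humem
  have hkm : MapsTo k (ball 0 1) (closedBall (k 0) 1) := by
    intro t ht
    rw [hk0]
    exact ball_subset_closedBall (hm (humem t ht))
  have htb : ((‖b‖ : ℝ) : ℂ) ∈ ball (0 : ℂ) 1 := by
    rw [mem_ball_zero_iff, Complex.norm_real, norm_norm]; exact hb1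
  have hds : dslope k 0 ((‖b‖ : ℝ) : ℂ) = ((‖b‖ : ℝ) : ℂ)⁻¹ • g b := by
    rw [dslope_of_ne _ hbne, slope_def_module, hk0, sub_zero, sub_zero]
    rw [hk]; simp only [hub]
  have hdn : ‖dslope k 0 ((‖b‖ : ℝ) : ℂ)‖ = 1 / 1 := by
    rw [hds, norm_smul, norm_inv, Complex.norm_real, norm_norm, he,
      inv_mul_cancel₀ hbpos.ne', div_one]
  have hsc : StrictConvexSpace ℝ W := by
    letI := InnerProductSpace.rclikeToReal ℂ W
    infer_instance
  have haff := Complex.affine_of_mapsTo_ball_of_norm_dslope_eq_div hkd hkm htb hdn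
  have hct : c * ((‖b‖ : ℝ) : ℂ) ∈ ball (0 : ℂ) 1 := by
    rw [mem_ball_zero_iff, norm_mul, Complex.norm_real, norm_norm, ← norm_smul]
    simpa using hc
  have h1 := haff hct
  simp only [hk0, zero_add, sub_zero, hds] at h1
  have h2 : k (c * ((‖b‖ : ℝ) : ℂ)) = g (c • b) := by
    rw [hk]; simp only [mul_smul, hub]
  rw [h2, smul_smul, mul_assoc, mul_inv_cancel₀ hbne, mul_one] at h1
  exact h1

/-! MODULE sp2 -/

/-- `act L` maps complex lines into complex lines: three points of `ball` on the line through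
`a ≠ b`: `(1, x) = (1, a) + c ((1, b) - (1, a))`, so `L (1, x) ∈ span (L (1, a), L (1, b))`; dividing by
the first coordinates one finds `act L x ∈ cline (act L a) (act L b)`. -/
theorem act_cline {L : (ℂ × V) ≃L[ℂ] (ℂ × V)} (hL : L ∈ UG V) {a b x : V}
    (ha : a ∈ ball (0 : V) 1) (hb : b ∈ ball (0 : V) 1) (hx : x ∈ ball (0 : V) 1)
    (hab : a ≠ b) (h : x ∈ cline a b) : act L x ∈ cline (act L a) (act L b) := by
  obtain ⟨c, hc⟩ := h
  set α : ℂ := (L ((1 : ℂ), a)).1 with hα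
  set β : ℂ := (L ((1 : ℂ), b)).1 with hβ
  have h1 : L ((1 : ℂ), x) = (1 - c) • L ((1 : ℂ), a) + c • L ((1 : ℂ), b) := by
    rw [← map_smul, ← map_smul, ← map_add]
    congr 1
    apply Prod.ext
    · simp
    · simp only [Prod.snd_add, Prod.smul_snd]
      rw [hc]; module
  have hLa := map_one_eq hL ha
  have hLb := map_one_eq hL hb
  have hLx := map_one_eq hL hx
  have hγ := fst_ne_zero hL hx
  set γ : ℂ := (L ((1 : ℂ), x)).1 with hγd
  rw [← hα] at hLa
  rw [← hβ] at hLb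
  rw [hLx, hLa, hLb] at h1
  have h2 : γ = (1 - c) * α + c * β := by
    have := congrArg Prod.fst h1
    simpa using this
  have h3 : γ • act L x = ((1 - c) * α) • act L a + (c * β) • act L b := by
    have := congrArg Prod.snd h1
    simpa [smul_smul] using this
  refine ⟨c * β / γ, ?_⟩
  have h4 : act L x = γ⁻¹ • (((1 - c) * α) • act L a + (c * β) • act L b) := by
    rw [← h3, smul_smul, inv_mul_cancel₀ hγ, one_smul]
  rw [h4]
  have h5 : (1 - c) * α = γ - c * β := by rw [h2]; ring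
  rw [h5]
  match_scalars
  · field_simp
    ring
  · field_simp

/-- Equality in Schwarz-Pick for one pair `a ≠ b`: `f` is isometric on the complex line through
`a, b` and maps it into the complex line through `f a, f b`.  (Normalise `a = 0`, `f a = 0` with
elements of `UG`; `bd 0 x` is a strictly increasing function of `‖x‖`, so `‖f b‖ = ‖b‖`, and `schwarz_eq`
gives `f (c b) = c f b`; `Yf (c f b) (c' f b) = Yf (c b) (c' b)` since `‖f b‖ = ‖b‖`; then
`bd_act` and `act_cline`.) -/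
theorem sp_eq [CompleteSpace W] {f : V → W} (hm : MapsTo f (ball 0 1) (ball 0 1))
    (hd : DifferentiableOn ℂ f (ball 0 1)) {a b : V} (ha : a ∈ ball (0 : V) 1)
    (hb : b ∈ ball (0 : V) 1) (hab : a ≠ b) (he : bd (f a) (f b) = bd a b) :
    (∀ x ∈ ball (0 : V) 1, ∀ y ∈ ball (0 : V) 1, x ∈ cline a b → y ∈ cline a b →
      bd (f x) (f y) = bd x y) ∧
    (∀ x ∈ ball (0 : V) 1, x ∈ cline a b → f x ∈ cline (f a) (f b)) := by
  obtain ⟨M, hM, hMa⟩ := exists_act_zero_eq ha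
  obtain ⟨L, hL, hLa⟩ := exists_act_eq_zero (hm ha)
  set c0 : V := act M⁻¹ b with hc0
  have hcb : c0 ∈ ball (0 : V) 1 := act_mem ((UG V).inv_mem hM) hb
  have hMc : act M c0 = b := act_act_inv hM hb
  have h0 : (0 : V) ∈ ball (0 : V) 1 := by simp
  have hMia : act M⁻¹ a = 0 := by rw [← hMa, act_inv_act hM h0]
  set g : V → W := fun z => act L (f (act M z)) with hg
  have hgm : MapsTo g (ball 0 1) (ball 0 1) := fun z hz => act_mem hL (hm (act_mem hM hz))
  have hgd : DifferentiableOn ℂ g (ball 0 1) :=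
    (act_differentiableOn hL).comp (hd.comp (act_differentiableOn hM) fun z hz => act_mem hM hz)
      fun z hz => hm (act_mem hM hz)
  have hg0 : g 0 = 0 := by rw [hg]; simp only [hMa, hLa]
  have hgc : g c0 = act L (f b) := by rw [hg]; simp only [hMc]
  have h2 : bd 0 (g c0) = bd (f a) (f b) := by
    rw [← hg0]
    have : bd (g 0) (g c0) = bd (f (act M 0)) (f (act M c0)) :=
      bd_act hL (hm (act_mem hM h0)) (hm (act_mem hM hcb))
    rw [this, hMa, hMc]
  have h3 : bd 0 c0 = bd a b := by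
    rw [← bd_act hM h0 hcb, hMa, hMc]
  have hn : ‖g c0‖ = ‖c0‖ := sp1_norm_eq hcb (hgm hcb) (by rw [h2, h3, he])
  have hc00 : c0 ≠ 0 := by
    intro h
    apply hab
    rw [← hMa, ← hMc, h]
  have hse := schwarz_eq hgm hgd hg0 hcb hc00 hn
  -- points of the line
  have hpt : ∀ x ∈ ball (0 : V) 1, x ∈ cline a b → ∃ t : ℂ, act M⁻¹ x = t • c0 ∧
      act L (f x) = t • g c0 := by
    intro x hx hxl
    have h4 := act_cline ((UG V).inv_mem hM) ha hb hx hab hxl
    rw [hMia] at h4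
    obtain ⟨t, ht⟩ := h4
    rw [zero_add, sub_zero] at ht
    refine ⟨t, ht, ?_⟩
    have h5 := hse t (by rw [← ht]; exact act_mem ((UG V).inv_mem hM) hx)
    rw [← h5, ← ht, hg]
    simp only [act_act_inv hM hx]
  constructor
  · intro x hx y hy hxl hyl
    obtain ⟨t, ht, ht'⟩ := hpt x hx hxl
    obtain ⟨s, hs, hs'⟩ := hpt y hy hyl
    rw [← bd_act hL (hm hx) (hm hy), ← bd_act ((UG V).inv_mem hM) hx hy, ht, hs, ht', hs']
    apply bd_eq_of_Yf
    unfold Yf
    rw [inner_smul_left, inner_smul_right, inner_smul_left, inner_smul_right,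
      inner_self_eq_norm_sq_to_K, inner_self_eq_norm_sq_to_K, norm_smul, norm_smul, norm_smul,
      norm_smul, hn]
  · intro x hx hxl
    obtain ⟨t, ht, ht'⟩ := hpt x hx hxl
    have h6 : act L (f x) ∈ cline (act L (f a)) (act L (f b)) := by
      refine ⟨t, ?_⟩
      rw [hLa, zero_add, sub_zero, ← hgc]; exact ht'
    have hne : act L (f a) ≠ act L (f b) := by
      rw [hLa, ← hgc]
      intro h
      rw [← h, norm_zero] at hn
      exact hc00 (norm_eq_zero.mp hn.symm)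
    have h7 := act_cline ((UG W).inv_mem hL) (act_mem hL (hm ha)) (act_mem hL (hm hb))
      (act_mem hL (hm hx)) hne h6
    rwa [act_inv_act hL (hm ha), act_inv_act hL (hm hb), act_inv_act hL (hm hx)] at h7

/-! MODULE sp3 -/

/-- A holomorphic map with `‖g z‖ = ‖z‖` on the ball is the restriction of a linear isometry.
`g 0 = 0`; by `schwarz_eq` `g (c b) = c g b`; `g` is differentiable at `0` with derivative `A`, and
`g z = lim g (t z)/t = A z`; `‖A z‖ = ‖z‖` on the ball, hence everywhere. -/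
theorem linear_of_norm_eq [CompleteSpace W] {g : V → W}
    (hd : DifferentiableOn ℂ g (ball 0 1)) (he : ∀ z ∈ ball (0 : V) 1, ‖g z‖ = ‖z‖) :
    ∃ A : V →ₗᵢ[ℂ] W, ∀ z ∈ ball (0 : V) 1, g z = A z := by
  have hz0 : (0 : V) ∈ ball (0 : V) 1 := by simp
  have h0 : g 0 = 0 := by
    have := he 0 hz0
    rw [norm_zero] at this
    exact norm_eq_zero.mp this
  have hm : MapsTo g (ball 0 1) (ball 0 1) := fun z hz => by
    rw [mem_ball_zero_iff, he z hz]; simpa using hz
  have hhom : ∀ z ∈ ball (0 : V) 1, ∀ c : ℂ, c • z ∈ ball (0 : V) 1 → g (c • z) = c • g z := by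
    intro z hz c hc
    by_cases hz1 : z = 0
    · rw [hz1, smul_zero, h0, smul_zero]
    · exact schwarz_eq hm hd h0 hz hz1 (he z hz) c hc
  set A : V →L[ℂ] W := fderiv ℂ g 0 with hA
  have hda : HasFDerivAt g A 0 := (hd.differentiableAt (isOpen_ball.mem_nhds hz0)).hasFDerivAt
  have hAg : ∀ z ∈ ball (0 : V) 1, g z = A z := by
    intro z hz
    have hc : Tendsto (fun n : ℕ => ‖((n : ℂ) + 1)‖) atTop atTop := by
      have h2 : ∀ n : ℕ, ‖((n : ℂ) + 1)‖ = (n : ℝ) + 1 := fun n => by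
        have : ((n : ℂ) + 1) = (((n : ℝ) + 1 : ℝ) : ℂ) := by push_cast; ring
        rw [this, Complex.norm_real, Real.norm_eq_abs, abs_of_nonneg (by positivity)]
      simp only [h2]
      exact tendsto_atTop_add_const_right _ 1 tendsto_natCast_atTop_atTop
    have hlim := hda.lim z hc
    have hconst : ∀ n : ℕ, ((n : ℂ) + 1) • (g (0 + ((n : ℂ) + 1)⁻¹ • z) - g 0) = g z := by
      intro n
      have hne : ((n : ℂ) + 1) ≠ 0 := Nat.cast_add_one_ne_zero n
      have hmem : ((n : ℂ) + 1)⁻¹ • z ∈ ball (0 : V) 1 := by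
        rw [mem_ball_zero_iff, norm_smul, norm_inv]
        have h2 : ‖((n : ℂ) + 1)‖ = (n : ℝ) + 1 := by
          have : ((n : ℂ) + 1) = (((n : ℝ) + 1 : ℝ) : ℂ) := by push_cast; ring
          rw [this, Complex.norm_real, Real.norm_eq_abs, abs_of_nonneg (by positivity)]
        rw [h2]
        have h3 : ‖z‖ < 1 := by simpa using hz
        have h4 : ((n : ℝ) + 1)⁻¹ ≤ 1 := inv_le_one_of_one_le₀ (by
          have : (0 : ℝ) ≤ n := Nat.cast_nonneg n
          linarith)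
        have h5 : 0 ≤ ((n : ℝ) + 1)⁻¹ := by positivity
        nlinarith [norm_nonneg z]
      rw [zero_add, h0, sub_zero, hhom z hz _ hmem, smul_smul, mul_inv_cancel₀ hne, one_smul]
    simp only [hconst] at hlim
    exact tendsto_nhds_unique tendsto_const_nhds hlim
  have hAn : ∀ v : V, ‖A v‖ = ‖v‖ := by
    intro v
    by_cases hv : v = 0
    · rw [hv, map_zero, norm_zero, norm_zero]
    have hvpos : 0 < ‖v‖ := norm_pos_iff.mpr hv
    set t : ℂ := ((2 * ‖v‖ : ℝ) : ℂ)⁻¹ with ht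
    have htn : ‖t‖ = (2 * ‖v‖)⁻¹ := by
      rw [ht, norm_inv, Complex.norm_real, Real.norm_eq_abs, abs_of_pos (by positivity)]
    have htv : ‖t • v‖ = 1 / 2 := by
      rw [norm_smul, htn]; field_simp
    have hmem : t • v ∈ ball (0 : V) 1 := by rw [mem_ball_zero_iff, htv]; norm_num
    have h1 := he _ hmem
    rw [hAg _ hmem, map_smul, norm_smul, norm_smul] at h1
    exact mul_left_cancel₀ (by rw [htn]; positivity) h1
  exact ⟨⟨(A : V →ₗ[ℂ] W), hAn⟩, fun z hz => hAg z hz⟩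

/-- A holomorphic automorphism of the ball is `act L`: normalise `g 0 = 0` with `UG V`; Schwarz for
`g` and its inverse gives `‖g z‖ = ‖z‖`; `linear_of_norm_eq`; a linear isometry `A` of a finite
dimensional space is a `LinearIsometryEquiv`, and `id × A` is in `UG V`. -/
theorem aut_eq_act [FiniteDimensional ℂ V] {g h : V → V} (hgm : MapsTo g (ball 0 1) (ball 0 1))
    (hhm : MapsTo h (ball 0 1) (ball 0 1)) (hgd : DifferentiableOn ℂ g (ball 0 1))
    (hhd : DifferentiableOn ℂ h (ball 0 1)) (hgh : ∀ z ∈ ball (0 : V) 1, g (h z) = z)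
    (hhg : ∀ z ∈ ball (0 : V) 1, h (g z) = z) :
    ∃ L ∈ UG V, ∀ z ∈ ball (0 : V) 1, g z = act L z := by
  have h0 : (0 : V) ∈ ball (0 : V) 1 := by simp
  have : CompleteSpace V := FiniteDimensional.complete ℂ V
  obtain ⟨L, hL, hLa⟩ := exists_act_eq_zero (hgm h0)
  set G : V → V := fun z => act L (g z) with hG
  set H : V → V := fun z => h (act L⁻¹ z) with hH
  have hLi := (UG V).inv_mem hL
  have hGm : MapsTo G (ball 0 1) (ball 0 1) := fun z hz => act_mem hL (hgm hz)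
  have hHm : MapsTo H (ball 0 1) (ball 0 1) := fun z hz => hhm (act_mem hLi hz)
  have hGd : DifferentiableOn ℂ G (ball 0 1) := (act_differentiableOn hL).comp hgd hgm
  have hHd : DifferentiableOn ℂ H (ball 0 1) :=
    hhd.comp (act_differentiableOn hLi) fun z hz => act_mem hLi hz
  have hG0 : G 0 = 0 := hLa
  have hH0 : H 0 = 0 := by
    have h1 : act L⁻¹ (act L (g 0)) = g 0 := act_inv_act hL (hgm h0)
    rw [hLa] at h1
    rw [hH]
    simp only [h1, hhg 0 h0]
  have hHG : ∀ z ∈ ball (0 : V) 1, H (G z) = z := fun z hz => by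
    rw [hH, hG]
    simp only [act_inv_act hL (hgm hz), hhg z hz]
  have hn : ∀ z ∈ ball (0 : V) 1, ‖G z‖ = ‖z‖ := fun z hz => by
    apply le_antisymm (sp1_schwarz hGm hGd hG0 hz)
    have h1 := sp1_schwarz hHm hHd hH0 (hGm hz)
    rwa [hHG z hz] at h1
  obtain ⟨A, hA⟩ := linear_of_norm_eq hGd hn
  set e : V ≃ₗᵢ[ℂ] V := A.toLinearIsometryEquiv rfl with he
  set M : (ℂ × V) ≃L[ℂ] (ℂ × V) :=
    (ContinuousLinearEquiv.refl ℂ ℂ).prodCongr e.toContinuousLinearEquiv with hM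
  have hMx : ∀ x : ℂ × V, M x = (x.1, A x.2) := fun x => rfl
  have hMU : M ∈ UG V := by
    intro x
    rw [hMx]
    simp [qf]
  refine ⟨L⁻¹ * M, (UG V).mul_mem hLi hMU, fun z hz => ?_⟩
  rw [act_mul hLi hMU hz]
  have h1 : act M z = A z := by
    unfold act
    rw [hMx]; simp
  rw [h1, ← hA z hz, hG]
  simp only [act_inv_act hL (hgm hz)]

/-! MODULE sp4 -/

/-- The final step of claim (b): `f 0 = 0`, `‖ξ‖ = ‖η‖ = 1` and
`(1-|f z|²) |1-<ξ,z>|² ≤ (1-|z|²) |1-<η,f z>|²` for all `z` imply `‖f z‖ = ‖z‖`.  Fix `z = λ u`;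
`g (μ) = (1-<ξ, μ u>)/(1-<η, f (μ u)>)` is holomorphic on the unit disc, `g 0 = 1`, and by Schwarz
`1-|μ|² ≤ 1-|f(μ u)|² ≤ (1-|μ|²) |g μ|⁻²`, so `|g| ≤ 1 = |g 0|`: by the maximum principle `|g| = 1`, so
`1-|f|² ≤ 1-|μ|²`, i.e. `‖f z‖ ≥ ‖z‖`. -/
theorem norm_eq_of_julia {f : V → W} (hm : MapsTo f (ball 0 1) (ball 0 1))
    (hd : DifferentiableOn ℂ f (ball 0 1)) (h0 : f 0 = 0) {ξ : V} {η : W} (hξ : ‖ξ‖ = 1)
    (hη : ‖η‖ = 1) (h : ∀ z ∈ ball (0 : V) 1,
      (1 - ‖f z‖ ^ 2) * ‖1 - inner ℂ ξ z‖ ^ 2 ≤ (1 - ‖z‖ ^ 2) * ‖1 - inner ℂ η (f z)‖ ^ 2) :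
    ∀ z ∈ ball (0 : V) 1, ‖f z‖ = ‖z‖ := by
  intro z hz
  have hz0 : (0 : V) ∈ ball (0 : V) 1 := by simp
  have hlt : ∀ {w : W} {η' : W}, ‖η'‖ = 1 → w ∈ ball (0 : W) 1 → 0 < ‖1 - inner ℂ η' w‖ := by
    intro w η' hη' hw
    have h1 : ‖w‖ < 1 := by simpa using hw
    have h2 : ‖(inner ℂ η' w : ℂ)‖ ≤ ‖w‖ := by
      have := norm_inner_le_norm (𝕜 := ℂ) η' w
      rwa [hη', one_mul] at this
    rw [norm_pos_iff, sub_ne_zero]
    intro h3
    rw [← h3, norm_one] at h2
    linarith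
  have hltV : ∀ {w : V}, w ∈ ball (0 : V) 1 → 0 < ‖1 - inner ℂ ξ w‖ := by
    intro w hw
    have h1 : ‖w‖ < 1 := by simpa using hw
    have h2 : ‖(inner ℂ ξ w : ℂ)‖ ≤ ‖w‖ := by
      have := norm_inner_le_norm (𝕜 := ℂ) ξ w
      rwa [hξ, one_mul] at this
    rw [norm_pos_iff, sub_ne_zero]
    intro h3
    rw [← h3, norm_one] at h2
    linarith
  set G : V → ℂ := fun w => (1 - inner ℂ ξ w) / (1 - inner ℂ η (f w)) with hG
  have hGd : DifferentiableOn ℂ G (ball 0 1) := by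
    have h1 : DifferentiableOn ℂ (fun w : V => 1 - inner ℂ ξ w) (ball 0 1) :=
      DifferentiableOn.const_sub ((innerSL ℂ ξ).differentiable).differentiableOn 1
    have h2 : DifferentiableOn ℂ (fun w : V => 1 - inner ℂ η (f w)) (ball 0 1) :=
      DifferentiableOn.const_sub ((innerSL ℂ η).differentiable.comp_differentiableOn hd) 1
    have h3 := h1.mul (h2.inv fun w hw => norm_pos_iff.mp (hlt hη (hm hw)))
    exact h3
  have hpos : ∀ w ∈ ball (0 : V) 1, 0 < 1 - ‖w‖ ^ 2 := by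
    intro w hw
    have h1 : ‖w‖ < 1 := by simpa using hw
    nlinarith [norm_nonneg w]
  have hG1 : ∀ w ∈ ball (0 : V) 1, ‖G w‖ ≤ 1 := by
    intro w hw
    have h1 := h w hw
    have h2 := sp1_schwarz hm hd h0 hw
    have h3 := hlt hη (hm hw)
    have h4 := hpos w hw
    rw [hG]
    simp only [norm_div]
    rw [div_le_one h3]
    apply le_of_sq_le_sq _ h3.le
    have h5 : (1 - ‖w‖ ^ 2) * ‖1 - inner ℂ ξ w‖ ^ 2 ≤
        (1 - ‖f w‖ ^ 2) * ‖1 - inner ℂ ξ w‖ ^ 2 := by
      apply mul_le_mul_of_nonneg_right _ (by positivity)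
      nlinarith [norm_nonneg (f w), norm_nonneg w]
    exact le_of_mul_le_mul_left (h5.trans h1) h4
  have hG0 : G 0 = 1 := by rw [hG]; simp [h0]
  have hmax : IsMaxOn (norm ∘ G) (ball 0 1) (0 : V) := by
    intro w hw
    simp only [Function.comp, mem_ofPred_eq]
    rw [hG0, norm_one]
    exact hG1 w hw
  have heq := Complex.norm_eqOn_of_isPreconnected_of_isMaxOn (convex_ball (0 : V) 1).isPreconnected
    isOpen_ball hGd hz0 hmax hz
  simp only [Function.comp, Function.const_apply, hG0, norm_one] at heq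
  have h2 := sp1_schwarz hm hd h0 hz
  apply le_antisymm h2
  have h3 := hlt hη (hm hz)
  have h4 := hltV hz
  have h5 : ‖1 - inner ℂ ξ z‖ = ‖1 - inner ℂ η (f z)‖ := by
    rw [hG] at heq
    simp only [norm_div] at heq
    rwa [div_eq_one_iff_eq h3.ne'] at heq
  have h6 := h z hz
  rw [h5] at h6
  have h7 := le_of_mul_le_mul_right h6 (by positivity)
  apply le_of_sq_le_sq _ (norm_nonneg _)
  linarith

end Pool.Agent.BdReg
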