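import Mathlib

/-! Definitions used in the statements: the setting of Q1. -/

set_option autoImplicit false

namespace Pool.Agent.BdReg

/-- The open unit ball of `ℂ^n`. -/
def Bn (n : ℕ) : Set (EuclideanSpace ℂ (Fin n)) := Metric.ball 0 1

/-- `Γ` is a discrete group of biholomorphic self-maps of the ball of `ℂ^N`: its elements are
holomorphic (and so are their inverses, `Γ` being a group), and only the identity is close to the
identity, uniformly on a suitable compact set. -/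
def DiscreteAut {N : ℕ} (Γ : Subgroup (Equiv.Perm (Bn N))) : Prop :=
  (∀ γ ∈ Γ, ∃ g : EuclideanSpace ℂ (Fin N) → EuclideanSpace ℂ (Fin N),
    DifferentiableOn ℂ g (Bn N) ∧ ∀ z : Bn N, (γ z).1 = g z.1) ∧
  ∃ K : Set (EuclideanSpace ℂ (Fin N)), IsCompact K ∧ K ⊆ Bn N ∧ ∃ ε : ℝ, 0 < ε ∧
    ∀ γ ∈ Γ, (∀ z : Bn N, z.1 ∈ K → ‖(γ z).1 - z.1‖ < ε) → γ = 1

/-- `f` is a proper holomorphic embedding of the ball of `ℂ^n` in the ball of `ℂ^N`. -/
def ProperEmbedding {n N : ℕ} (f : EuclideanSpace ℂ (Fin n) → EuclideanSpace ℂ (Fin N)) : Prop :=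
  Set.MapsTo f (Bn n) (Bn N) ∧ DifferentiableOn ℂ f (Bn n) ∧
  (∀ K : Set (EuclideanSpace ℂ (Fin N)), IsCompact K → K ⊆ Bn N →
    IsCompact (Bn n ∩ f ⁻¹' K)) ∧
  Set.InjOn f (Bn n) ∧ ∀ z ∈ Bn n, Function.Injective (fderiv ℂ f z)

/-- The image of `f` is invariant under `Γ`, and its quotient by `Γ` is compact: a compact subset of
the image meets every orbit of `Γ` in the image. -/
def CompactQuotient {n N : ℕ} (Γ : Subgroup (Equiv.Perm (Bn N)))
    (f : EuclideanSpace ℂ (Fin n) → EuclideanSpace ℂ (Fin N)) : Prop :=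
  (∀ γ ∈ Γ, ∀ z : Bn N, z.1 ∈ f '' Bn n → (γ z).1 ∈ f '' Bn n) ∧
  ∃ C : Set (EuclideanSpace ℂ (Fin N)), IsCompact C ∧ C ⊆ f '' Bn n ∧
    ∀ z : Bn N, z.1 ∈ f '' Bn n → ∃ γ ∈ Γ, (γ z).1 ∈ C

/-- `f` is linear: its image is the ball of `ℂ^N` cut by an `n`-dimensional complex affine
subspace. -/
def LinearMapOfBalls {n N : ℕ} (f : EuclideanSpace ℂ (Fin n) → EuclideanSpace ℂ (Fin N)) : Prop :=
  ∃ A : AffineSubspace ℂ (EuclideanSpace ℂ (Fin N)), Module.finrank ℂ A.direction = n ∧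
    f '' Bn n = Bn N ∩ (A : Set (EuclideanSpace ℂ (Fin N)))

end Pool.Agent.BdReg
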